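import Mathlib

set_option autoImplicit false

open Set Filter Topology
open scoped RealInnerProductSpace ContDiff

namespace Helper772Chen

section

variable {E G H : Type*} [NormedAddCommGroup E] [NormedSpace ℝ E] [NormedAddCommGroup G]
  [NormedSpace ℝ G] [NormedAddCommGroup H] [NormedSpace ℝ H] {V : Set E}

theorem diffAt (hV : IsOpen V) {u : E → G} (hu : ContDiffOn ℝ ∞ u V) {x : E} (hx : x ∈ V) :
    DifferentiableAt ℝ u x :=
  (hu.contDiffAt (hV.mem_nhds hx)).differentiableAt (by simp)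

theorem sm_fderiv (hV : IsOpen V) {u : E → G} (hu : ContDiffOn ℝ ∞ u V) :
    ContDiffOn ℝ ∞ (fderiv ℝ u) V :=
  hu.fderiv_of_isOpen hV (by simp)

theorem symm2 (hV : IsOpen V) {u : E → G} (hu : ContDiffOn ℝ ∞ u V) {x : E} (hx : x ∈ V)
    (v w : E) : fderiv ℝ (fderiv ℝ u) x v w = fderiv ℝ (fderiv ℝ u) x w v :=
  (hu.contDiffAt (hV.mem_nhds hx)).isSymmSndFDerivAt (by
    rw [minSmoothness_of_isRCLikeNormedField]
    exact ENat.LEInfty.out) v w

theorem fd_congr (hV : IsOpen V) {u v : E → G} (h : ∀ y ∈ V, u y = v y) {x : E} (hx : x ∈ V) :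
    fderiv ℝ u x = fderiv ℝ v x := by
  apply Filter.EventuallyEq.fderiv_eq
  filter_upwards [hV.mem_nhds hx] with y hy using h y hy

theorem fd_apply (hV : IsOpen V) {P : E → G} (hP : ContDiffOn ℝ ∞ P V) {e : E → E} {x : E}
    (hx : x ∈ V) (he : DifferentiableAt ℝ e x) (v : E) :
    fderiv ℝ (fun y => fderiv ℝ P y (e y)) x v =
      fderiv ℝ (fderiv ℝ P) x v (e x) + fderiv ℝ P x (fderiv ℝ e x v) := by
  rw [fderiv_clm_apply (diffAt hV (sm_fderiv hV hP) hx) he]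
  change fderiv ℝ P x (fderiv ℝ e x v) + fderiv ℝ (fderiv ℝ P) x v (e x) = _
  rw [add_comm]

theorem fd_apply_const (hV : IsOpen V) {P : E → G} (hP : ContDiffOn ℝ ∞ P V) {x : E}
    (hx : x ∈ V) (w v : E) :
    fderiv ℝ (fun y => fderiv ℝ P y w) x v = fderiv ℝ (fderiv ℝ P) x v w := by
  rw [fd_apply hV hP hx (differentiableAt_const w)]
  simp

theorem sm_apply (hV : IsOpen V) {P : E → G} (hP : ContDiffOn ℝ ∞ P V) {e : E → E}
    (he : ContDiffOn ℝ ∞ e V) : ContDiffOn ℝ ∞ (fun y => fderiv ℝ P y (e y)) V :=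
  (sm_fderiv hV hP).clm_apply he

theorem sm_apply_const (hV : IsOpen V) {P : E → G} (hP : ContDiffOn ℝ ∞ P V) (w : E) :
    ContDiffOn ℝ ∞ (fun y => fderiv ℝ P y w) V :=
  sm_apply hV hP contDiffOn_const

end

section

variable {E G : Type*} [NormedAddCommGroup E] [NormedSpace ℝ E] [NormedAddCommGroup G]
  [InnerProductSpace ℝ G] {V : Set E}

theorem fd_inner (hV : IsOpen V) {u v : E → G} (hu : ContDiffOn ℝ ∞ u V)
    (hv : ContDiffOn ℝ ∞ v V) {x : E} (hx : x ∈ V) (w : E) :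
    fderiv ℝ (fun y => ⟪u y, v y⟫) x w = ⟪u x, fderiv ℝ v x w⟫ + ⟪fderiv ℝ u x w, v x⟫ :=
  fderiv_inner_apply ℝ (diffAt hV hu hx) (diffAt hV hv hx) w

theorem sm_inner {u v : E → G} (hu : ContDiffOn ℝ ∞ u V) (hv : ContDiffOn ℝ ∞ v V) :
    ContDiffOn ℝ ∞ (fun y => ⟪u y, v y⟫) V := hu.inner ℝ hv

theorem fd_smul (hV : IsOpen V) {c : E → ℝ} {v : E → G} (hc : ContDiffOn ℝ ∞ c V)
    (hv : ContDiffOn ℝ ∞ v V) {x : E} (hx : x ∈ V) (w : E) :
    fderiv ℝ (fun y => c y • v y) x w = c x • fderiv ℝ v x w + fderiv ℝ c x w • v x := by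
  rw [fderiv_fun_smul (diffAt hV hc hx) (diffAt hV hv hx)]
  simp

end

end Helper772Chen
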