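import Mathlib

set_option autoImplicit false

open Set Filter Topology

namespace Helper772Chen

/-- A function with nonnegative derivative on `[t0, ∞)` is nondecreasing there. -/
theorem incr {f f' : ℝ → ℝ} {t0 : ℝ} (hf : ∀ t, t0 ≤ t → HasDerivAt f (f' t) t)
    (h : ∀ t, t0 ≤ t → 0 ≤ f' t) {x y : ℝ} (hx : t0 ≤ x) (hxy : x ≤ y) : f x ≤ f y := by
  have h1 : MonotoneOn f (Ici t0) := by
    refine monotoneOn_of_deriv_nonneg (convex_Ici t0) ?_ ?_ ?_
    · exact fun t ht => (hf t ht).continuousAt.continuousWithinAt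
    · intro t ht
      rw [interior_Ici] at ht
      exact (hf t ht.le).differentiableAt.differentiableWithinAt
    · intro t ht
      rw [interior_Ici] at ht
      rw [(hf t ht.le).deriv]
      exact h t ht.le
  exact h1 hx (hx.trans hxy) hxy

/-- A function with positive derivative on `[t0, ∞)` is increasing there. -/
theorem incr_strict {f f' : ℝ → ℝ} {t0 : ℝ} (hf : ∀ t, t0 ≤ t → HasDerivAt f (f' t) t)
    (h : ∀ t, t0 ≤ t → 0 < f' t) {x y : ℝ} (hx : t0 ≤ x) (hxy : x < y) : f x < f y := by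
  have h1 : StrictMonoOn f (Ici t0) := by
    refine strictMonoOn_of_deriv_pos (convex_Ici t0) ?_ ?_
    · exact fun t ht => (hf t ht).continuousAt.continuousWithinAt
    · intro t ht
      rw [interior_Ici] at ht
      rw [(hf t ht.le).deriv]
      exact h t ht.le
  exact h1 hx (hx.trans hxy.le) hxy

/-- Bounded nondecreasing functions on `[t0, ∞)` converge. -/
theorem exists_lim {f : ℝ → ℝ} {t0 B : ℝ} (hmono : ∀ x y, t0 ≤ x → x ≤ y → f x ≤ f y)
    (hB : ∀ t, t0 ≤ t → f t ≤ B) :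
    ∃ l, Tendsto f atTop (𝓝 l) ∧ ∀ t, t0 ≤ t → f t ≤ l := by
  have h1 : Monotone (fun t => f (max t t0)) := by
    intro x y hxy
    exact hmono _ _ (le_max_right _ _) (max_le_max hxy le_rfl)
  have h2 : BddAbove (range (fun t => f (max t t0))) := by
    refine ⟨B, ?_⟩
    rintro _ ⟨t, rfl⟩
    exact hB _ (le_max_right _ _)
  refine ⟨⨆ t, f (max t t0), ?_, ?_⟩
  · refine (tendsto_atTop_ciSup h1 h2).congr' ?_
    filter_upwards [eventually_ge_atTop t0] with t ht
    rw [max_eq_left ht]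
  · intro t ht
    have := le_ciSup h2 t
    simpa [max_eq_left ht] using this

/-- If `f` is nondecreasing on `[t0, ∞)` and tends to `l`, then `f t ≤ l`. -/
theorem le_lim {f : ℝ → ℝ} {t0 l : ℝ} (hmono : ∀ y, t0 ≤ y → f t0 ≤ f y)
    (hl : Tendsto f atTop (𝓝 l)) : f t0 ≤ l := by
  refine ge_of_tendsto hl ?_
  filter_upwards [eventually_ge_atTop t0] with t ht using hmono t ht

/-- Trajectory data in rescaled time. -/
structure TD (ι : Type) [Fintype ι] where
  (a b l : ι → ℝ → ℝ)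
  (p q : ι → ℝ)
  (K M w θ s X Y : ℝ → ℝ)
  hw : ∀ t, w t = 1 / (1 + ∑ i, (a i t ^ 2 + b i t ^ 2))
  hK3 : ∀ t, 3 * K t = - ∑ i, a i t
  hKd : ∀ t, HasDerivAt K (w t * M t) t
  hMd : ∀ t, HasDerivAt M (w t * (K t * (K t ^ 2 + ∑ i, a i t ^ 2) - M t * ∑ i, b i t)) t
  hθ0 : θ 0 = 0
  hs0 : s 0 = 0
  hX0 : X 0 = 0
  hY0 : Y 0 = 0
  hθd : ∀ t, HasDerivAt θ (w t * K t) t
  hsd : ∀ t, HasDerivAt s (w t) t
  hXd : ∀ t, HasDerivAt X (w t * Real.cos (θ t)) t
  hYd : ∀ t, HasDerivAt Y (w t * Real.sin (θ t)) t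
  hlpos : ∀ i t, 0 < l i t
  hld : ∀ i t, HasDerivAt (l i) (w t * b i t * l i t) t
  hal : ∀ i t, a i t * l i t = q i * Real.cos (θ t) + p i * Real.sin (θ t)
  hbl : ∀ i t, b i t * l i t = p i * Real.cos (θ t) - q i * Real.sin (θ t)
  hl : ∀ i t, l i t = 1 + p i * X t - q i * Y t
  hK0 : 0 < K 0
  hM0 : 0 ≤ M 0

namespace TD

variable {ι : Type} [Fintype ι] (T : TD ι)

theorem den_pos (t : ℝ) : 0 < 1 + ∑ i, (T.a i t ^ 2 + T.b i t ^ 2) := by
  have : 0 ≤ ∑ i, (T.a i t ^ 2 + T.b i t ^ 2) := Finset.sum_nonneg fun i _ => by positivity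
  linarith

theorem w_pos (t : ℝ) : 0 < T.w t := by
  rw [T.hw]
  exact div_pos one_pos (T.den_pos t)

/-- The product of the `l i`. -/
noncomputable def L (t : ℝ) : ℝ := ∏ i, T.l i t

theorem L_pos (t : ℝ) : 0 < T.L t := Finset.prod_pos fun i _ => T.hlpos i t

theorem L_deriv (t : ℝ) : HasDerivAt T.L (T.w t * (∑ i, T.b i t) * T.L t) t := by
  classical
  have h1 : HasDerivAt (∏ i, T.l i)
      (∑ i, (∏ j ∈ Finset.univ.erase i, T.l j t) • (T.w t * T.b i t * T.l i t)) t :=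
    HasDerivAt.finsetProd fun i _ => T.hld i t
  have h2 : (∏ i, T.l i) = T.L := by
    funext s
    simp [L, Finset.prod_apply]
  rw [h2] at h1
  refine h1.congr_deriv ?_
  rw [Finset.mul_sum, Finset.sum_mul]
  refine Finset.sum_congr rfl fun i hi => ?_
  have h3 : T.L t = T.l i t * ∏ j ∈ Finset.univ.erase i, T.l j t := by
    exact (Finset.mul_prod_erase Finset.univ (fun j => T.l j t) hi).symm
  rw [h3, smul_eq_mul]
  ring

/-- The monotone quantity. -/
noncomputable def W (t : ℝ) : ℝ := T.L t * T.M t * T.K t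

theorem W_deriv (t : ℝ) : HasDerivAt T.W
    (T.w t * T.L t * (T.K t ^ 2 * (T.K t ^ 2 + ∑ i, T.a i t ^ 2) + T.M t ^ 2)) t := by
  have h := ((T.L_deriv t).mul (T.hMd t)).mul (T.hKd t)
  refine h.congr_deriv ?_
  simp only [Pi.mul_apply]
  ring

theorem suma_nonneg (t : ℝ) : 0 ≤ ∑ i, T.a i t ^ 2 := Finset.sum_nonneg fun i _ => by positivity

theorem W_mono {x y : ℝ} (hxy : x ≤ y) : T.W x ≤ T.W y := by
  refine incr (t0 := x) (fun t _ => T.W_deriv t) (fun t _ => ?_) le_rfl hxy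
  have h1 := (T.w_pos t).le
  have h2 := (T.L_pos t).le
  have h3 := T.suma_nonneg t
  positivity

theorem KM_nonneg {t : ℝ} (ht : 0 ≤ t) : 0 ≤ T.K t * T.M t := by
  have h1 : T.W 0 ≤ T.W t := T.W_mono ht
  have h2 : 0 ≤ T.W 0 := by
    have := (T.L_pos 0).le
    have h3 := T.hK0.le
    have h4 := T.hM0
    rw [W]
    positivity
  have h3 : 0 ≤ T.L t * (T.K t * T.M t) := by
    have : T.W t = T.L t * (T.K t * T.M t) := by rw [W]; ring
    linarith
  exact (mul_nonneg_iff_of_pos_left (T.L_pos t)).1 h3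

theorem Ksq_ge {t : ℝ} (ht : 0 ≤ t) : T.K 0 ^ 2 ≤ T.K t ^ 2 := by
  refine incr (f := fun t => T.K t ^ 2) (f' := fun t => 2 * T.w t * (T.K t * T.M t)) (t0 := 0)
    (fun t _ => ?_) (fun t h => ?_) le_rfl ht
  · have := (T.hKd t).pow 2
    refine this.congr_deriv ?_
    simp
    ring
  · have h1 := (T.w_pos t).le
    have h2 := T.KM_nonneg h
    positivity

theorem K_cont : Continuous T.K := continuous_iff_continuousAt.2 fun t => (T.hKd t).continuousAt

theorem K_pos {t : ℝ} (ht : 0 ≤ t) : 0 < T.K t := by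
  by_contra hcon
  push Not at hcon
  have h0 := T.hK0
  obtain ⟨s, hs, hs0⟩ := intermediate_value_Icc' ht T.K_cont.continuousOn
    (show (0 : ℝ) ∈ Icc (T.K t) (T.K 0) from ⟨hcon, h0.le⟩)
  have := T.Ksq_ge hs.1
  rw [hs0] at this
  have h3 : 0 < T.K 0 ^ 2 := by positivity
  linarith [show (0 : ℝ) ^ 2 = 0 by norm_num]

theorem M_nonneg {t : ℝ} (ht : 0 ≤ t) : 0 ≤ T.M t :=
  (mul_nonneg_iff_of_pos_left (T.K_pos ht)).1 (T.KM_nonneg ht)

theorem K_mono {x y : ℝ} (hx : 0 ≤ x) (hxy : x ≤ y) : T.K x ≤ T.K y := by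
  refine incr (t0 := 0) (fun t _ => T.hKd t) (fun t h => ?_) hx hxy
  exact mul_nonneg (T.w_pos t).le (T.M_nonneg h)

theorem W1_pos : 0 < T.W 1 := by
  have h1 : T.W 0 < T.W 1 := by
    refine incr_strict (t0 := 0) (fun t _ => T.W_deriv t) (fun t h => ?_) le_rfl zero_lt_one
    have h1 := T.w_pos t
    have h2 := T.L_pos t
    have h3 := T.suma_nonneg t
    have h4 := T.K_pos h
    positivity
  have h2 : 0 ≤ T.W 0 := by
    have := (T.L_pos 0).le
    have h3 := T.hK0.le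
    have h4 := T.hM0
    rw [W]
    positivity
  linarith

theorem KM_ge {t : ℝ} (ht : 1 ≤ t) : T.W 1 ≤ T.L t * (T.K t * T.M t) := by
  have h1 := T.W_mono ht
  have : T.W t = T.L t * (T.K t * T.M t) := by rw [W]; ring
  linarith

theorem Ksq_deriv (t : ℝ) : HasDerivAt (fun t => T.K t ^ 2) (2 * T.w t * (T.K t * T.M t)) t := by
  have := (T.hKd t).pow 2
  refine this.congr_deriv ?_
  simp
  ring

/-- If `∑ (a² + b²)` and `L` are eventually bounded we get a contradiction. -/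
theorem nondeg {T0 Q C : ℝ} (hQ : ∀ t, T0 ≤ t → ∑ i, (T.a i t ^ 2 + T.b i t ^ 2) ≤ Q)
    (hC : ∀ t, T0 ≤ t → T.L t ≤ C) : False := by
  set T1 := max T0 1 with hT1
  have hT0 : T0 ≤ T1 := le_max_left _ _
  have h1 : (1 : ℝ) ≤ T1 := le_max_right _ _
  have hCpos : 0 < C := lt_of_lt_of_le (T.L_pos T1) (hC T1 hT0)
  have hQpos : 0 ≤ Q := le_trans (by
    refine Finset.sum_nonneg fun i _ => ?_
    positivity) (hQ T1 hT0)
  set c := 2 * (1 / (1 + Q)) * (T.W 1 / C) with hc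
  have hW1 := T.W1_pos
  have hcpos : 0 < c := by positivity
  have hwge : ∀ t, T1 ≤ t → 1 / (1 + Q) ≤ T.w t := by
    intro t ht
    rw [T.hw]
    exact one_div_le_one_div_of_le (T.den_pos t) (by linarith [hQ t (hT0.trans ht)])
  have hgrow : ∀ t, T1 ≤ t → T.K T1 ^ 2 - c * T1 ≤ T.K t ^ 2 - c * t := by
    intro t ht
    refine incr (f := fun t => T.K t ^ 2 - c * t) (t0 := T1)
      (f' := fun t => 2 * T.w t * (T.K t * T.M t) - c) (fun t _ => ?_) (fun t h => ?_) le_rfl ht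
    · have := (T.Ksq_deriv t).sub ((hasDerivAt_id t).const_mul c)
      simp only [mul_one] at this
      exact this
    · have h2 := hwge t h
      have h3 : T.W 1 / C ≤ T.K t * T.M t := by
        rw [div_le_iff₀ hCpos]
        have h4 := T.KM_ge (h1.trans h)
        have h5 := hC t (hT0.trans h)
        have h6 := T.KM_nonneg (by linarith : (0 : ℝ) ≤ t)
        nlinarith
      have h7 : 0 ≤ T.W 1 / C := by positivity
      have h8 : (1 / (1 + Q)) * (T.W 1 / C) ≤ T.w t * (T.K t * T.M t) :=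
        mul_le_mul h2 h3 h7 (T.w_pos t).le
      rw [hc]
      linarith
  have hKb : ∀ t, T1 ≤ t → T.K t ≤ Fintype.card ι + Q := by
    intro t ht
    have h2 := T.hK3 t
    have h3 : - ∑ i, T.a i t ≤ ∑ i, (1 + (T.a i t ^ 2 + T.b i t ^ 2)) := by
      rw [← Finset.sum_neg_distrib]
      refine Finset.sum_le_sum fun i _ => ?_
      nlinarith [sq_nonneg (T.a i t + 1), sq_nonneg (T.b i t), sq_nonneg (T.a i t)]
    rw [Finset.sum_add_distrib] at h3
    simp only [Finset.sum_const, Finset.card_univ, nsmul_eq_mul, mul_one] at h3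
    have h4 := hQ t (hT0.trans ht)
    have h5 := T.K_pos (by linarith : (0 : ℝ) ≤ t)
    linarith
  -- choose a large time
  set B := (Fintype.card ι + Q : ℝ) with hB
  have hB0 : 0 ≤ B := by positivity
  set t := T1 + (B ^ 2 + 1) / c with ht
  have htge : T1 ≤ t := by
    have : 0 ≤ (B ^ 2 + 1) / c := by positivity
    linarith
  have h2 := hgrow t htge
  have h3 := hKb t htge
  have h4 := T.K_pos (by linarith : (0 : ℝ) ≤ t)
  have h5 : T.K t ^ 2 ≤ B ^ 2 := by
    apply pow_le_pow_left₀ h4.le h3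
  have h6 : c * t = c * T1 + (B ^ 2 + 1) := by
    rw [ht]
    field_simp
  have h7 : 0 ≤ T.K T1 ^ 2 := by positivity
  linarith

end TD

end Helper772Chen
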