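import Mathlib
import Pool.Agent.Helper772_Chen.Traj

set_option autoImplicit false

open Set Filter Topology

namespace Helper772Chen

namespace TD

variable {ι : Type} [Fintype ι] (T : TD ι)

theorem E1_deriv {t : ℝ} (ht : 0 ≤ t) :
    HasDerivAt (fun t => T.X t - Real.sin (T.θ t) / T.K t)
      (T.w t * T.M t / T.K t ^ 2 * Real.sin (T.θ t)) t := by
  have hK := T.K_pos ht
  have h := (T.hXd t).sub (((T.hθd t).sin).div (T.hKd t) hK.ne')
  refine h.congr_deriv ?_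
  field_simp
  ring

theorem E2_deriv {t : ℝ} (ht : 0 ≤ t) :
    HasDerivAt (fun t => T.Y t + Real.cos (T.θ t) / T.K t)
      (-(T.w t * T.M t / T.K t ^ 2 * Real.cos (T.θ t))) t := by
  have hK := T.K_pos ht
  have h := (T.hYd t).add (((T.hθd t).cos).div (T.hKd t) hK.ne')
  refine h.congr_deriv ?_
  field_simp
  ring

theorem invK_deriv {t : ℝ} (ht : 0 ≤ t) :
    HasDerivAt (fun t => 1 / T.K t) (-(T.w t * T.M t / T.K t ^ 2)) t := by
  have hK := T.K_pos ht
  have h := (hasDerivAt_const t (1 : ℝ)).div (T.hKd t) hK.ne'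
  refine h.congr_deriv ?_
  field_simp
  ring

theorem pq_le (i : ι) (t : ℝ) :
    |T.p i * Real.sin (T.θ t) + T.q i * Real.cos (T.θ t)| ≤ Real.sqrt (T.p i ^ 2 + T.q i ^ 2) := by
  apply Real.abs_le_sqrt
  nlinarith [sq_nonneg (T.p i * Real.cos (T.θ t) - T.q i * Real.sin (T.θ t)),
    Real.sin_sq_add_cos_sq (T.θ t)]

/-- `ℓ - (c + p sin θ + q cos θ)/K` is nondecreasing. -/
theorem m_mono (i : ι) {x y : ℝ} (hx : 0 ≤ x) (hxy : x ≤ y) :
    T.l i x - (Real.sqrt (T.p i ^ 2 + T.q i ^ 2) + (T.p i * Real.sin (T.θ x) +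
      T.q i * Real.cos (T.θ x))) / T.K x ≤
    T.l i y - (Real.sqrt (T.p i ^ 2 + T.q i ^ 2) + (T.p i * Real.sin (T.θ y) +
      T.q i * Real.cos (T.θ y))) / T.K y := by
  set c := Real.sqrt (T.p i ^ 2 + T.q i ^ 2) with hc
  have h := incr (t0 := 0)
    (f := fun t => 1 + T.p i * (T.X t - Real.sin (T.θ t) / T.K t)
      - T.q i * (T.Y t + Real.cos (T.θ t) / T.K t) - c * (1 / T.K t))
    (f' := fun t => T.p i * (T.w t * T.M t / T.K t ^ 2 * Real.sin (T.θ t))
      - T.q i * (-(T.w t * T.M t / T.K t ^ 2 * Real.cos (T.θ t)))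
      - c * (-(T.w t * T.M t / T.K t ^ 2)))
    (fun t ht => by
      have h1 := ((((T.E1_deriv ht).const_mul (T.p i)).const_add 1).sub
        ((T.E2_deriv ht).const_mul (T.q i))).sub ((T.invK_deriv ht).const_mul c)
      exact h1) (fun t ht => by
      have h1 : 0 ≤ T.w t * T.M t / T.K t ^ 2 := by
        have := (T.w_pos t).le
        have := T.M_nonneg ht
        positivity
      have h2 := (abs_le.1 (T.pq_le i t)).1
      rw [← hc] at h2
      have h3 : 0 ≤ (T.w t * T.M t / T.K t ^ 2) *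
        (c + (T.p i * Real.sin (T.θ t) + T.q i * Real.cos (T.θ t))) :=
        mul_nonneg h1 (by linarith)
      linarith) hx hxy
  have e : ∀ t, 0 ≤ t → (1 + T.p i * (T.X t - Real.sin (T.θ t) / T.K t)
      - T.q i * (T.Y t + Real.cos (T.θ t) / T.K t) - c * (1 / T.K t)) =
      T.l i t - (c + (T.p i * Real.sin (T.θ t) + T.q i * Real.cos (T.θ t))) / T.K t := by
    intro t ht
    have hK := T.K_pos ht
    rw [T.hl]
    field_simp
    ring
  rw [e x hx, e y (hx.trans hxy)] at h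
  exact h

/-- `ℓ + (c - p sin θ - q cos θ)/K` is nonincreasing. -/
theorem m_anti (i : ι) {x y : ℝ} (hx : 0 ≤ x) (hxy : x ≤ y) :
    T.l i y + (Real.sqrt (T.p i ^ 2 + T.q i ^ 2) - (T.p i * Real.sin (T.θ y) +
      T.q i * Real.cos (T.θ y))) / T.K y ≤
    T.l i x + (Real.sqrt (T.p i ^ 2 + T.q i ^ 2) - (T.p i * Real.sin (T.θ x) +
      T.q i * Real.cos (T.θ x))) / T.K x := by
  set c := Real.sqrt (T.p i ^ 2 + T.q i ^ 2) with hc
  have h := incr (t0 := 0)
    (f := fun t => -(1 + T.p i * (T.X t - Real.sin (T.θ t) / T.K t)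
      - T.q i * (T.Y t + Real.cos (T.θ t) / T.K t) + c * (1 / T.K t)))
    (f' := fun t => -(T.p i * (T.w t * T.M t / T.K t ^ 2 * Real.sin (T.θ t))
      - T.q i * (-(T.w t * T.M t / T.K t ^ 2 * Real.cos (T.θ t)))
      + c * (-(T.w t * T.M t / T.K t ^ 2))))
    (fun t ht => by
      have h1 := (((((T.E1_deriv ht).const_mul (T.p i)).const_add 1).sub
        ((T.E2_deriv ht).const_mul (T.q i))).add ((T.invK_deriv ht).const_mul c)).neg
      exact h1) (fun t ht => by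
      have h1 : 0 ≤ T.w t * T.M t / T.K t ^ 2 := by
        have := (T.w_pos t).le
        have := T.M_nonneg ht
        positivity
      have h2 := (abs_le.1 (T.pq_le i t)).2
      rw [← hc] at h2
      have h3 : 0 ≤ (T.w t * T.M t / T.K t ^ 2) *
        (c - (T.p i * Real.sin (T.θ t) + T.q i * Real.cos (T.θ t))) :=
        mul_nonneg h1 (by linarith)
      linarith) hx hxy
  have e : ∀ t, 0 ≤ t → -(1 + T.p i * (T.X t - Real.sin (T.θ t) / T.K t)
      - T.q i * (T.Y t + Real.cos (T.θ t) / T.K t) + c * (1 / T.K t)) =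
      -(T.l i t + (c - (T.p i * Real.sin (T.θ t) + T.q i * Real.cos (T.θ t))) / T.K t) := by
    intro t ht
    have hK := T.K_pos ht
    rw [T.hl]
    field_simp
    ring
  rw [e x hx, e y (hx.trans hxy)] at h
  linarith

theorem l_bdd (i : ι) : ∃ C, ∀ t, 0 ≤ t → T.l i t ≤ C := by
  refine ⟨T.l i 0 + (Real.sqrt (T.p i ^ 2 + T.q i ^ 2) - (T.p i * Real.sin (T.θ 0) +
      T.q i * Real.cos (T.θ 0))) / T.K 0, fun t ht => ?_⟩
  refine le_trans ?_ (T.m_anti i le_rfl ht)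
  have h2 := (abs_le.1 (T.pq_le i t)).2
  have hK := T.K_pos ht
  have : 0 ≤ (Real.sqrt (T.p i ^ 2 + T.q i ^ 2) - (T.p i * Real.sin (T.θ t) +
      T.q i * Real.cos (T.θ t))) / T.K t := div_nonneg (by linarith) hK.le
  linarith

theorem L_bdd : ∃ C, ∀ t, 0 ≤ t → T.L t ≤ C := by
  choose C hC using T.l_bdd
  refine ⟨∏ i, C i, fun t ht => ?_⟩
  exact Finset.prod_le_prod (fun i _ => (T.hlpos i t).le) (fun i _ => hC i t ht)

theorem ab_eq (i : ι) (t : ℝ) :
    (T.a i t ^ 2 + T.b i t ^ 2) * T.l i t ^ 2 = T.p i ^ 2 + T.q i ^ 2 := by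
  have h1 := T.hal i t
  have h2 := T.hbl i t
  calc (T.a i t ^ 2 + T.b i t ^ 2) * T.l i t ^ 2 = (T.a i t * T.l i t) ^ 2 +
        (T.b i t * T.l i t) ^ 2 := by ring
    _ = (T.p i ^ 2 + T.q i ^ 2) * (Real.sin (T.θ t) ^ 2 + Real.cos (T.θ t) ^ 2) := by
        rw [h1, h2]; ring
    _ = _ := by rw [Real.sin_sq_add_cos_sq]; ring

/-- If all `ℓ_i` are eventually bounded below, contradiction. -/
theorem low_bd (h : ∀ i, ∃ ε, 0 < ε ∧ ∃ T0, 0 ≤ T0 ∧ ∀ t, T0 ≤ t → ε ≤ T.l i t) : False := by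
  choose ε hε T0 hT0 hl using h
  obtain ⟨C, hC⟩ := T.L_bdd
  obtain ⟨S, hS⟩ : ∃ S : ℝ, 0 ≤ S ∧ ∀ i, T0 i ≤ S := by
    refine ⟨∑ i, T0 i, Finset.sum_nonneg fun i _ => hT0 i, fun i => ?_⟩
    exact Finset.single_le_sum (f := T0) (fun j _ => hT0 j) (Finset.mem_univ i)
  refine T.nondeg (T0 := S) (Q := ∑ i, (T.p i ^ 2 + T.q i ^ 2) / ε i ^ 2) (C := C) ?_ ?_
  · intro t ht
    refine Finset.sum_le_sum fun i _ => ?_
    have h1 := hl i t ((hS.2 i).trans ht)
    have h2 := hε i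
    rw [le_div_iff₀ (by positivity), ← T.ab_eq i t]
    refine mul_le_mul_of_nonneg_left ?_ (by positivity)
    exact pow_le_pow_left₀ h2.le h1 2
  · exact fun t ht => hC t (hS.1.trans ht)

/-- An angle at which `p sin φ + q cos φ` is minimal. -/
theorem exists_angle (p q : ℝ) : ∃ φ, 0 ≤ φ ∧
    p * Real.sin φ + q * Real.cos φ = -Real.sqrt (p ^ 2 + q ^ 2) := by
  set z : ℂ := ⟨-q, -p⟩ with hz
  have hn : ‖z‖ = Real.sqrt (p ^ 2 + q ^ 2) := by
    rw [Complex.norm_def, Complex.normSq_apply]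
    congr 1
    simp [hz]
    ring
  have hc : ‖z‖ * Real.cos z.arg = -q := Complex.norm_mul_cos_arg z
  have hs : ‖z‖ * Real.sin z.arg = -p := Complex.norm_mul_sin_arg z
  refine ⟨z.arg + 2 * Real.pi, ?_, ?_⟩
  · have := Complex.neg_pi_lt_arg z
    have := Real.pi_pos
    linarith
  · rw [Real.sin_add_two_pi, Real.cos_add_two_pi, ← hn]
    have hn2 : ‖z‖ ^ 2 = p ^ 2 + q ^ 2 := by
      rw [hn, Real.sq_sqrt (by positivity)]
    rcases eq_or_ne ‖z‖ 0 with h0 | h0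
    · have hp : p = 0 := by
        rw [h0] at hn2
        nlinarith [sq_nonneg p, sq_nonneg q]
      have hq : q = 0 := by
        rw [h0] at hn2
        nlinarith [sq_nonneg p, sq_nonneg q]
      rw [h0, hp, hq]
      ring
    · have h1 : ‖z‖ * (p * Real.sin z.arg + q * Real.cos z.arg) = ‖z‖ * (-‖z‖) := by
        calc ‖z‖ * (p * Real.sin z.arg + q * Real.cos z.arg)
            = p * (‖z‖ * Real.sin z.arg) + q * (‖z‖ * Real.cos z.arg) := by ring
          _ = -(p ^ 2 + q ^ 2) := by rw [hs, hc]; ring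
          _ = ‖z‖ * (-‖z‖) := by rw [← hn2]; ring
      exact mul_left_cancel₀ h0 h1

/-- Case II: `θ` is unbounded. -/
theorem caseTwo (hθ : ∀ B, ∃ t, 0 ≤ t ∧ B ≤ T.θ t) : False := by
  have hc : Continuous T.θ := continuous_iff_continuousAt.2 fun t => (T.hθd t).continuousAt
  refine T.low_bd fun i => ?_
  obtain ⟨φ, hφ0, hφ⟩ := exists_angle (T.p i) (T.q i)
  obtain ⟨t1, ht1, hB⟩ := hθ φ
  obtain ⟨t0, ht0, he⟩ := intermediate_value_Icc ht1 hc.continuousOn
    (show φ ∈ Icc (T.θ 0) (T.θ t1) from ⟨by rw [T.hθ0]; exact hφ0, hB⟩)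
  refine ⟨T.l i t0, T.hlpos i t0, t0, ht0.1, fun t ht => ?_⟩
  have h1 := T.m_mono i ht0.1 ht
  rw [he, hφ] at h1
  have h2 := (abs_le.1 (T.pq_le i t)).1
  have hK := T.K_pos (ht0.1.trans ht)
  have h3 : 0 ≤ (Real.sqrt (T.p i ^ 2 + T.q i ^ 2) + (T.p i * Real.sin (T.θ t) +
      T.q i * Real.cos (T.θ t))) / T.K t := div_nonneg (by linarith) hK.le
  have h4 : (Real.sqrt (T.p i ^ 2 + T.q i ^ 2) + -Real.sqrt (T.p i ^ 2 + T.q i ^ 2)) / T.K t0
    = 0 := by simp
  linarith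

end TD

end Helper772Chen
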