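import Mathlib
import Pool.Agent.Helper772_Chen.CaseTwo

set_option autoImplicit false

open Set Filter Topology

namespace Helper772Chen

/-- Limits of the trajectory data in case `θ` is bounded. -/
structure Lm {ι : Type} [Fintype ι] (T : TD ι) where
  (θp sp Xp Yp : ℝ)
  hθ : Tendsto T.θ atTop (𝓝 θp)
  hs : Tendsto T.s atTop (𝓝 sp)
  hX : Tendsto T.X atTop (𝓝 Xp)
  hY : Tendsto T.Y atTop (𝓝 Yp)

namespace TD

variable {ι : Type} [Fintype ι] (T : TD ι)

theorem θ_mono {x y : ℝ} (hx : 0 ≤ x) (hxy : x ≤ y) : T.θ x ≤ T.θ y :=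
  incr (t0 := 0) (fun t _ => T.hθd t)
    (fun t ht => mul_nonneg (T.w_pos t).le (T.K_pos ht).le) hx hxy

theorem s_mono {x y : ℝ} (hxy : x ≤ y) : T.s x ≤ T.s y :=
  incr (t0 := x) (fun t _ => T.hsd t) (fun t _ => (T.w_pos t).le) le_rfl hxy

theorem s_strict {x y : ℝ} (hxy : x < y) : T.s x < T.s y :=
  incr_strict (t0 := x) (fun t _ => T.hsd t) (fun t _ => T.w_pos t) le_rfl hxy

theorem exists_Lm {B : ℝ} (hB : ∀ t, 0 ≤ t → T.θ t ≤ B) : Nonempty (Lm T) := by
  have hK0 := T.hK0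
  obtain ⟨θp, hθ, -⟩ := exists_lim (f := T.θ) (t0 := 0) (fun x y => T.θ_mono) hB
  have hsb : ∀ t, 0 ≤ t → T.s t ≤ B / T.K 0 := by
    intro t ht
    have h := incr (t0 := 0) (f := fun t => T.θ t - T.K 0 * T.s t)
      (f' := fun t => T.w t * T.K t - T.K 0 * T.w t)
      (fun t _ => (T.hθd t).sub ((T.hsd t).const_mul _))
      (fun t ht => by
        have h1 := T.K_mono le_rfl ht
        have h2 := T.w_pos t
        nlinarith) le_rfl ht
    simp only [T.hθ0, T.hs0] at h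
    rw [le_div_iff₀ hK0]
    linarith [hB t ht]
  obtain ⟨sp, hs, -⟩ := exists_lim (f := T.s) (t0 := 0) (fun x y _ => T.s_mono) hsb
  have key : ∀ (f g : ℝ → ℝ), f 0 = 0 → (∀ t, HasDerivAt f (T.w t * g t) t) → (∀ t, g t ≤ 1) →
      (∀ t, -1 ≤ g t) → ∃ l, Tendsto f atTop (𝓝 l) := by
    intro f g hf0 hf hg1 hg2
    have h1 : ∀ t, 0 ≤ t → f t ≤ T.s t := by
      intro t ht
      have h := incr (t0 := 0) (f := fun t => T.s t - f t)
        (f' := fun t => T.w t - T.w t * g t) (fun t _ => (T.hsd t).sub (hf t))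
        (fun t _ => by have := T.w_pos t; nlinarith [hg1 t]) le_rfl ht
      simp only [T.hs0, hf0] at h
      linarith
    obtain ⟨l, hl, -⟩ := exists_lim (f := fun t => f t + T.s t) (t0 := 0)
      (B := 2 * (B / T.K 0)) (fun x y hx hxy => by
        refine incr (t0 := 0) (f := fun t => f t + T.s t)
          (f' := fun t => T.w t * g t + T.w t) (fun t _ => (hf t).add (T.hsd t))
          (fun t _ => by have := T.w_pos t; nlinarith [hg2 t]) hx hxy)
      (fun t ht => by linarith [h1 t ht, hsb t ht])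
    refine ⟨l - sp, ?_⟩
    have := hl.sub hs
    simpa using this
  obtain ⟨Xp, hX⟩ := key T.X (fun t => Real.cos (T.θ t)) T.hX0 T.hXd
    (fun t => Real.cos_le_one _) (fun t => Real.neg_one_le_cos _)
  obtain ⟨Yp, hY⟩ := key T.Y (fun t => Real.sin (T.θ t)) T.hY0 T.hYd
    (fun t => Real.sin_le_one _) (fun t => Real.neg_one_le_sin _)
  exact ⟨⟨θp, sp, Xp, Yp, hθ, hs, hX, hY⟩⟩

end TD

namespace Lm

variable {ι : Type} [Fintype ι] {T : TD ι} (Z : Lm T)

theorem θ_le {t : ℝ} (ht : 0 ≤ t) : T.θ t ≤ Z.θp :=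
  le_lim (t0 := t) (fun _ hy => T.θ_mono ht hy) Z.hθ

theorem s_lt (t : ℝ) : T.s t < Z.sp :=
  lt_of_lt_of_le (T.s_strict (show t < t + 1 by linarith))
    (le_lim (t0 := t + 1) (fun _ hy => T.s_mono hy) Z.hs)

/-- remaining length -/
noncomputable def tt (t : ℝ) : ℝ := Z.sp - T.s t

theorem tt_pos (t : ℝ) : 0 < Z.tt t := sub_pos.2 (Z.s_lt t)

theorem tt_deriv (t : ℝ) : HasDerivAt Z.tt (-T.w t) t := by
  have := (T.hsd t).const_sub Z.sp
  exact this

theorem tt_tendsto : Tendsto Z.tt atTop (𝓝 0) := by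
  have h := Z.hs.const_sub Z.sp
  rw [sub_self] at h
  exact h

/-- `Xp - X`. -/
noncomputable def x (t : ℝ) : ℝ := Z.Xp - T.X t
/-- `Yp - Y`. -/
noncomputable def y (t : ℝ) : ℝ := Z.Yp - T.Y t
/-- radial component -/
noncomputable def α (t : ℝ) : ℝ := Z.x t * Real.cos (T.θ t) + Z.y t * Real.sin (T.θ t)
/-- normal component -/
noncomputable def β (t : ℝ) : ℝ := Z.y t * Real.cos (T.θ t) - Z.x t * Real.sin (T.θ t)

theorem rem {t φ c : ℝ} (hc : ∀ τ, t ≤ τ → c ≤ Real.cos (T.θ τ - φ)) :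
    c * Z.tt t ≤ Z.x t * Real.cos φ + Z.y t * Real.sin φ := by
  have h := le_lim (t0 := t)
    (f := fun τ => T.X τ * Real.cos φ + T.Y τ * Real.sin φ - c * T.s τ)
    (l := Z.Xp * Real.cos φ + Z.Yp * Real.sin φ - c * Z.sp)
    (fun y hy => by
      refine incr (t0 := t)
        (f := fun τ => T.X τ * Real.cos φ + T.Y τ * Real.sin φ - c * T.s τ)
        (f' := fun τ => T.w τ * Real.cos (T.θ τ) * Real.cos φ
          + T.w τ * Real.sin (T.θ τ) * Real.sin φ - c * T.w τ)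
        (fun τ _ => ?_) (fun τ hτ => ?_) le_rfl hy
      · exact (((T.hXd τ).mul_const _).add ((T.hYd τ).mul_const _)).sub ((T.hsd τ).const_mul c)
      · have h1 := hc τ hτ
        rw [Real.cos_sub] at h1
        have h2 := T.w_pos τ
        nlinarith)
    (((Z.hX.mul_const _).add (Z.hY.mul_const _)).sub (Z.hs.const_mul c))
  simp only [x, y, tt]
  linarith

theorem abs_x_le (t : ℝ) : |Z.x t| ≤ Z.tt t := by
  have h1 := Z.rem (t := t) (φ := 0) (c := -1) (fun τ _ => Real.neg_one_le_cos _)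
  have h2 := Z.rem (t := t) (φ := Real.pi) (c := -1) (fun τ _ => Real.neg_one_le_cos _)
  simp only [Real.cos_zero, Real.sin_zero, Real.cos_pi, Real.sin_pi] at h1 h2
  rw [abs_le]
  constructor <;> linarith

theorem abs_y_le (t : ℝ) : |Z.y t| ≤ Z.tt t := by
  have h1 := Z.rem (t := t) (φ := Real.pi / 2) (c := -1) (fun τ _ => Real.neg_one_le_cos _)
  have h2 := Z.rem (t := t) (φ := -(Real.pi / 2)) (c := -1) (fun τ _ => Real.neg_one_le_cos _)
  simp only [Real.cos_neg, Real.sin_neg, Real.cos_pi_div_two, Real.sin_pi_div_two] at h1 h2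
  rw [abs_le]
  constructor <;> linarith

theorem bounds {t η : ℝ} (ht : 0 ≤ t) (hη : η ≤ 1) (hδ : Z.θp - T.θ t ≤ η) :
    Z.tt t / 2 ≤ Z.α t ∧ Z.α t ≤ Z.tt t ∧ 0 ≤ Z.β t ∧ Z.β t ≤ η * Z.tt t := by
  have hd : ∀ τ, t ≤ τ → 0 ≤ T.θ τ - T.θ t ∧ T.θ τ - T.θ t ≤ η := by
    intro τ hτ
    constructor
    · linarith [T.θ_mono ht hτ]
    · linarith [Z.θ_le (ht.trans hτ)]
  have hpi := Real.pi_gt_three
  refine ⟨?_, ?_, ?_, ?_⟩
  · have := Z.rem (t := t) (φ := T.θ t) (c := 1 / 2) (fun τ hτ => by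
      obtain ⟨h1, h2⟩ := hd τ hτ
      have h3 := Real.one_sub_sq_div_two_le_cos (x := T.θ τ - T.θ t)
      nlinarith)
    rw [α]
    linarith
  · have := Z.rem (t := t) (φ := T.θ t + Real.pi) (c := -1) (fun τ _ => Real.neg_one_le_cos _)
    rw [Real.cos_add_pi, Real.sin_add_pi] at this
    rw [α]
    linarith
  · have := Z.rem (t := t) (φ := T.θ t + Real.pi / 2) (c := 0) (fun τ hτ => by
      obtain ⟨h1, h2⟩ := hd τ hτ
      have e : Real.cos (T.θ τ - (T.θ t + Real.pi / 2)) = Real.sin (T.θ τ - T.θ t) := by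
        rw [← sub_sub, Real.cos_sub_pi_div_two]
      rw [e]
      exact Real.sin_nonneg_of_nonneg_of_le_pi h1 (by linarith))
    rw [Real.cos_add_pi_div_two, Real.sin_add_pi_div_two] at this
    rw [β]
    linarith
  · have := Z.rem (t := t) (φ := T.θ t - Real.pi / 2) (c := -η) (fun τ hτ => by
      obtain ⟨h1, h2⟩ := hd τ hτ
      have e : Real.cos (T.θ τ - (T.θ t - Real.pi / 2)) = -Real.sin (T.θ τ - T.θ t) := by
        rw [← sub_add, Real.cos_add_pi_div_two]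
      rw [e]
      have := Real.sin_le h1
      linarith)
    rw [Real.cos_sub_pi_div_two, Real.sin_sub_pi_div_two] at this
    rw [β]
    linarith

/-- limit of `ℓ_i` -/
noncomputable def lp (i : ι) : ℝ := 1 + T.p i * Z.Xp - T.q i * Z.Yp

theorem l_eq (i : ι) (t : ℝ) : T.l i t = Z.lp i - T.p i * Z.x t + T.q i * Z.y t := by
  rw [T.hl, lp, x, y]
  ring

theorem l_tendsto (i : ι) : Tendsto (T.l i) atTop (𝓝 (Z.lp i)) := by
  have h : T.l i = fun t => 1 + T.p i * T.X t - T.q i * T.Y t := funext fun t => T.hl i t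
  rw [h]
  exact ((Z.hX.const_mul _).const_add 1).sub (Z.hY.const_mul _)

theorem lp_nonneg (i : ι) : 0 ≤ Z.lp i :=
  ge_of_tendsto' (Z.l_tendsto i) fun t => (T.hlpos i t).le

theorem l_low {i : ι} (hi : Z.lp i ≠ 0) :
    ∃ T0, 0 ≤ T0 ∧ ∀ t, T0 ≤ t → Z.lp i / 2 ≤ T.l i t := by
  have h0 : 0 < Z.lp i := lt_of_le_of_ne (Z.lp_nonneg i) (Ne.symm hi)
  have h1 : ∀ᶠ t in atTop, Z.lp i / 2 ≤ T.l i t := by
    have := (Z.l_tendsto i).eventually (lt_mem_nhds (show Z.lp i / 2 < Z.lp i by linarith))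
    filter_upwards [this] with t ht using ht.le
  obtain ⟨S, hS⟩ := eventually_atTop.1 h1
  exact ⟨max S 0, le_max_right _ _, fun t ht => hS t ((le_max_left _ _).trans ht)⟩

theorem exists_zero : ∃ i, Z.lp i = 0 := by
  by_contra hcon
  push Not at hcon
  refine T.low_bd fun i => ?_
  obtain ⟨T0, h0, h1⟩ := Z.l_low (hcon i)
  have h2 : 0 < Z.lp i := lt_of_le_of_ne (Z.lp_nonneg i) (Ne.symm (hcon i))
  exact ⟨Z.lp i / 2, by linarith, T0, h0, h1⟩

theorem L_le : ∃ C, 0 < C ∧ ∀ t, 0 ≤ t → T.L t ≤ C * Z.tt t := by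
  classical
  obtain ⟨i, hi⟩ := Z.exists_zero
  choose B hB using T.l_bdd
  have hBn : ∀ j, 0 ≤ B j := fun j => (T.hlpos j 0).le.trans (hB j 0 le_rfl)
  refine ⟨(|T.p i| + |T.q i|) * (∏ j ∈ Finset.univ.erase i, B j) + 1, ?_, fun t ht => ?_⟩
  · have : 0 ≤ ∏ j ∈ Finset.univ.erase i, B j := Finset.prod_nonneg fun j _ => hBn j
    positivity
  · have h1 : T.L t = T.l i t * ∏ j ∈ Finset.univ.erase i, T.l j t :=
      (Finset.mul_prod_erase Finset.univ (fun j => T.l j t) (Finset.mem_univ i)).symm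
    have h2 : ∏ j ∈ Finset.univ.erase i, T.l j t ≤ ∏ j ∈ Finset.univ.erase i, B j :=
      Finset.prod_le_prod (fun j _ => (T.hlpos j t).le) (fun j _ => hB j t ht)
    have h3 : T.l i t ≤ (|T.p i| + |T.q i|) * Z.tt t := by
      rw [Z.l_eq, hi]
      have h4 : -(T.p i * Z.x t) ≤ |T.p i| * Z.tt t := by
        refine (neg_le_abs _).trans ?_
        rw [abs_mul]
        exact mul_le_mul_of_nonneg_left (Z.abs_x_le t) (abs_nonneg _)
      have h5 : T.q i * Z.y t ≤ |T.q i| * Z.tt t := by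
        refine (le_abs_self _).trans ?_
        rw [abs_mul]
        exact mul_le_mul_of_nonneg_left (Z.abs_y_le t) (abs_nonneg _)
      linarith
    have h6 : 0 ≤ ∏ j ∈ Finset.univ.erase i, T.l j t :=
      Finset.prod_nonneg fun j _ => (T.hlpos j t).le
    have h7 := Z.tt_pos t
    rw [h1]
    calc T.l i t * ∏ j ∈ Finset.univ.erase i, T.l j t
        ≤ ((|T.p i| + |T.q i|) * Z.tt t) * ∏ j ∈ Finset.univ.erase i, B j :=
          mul_le_mul h3 h2 h6 (by positivity)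
      _ ≤ _ := by nlinarith

theorem log_tt_deriv (t : ℝ) : HasDerivAt (fun t => Real.log (Z.tt t)) (-T.w t / Z.tt t) t :=
  (Z.tt_deriv t).log (Z.tt_pos t).ne'

theorem log_tt_tendsto : Tendsto (fun t => Real.log (Z.tt t)) atTop atBot := by
  refine Real.tendsto_log_nhdsGT_zero.comp ?_
  rw [tendsto_nhdsWithin_iff]
  exact ⟨Z.tt_tendsto, Eventually.of_forall fun t => Z.tt_pos t⟩

include Z in
theorem K_unbdd (B : ℝ) : ∃ T0, 0 ≤ T0 ∧ ∀ t, T0 ≤ t → B ≤ T.K t := by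
  obtain ⟨C, hC0, hC⟩ := Z.L_le
  have hW := T.W1_pos
  set c := 2 * T.W 1 / C with hc
  have hc0 : 0 < c := by positivity
  have h1 : ∀ t, 1 ≤ t → T.K 1 ^ 2 + c * Real.log (Z.tt 1) ≤ T.K t ^ 2 + c * Real.log (Z.tt t) := by
    intro t ht
    refine incr (t0 := 1) (f := fun t => T.K t ^ 2 + c * Real.log (Z.tt t))
      (f' := fun t => 2 * T.w t * (T.K t * T.M t) + c * (-T.w t / Z.tt t))
      (fun t _ => (T.Ksq_deriv t).add ((Z.log_tt_deriv t).const_mul c)) (fun t h => ?_) le_rfl ht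
    have h2 := T.KM_ge h
    have h3 := hC t (by linarith)
    have h4 := Z.tt_pos t
    have h5 := T.w_pos t
    have h6 := T.KM_nonneg (show (0 : ℝ) ≤ t by linarith)
    have h7 : T.W 1 / (C * Z.tt t) ≤ T.K t * T.M t := by
      rw [div_le_iff₀ (by positivity)]
      nlinarith
    have h8 : 2 * T.w t * (T.W 1 / (C * Z.tt t)) + c * (-T.w t / Z.tt t) = 0 := by
      rw [hc]
      field_simp
      ring
    have h9 : 2 * T.w t * (T.W 1 / (C * Z.tt t)) ≤ 2 * T.w t * (T.K t * T.M t) :=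
      mul_le_mul_of_nonneg_left h7 (by positivity)
    linarith
  have h2 := Z.log_tt_tendsto.eventually_le_atBot
    ((T.K 1 ^ 2 + c * Real.log (Z.tt 1) - B ^ 2) / c)
  obtain ⟨S, hS⟩ := eventually_atTop.1 h2
  refine ⟨max S 1, by positivity, fun t ht => ?_⟩
  have h3 := hS t ((le_max_left _ _).trans ht)
  have h4 : (1 : ℝ) ≤ t := (le_max_right _ _).trans ht
  have h5 := h1 t h4
  rw [le_div_iff₀ hc0] at h3
  have h6 : B ^ 2 ≤ T.K t ^ 2 := by nlinarith
  exact le_of_sq_le_sq h6 (T.K_pos (by linarith)).le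

end Lm

end Helper772Chen
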