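import Mathlib
import Pool.Agent.Helper772_Chen.CaseOne

set_option autoImplicit false

open Set Filter Topology

namespace Helper772Chen

namespace Lm

variable {ι : Type} [Fintype ι] {T : TD ι} (Z : Lm T)

open scoped Classical in
/-- indices with vanishing limit -/
noncomputable def I : Finset ι := Finset.univ.filter fun i => Z.lp i = 0

theorem mem_I {i : ι} : i ∈ Z.I ↔ Z.lp i = 0 := by
  classical
  simp [I]

/-- the transverse numerators -/
noncomputable def nn (i : ι) (t : ℝ) : ℝ := T.p i * Z.y t + T.q i * Z.x t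

/-- the sum `S` -/
noncomputable def S (t : ℝ) : ℝ := ∑ i ∈ Z.I, Z.nn i t / T.l i t

theorem x_deriv (t : ℝ) : HasDerivAt Z.x (-(T.w t * Real.cos (T.θ t))) t :=
  (T.hXd t).const_sub Z.Xp

theorem y_deriv (t : ℝ) : HasDerivAt Z.y (-(T.w t * Real.sin (T.θ t))) t :=
  (T.hYd t).const_sub Z.Yp

theorem nn_deriv (i : ι) (t : ℝ) : HasDerivAt (Z.nn i)
    (-(T.w t * (T.p i * Real.sin (T.θ t) + T.q i * Real.cos (T.θ t)))) t := by
  have := ((Z.y_deriv t).const_mul (T.p i)).add ((Z.x_deriv t).const_mul (T.q i))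
  refine this.congr_deriv ?_
  ring

theorem S_deriv (t : ℝ) : HasDerivAt Z.S
    (∑ i ∈ Z.I, -(T.w t * Z.β t * (T.p i ^ 2 + T.q i ^ 2) / T.l i t ^ 2)) t := by
  have h1 : ∀ i ∈ Z.I, HasDerivAt (fun t => Z.nn i t / T.l i t)
      (-(T.w t * Z.β t * (T.p i ^ 2 + T.q i ^ 2) / T.l i t ^ 2)) t := by
    intro i hi
    have hl := T.hlpos i t
    have h := (Z.nn_deriv i t).div (T.hld i t) hl.ne'
    refine h.congr_deriv ?_
    have e1 := T.hbl i t
    have e2 := Z.l_eq i t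
    rw [Z.mem_I.1 hi] at e2
    have e3 : T.w t * T.b i t * T.l i t =
        T.w t * (T.p i * Real.cos (T.θ t) - T.q i * Real.sin (T.θ t)) := by
      rw [← e1]; ring
    rw [e3, ← neg_div]
    congr 1
    rw [nn, β, e2]
    ring
  have h2 := HasDerivAt.fun_sum h1
  exact h2

theorem sumI (t : ℝ) (hr : 0 < Z.x t ^ 2 + Z.y t ^ 2) :
    ∑ i ∈ Z.I, T.a i t = (Z.β t * Z.I.card + Z.α t * Z.S t) / (Z.x t ^ 2 + Z.y t ^ 2) := by
  rw [eq_div_iff hr.ne', S, Finset.mul_sum, Finset.sum_mul]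
  have : Z.β t * (Z.I.card : ℝ) = ∑ i ∈ Z.I, Z.β t := by
    rw [Finset.sum_const, nsmul_eq_mul]; ring
  rw [this, ← Finset.sum_add_distrib]
  refine Finset.sum_congr rfl fun i hi => ?_
  have hl := T.hlpos i t
  have e1 := T.hal i t
  have e2 := Z.l_eq i t
  rw [Z.mem_I.1 hi] at e2
  have e3 : Z.β t + Z.α t * (Z.nn i t / T.l i t) =
    (Z.β t * T.l i t + Z.α t * Z.nn i t) / T.l i t := by
    field_simp
  rw [e3, eq_div_iff hl.ne']
  calc T.a i t * (Z.x t ^ 2 + Z.y t ^ 2) * T.l i t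
      = (T.a i t * T.l i t) * (Z.x t ^ 2 + Z.y t ^ 2) := by ring
    _ = (T.q i * Real.cos (T.θ t) + T.p i * Real.sin (T.θ t)) * (Z.x t ^ 2 + Z.y t ^ 2) := by
        rw [e1]
    _ = _ := by rw [nn, α, β, e2]; ring

theorem rest_bdd : ∃ C T0, 0 ≤ C ∧ 0 ≤ T0 ∧ ∀ t, T0 ≤ t →
    |∑ i, T.a i t - ∑ i ∈ Z.I, T.a i t| ≤ C := by
  classical
  have h1 : ∀ i, ∃ C T0, 0 ≤ C ∧ 0 ≤ T0 ∧ ∀ t, T0 ≤ t → i ∉ Z.I → |T.a i t| ≤ C := by
    intro i
    by_cases hi : i ∈ Z.I
    · exact ⟨0, 0, le_rfl, le_rfl, fun t _ h => absurd hi h⟩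
    · have h0 : Z.lp i ≠ 0 := fun h => hi (Z.mem_I.2 h)
      obtain ⟨T0, hT0, hl⟩ := Z.l_low h0
      have hlp : 0 < Z.lp i := lt_of_le_of_ne (Z.lp_nonneg i) (Ne.symm h0)
      refine ⟨(|T.q i| + |T.p i|) / (Z.lp i / 2), T0, by positivity, hT0, fun t ht _ => ?_⟩
      rw [le_div_iff₀ (by positivity)]
      have h2 := hl t ht
      have h3 : |T.a i t| * T.l i t ≤ |T.q i| + |T.p i| := by
        have h4 : |T.a i t| * T.l i t = |T.a i t * T.l i t| := by
          rw [abs_mul, abs_of_pos (T.hlpos i t)]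
        rw [h4, T.hal]
        refine (abs_add_le _ _).trans ?_
        rw [abs_mul, abs_mul]
        have h5 := Real.abs_cos_le_one (T.θ t)
        have h6 := Real.abs_sin_le_one (T.θ t)
        have h7 := abs_nonneg (T.q i)
        have h8 := abs_nonneg (T.p i)
        nlinarith
      have h9 := mul_le_mul_of_nonneg_left h2 (abs_nonneg (T.a i t))
      linarith
  choose C T0 hC hT0 h using h1
  refine ⟨∑ i, C i, ∑ i, T0 i, Finset.sum_nonneg fun i _ => hC i,
    Finset.sum_nonneg fun i _ => hT0 i, fun t ht => ?_⟩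
  have h2 : ∑ i, T.a i t - ∑ i ∈ Z.I, T.a i t = ∑ i ∈ Z.Iᶜ, T.a i t := by
    rw [← Finset.sum_add_sum_compl Z.I]
    ring
  rw [h2]
  refine (Finset.abs_sum_le_sum_abs _ _).trans ?_
  refine (Finset.sum_le_sum (f := fun i => |T.a i t|) (g := C) (s := Z.Iᶜ) fun i hi => ?_).trans ?_
  · refine h i t ?_ (Finset.mem_compl.1 hi)
    exact (Finset.single_le_sum (f := T0) (fun j _ => hT0 j) (Finset.mem_univ i)).trans ht
  · exact Finset.sum_le_sum_of_subset_of_nonneg (Finset.subset_univ _) fun i _ _ => hC i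

theorem ev_delta {η : ℝ} (hη : 0 < η) : ∃ T0, 0 ≤ T0 ∧ ∀ t, T0 ≤ t → Z.θp - T.θ t ≤ η := by
  have := Z.hθ.eventually (lt_mem_nhds (show Z.θp - η < Z.θp by linarith))
  obtain ⟨S, hS⟩ := eventually_atTop.1 this
  refine ⟨max S 0, le_max_right _ _, fun t ht => ?_⟩
  linarith [hS t ((le_max_left _ _).trans ht)]

theorem rr {t : ℝ} (hα : Z.tt t / 2 ≤ Z.α t) (hα2 : Z.α t ≤ Z.tt t) (hβ : 0 ≤ Z.β t)
    (hβ2 : Z.β t ≤ Z.tt t) :
    0 < Z.x t ^ 2 + Z.y t ^ 2 ∧ Z.x t ^ 2 + Z.y t ^ 2 ≤ 2 * Z.tt t ^ 2 := by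
  have h0 := Z.tt_pos t
  have e : Z.x t ^ 2 + Z.y t ^ 2 = Z.α t ^ 2 + Z.β t ^ 2 := by
    have : Z.α t ^ 2 + Z.β t ^ 2 = (Z.x t ^ 2 + Z.y t ^ 2) *
        (Real.sin (T.θ t) ^ 2 + Real.cos (T.θ t) ^ 2) := by
      rw [α, β]; ring
    rw [this, Real.sin_sq_add_cos_sq, mul_one]
  rw [e]
  constructor
  · have : 0 < Z.α t := by linarith
    positivity
  · have h1 : Z.α t ^ 2 ≤ Z.tt t ^ 2 := pow_le_pow_left₀ (by linarith) hα2 2
    have h2 : Z.β t ^ 2 ≤ Z.tt t ^ 2 := pow_le_pow_left₀ hβ hβ2 2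
    linarith

include Z in
theorem contra : False := by
  obtain ⟨T1, hT1, hδ1⟩ := Z.ev_delta (η := 1) one_pos
  obtain ⟨C, T2, hC, hT2, hrest⟩ := Z.rest_bdd
  set T3 := max T1 T2 with hT3
  have hT3' : 0 ≤ T3 := hT1.trans (le_max_left _ _)
  by_cases hcase : ∀ t, T3 ≤ t → 0 ≤ Z.S t
  · -- `K` bounded
    obtain ⟨T4, hT4, hK⟩ := Z.K_unbdd (C + 1)
    set t := max T3 T4 with ht
    have ht3 : T3 ≤ t := le_max_left _ _
    have ht1 : T1 ≤ t := (le_max_left _ _).trans ht3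
    have ht2 : T2 ≤ t := (le_max_right _ _).trans ht3
    have ht0 : 0 ≤ t := hT3'.trans ht3
    obtain ⟨b1, b2, b3, b4⟩ := Z.bounds ht0 le_rfl (hδ1 t ht1)
    rw [one_mul] at b4
    obtain ⟨r1, r2⟩ := Z.rr b1 b2 b3 b4
    have h1 := Z.sumI t r1
    have h2 : 0 ≤ ∑ i ∈ Z.I, T.a i t := by
      rw [h1]
      have := hcase t ht3
      have h3 : 0 ≤ Z.α t := by have := Z.tt_pos t; linarith
      positivity
    have h3 := T.hK3 t
    have h4 := (abs_le.1 (hrest t ht2)).1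
    have h5 := hK t (le_max_right _ _)
    have h6 := T.K_pos ht0
    linarith
  · push Not at hcase
    obtain ⟨T4, hT4, hneg⟩ := hcase
    set γ := -Z.S T4 with hγ
    have hγ0 : 0 < γ := by linarith
    have hS : ∀ t, T4 ≤ t → Z.S t ≤ -γ := by
      intro t ht
      have := incr (t0 := T4) (f := fun t => -Z.S t)
        (f' := fun t => -(∑ i ∈ Z.I, -(T.w t * Z.β t * (T.p i ^ 2 + T.q i ^ 2) / T.l i t ^ 2)))
        (fun t _ => (Z.S_deriv t).neg) (fun t ht => by
          rw [← Finset.sum_neg_distrib]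
          refine Finset.sum_nonneg fun i _ => ?_
          have hl := T.hlpos i t
          have hw := T.w_pos t
          have ht1 : T1 ≤ t := (le_max_left _ _).trans (hT4.trans ht)
          obtain ⟨b1, b2, b3, b4⟩ := Z.bounds (hT1.trans ht1) le_rfl (hδ1 t ht1)
          rw [neg_neg]
          positivity) le_rfl ht
      linarith
    set N : ℝ := (Z.I.card : ℝ) with hN
    have hN0 : 0 ≤ N := by positivity
    set η := min 1 (γ / (4 * (N + 1))) with hη
    have hη0 : 0 < η := lt_min one_pos (by positivity)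
    have hη1 : η ≤ 1 := min_le_left _ _
    have hηN : η * N ≤ γ / 4 := by
      have h1 : η ≤ γ / (4 * (N + 1)) := min_le_right _ _
      have h2 : η * (4 * (N + 1)) ≤ γ := by
        rwa [le_div_iff₀ (by positivity)] at h1
      nlinarith
    obtain ⟨T5, hT5, hδ⟩ := Z.ev_delta hη0
    set T6 := max T4 T5 with hT6
    have h46 : T4 ≤ T6 := le_max_left _ _
    have h56 : T5 ≤ T6 := le_max_right _ _
    have h06 : 0 ≤ T6 := hT5.trans h56
    -- lower bound of `K`
    have hKlow : ∀ t, T6 ≤ t → γ / (8 * Z.tt t) - C ≤ 3 * T.K t := by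
      intro t ht
      have ht0 : 0 ≤ t := h06.trans ht
      obtain ⟨b1, b2, b3, b4⟩ := Z.bounds ht0 hη1 (hδ t (h56.trans ht))
      have htt := Z.tt_pos t
      have b5 : Z.β t ≤ Z.tt t := b4.trans (by nlinarith)
      obtain ⟨r1, r2⟩ := Z.rr b1 b2 b3 b5
      have h1 := Z.sumI t r1
      have h2 := hS t (h46.trans ht)
      have h3 : Z.β t * N + Z.α t * Z.S t ≤ -(γ / 4 * Z.tt t) := by
        have h4 : Z.β t * N ≤ η * Z.tt t * N := mul_le_mul_of_nonneg_right b4 hN0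
        have h5 : Z.α t * Z.S t ≤ Z.α t * (-γ) :=
          mul_le_mul_of_nonneg_left h2 (by linarith)
        have h6 : Z.tt t / 2 * γ ≤ Z.α t * γ := mul_le_mul_of_nonneg_right b1 hγ0.le
        have h7 : η * Z.tt t * N ≤ γ / 4 * Z.tt t := by
          have := mul_le_mul_of_nonneg_right hηN htt.le
          linarith
        linarith
      have h4 : ∑ i ∈ Z.I, T.a i t ≤ -(γ / (8 * Z.tt t)) := by
        rw [h1, div_le_iff₀ r1]
        have h5 : γ / (8 * Z.tt t) * (Z.x t ^ 2 + Z.y t ^ 2) ≤ γ / 4 * Z.tt t := by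
          calc γ / (8 * Z.tt t) * (Z.x t ^ 2 + Z.y t ^ 2)
              ≤ γ / (8 * Z.tt t) * (2 * Z.tt t ^ 2) :=
                mul_le_mul_of_nonneg_left r2 (by positivity)
            _ = γ / 4 * Z.tt t := by field_simp; ring
        linarith
      have h5 := T.hK3 t
      have ht2 : T2 ≤ t := (le_max_right _ _).trans (hT4.trans (h46.trans ht))
      have h6 := (abs_le.1 (hrest t ht2)).2
      linarith
    have hgrow : ∀ t, T6 ≤ t → T.θ T6 + γ / 24 * Real.log (Z.tt T6) + C / 3 * T.s T6 ≤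
        T.θ t + γ / 24 * Real.log (Z.tt t) + C / 3 * T.s t := by
      intro t ht
      refine incr (t0 := T6)
        (f := fun t => T.θ t + γ / 24 * Real.log (Z.tt t) + C / 3 * T.s t)
        (f' := fun t => T.w t * T.K t + γ / 24 * (-T.w t / Z.tt t) + C / 3 * T.w t)
        (fun t _ => ((T.hθd t).add ((Z.log_tt_deriv t).const_mul _)).add ((T.hsd t).const_mul _))
        (fun t ht => ?_) le_rfl ht
      have h1 := hKlow t ht
      have htt := Z.tt_pos t
      have hw := T.w_pos t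
      have h2 : T.w t * T.K t + γ / 24 * (-T.w t / Z.tt t) + C / 3 * T.w t =
        T.w t / 3 * (3 * T.K t - (γ / (8 * Z.tt t) - C)) := by
        field_simp
        ring
      rw [h2]
      exact mul_nonneg (by positivity) (by linarith)
    have hlog := Z.log_tt_tendsto.eventually_le_atBot
      ((T.θ T6 + γ / 24 * Real.log (Z.tt T6) + C / 3 * T.s T6 - Z.θp - C / 3 * Z.sp - 1) /
        (γ / 24))
    obtain ⟨R, hR⟩ := eventually_atTop.1 hlog
    set t := max R T6 with ht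
    have h1 := hR t (le_max_left _ _)
    have h2 := hgrow t (le_max_right _ _)
    have h3 := Z.θ_le (h06.trans (le_max_right R T6))
    have h4 := Z.s_lt t
    rw [le_div_iff₀ (by positivity)] at h1
    have h5 : C / 3 * T.s t ≤ C / 3 * Z.sp := mul_le_mul_of_nonneg_left h4.le (by positivity)
    rw [← ht] at h3
    linarith

end Lm

/-- No trajectory data exist. -/
theorem TD.false {ι : Type} [Fintype ι] (T : TD ι) : False := by
  by_cases h : ∀ B, ∃ t, 0 ≤ t ∧ B ≤ T.θ t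
  · exact T.caseTwo h
  · push Not at h
    obtain ⟨B, hB⟩ := h
    obtain ⟨Z⟩ := T.exists_Lm (B := B) fun t ht => (hB t ht).le
    exact Z.contra

end Helper772Chen
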