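import Mathlib
import Pool.Agent.Helper772_Chen.Calc

set_option autoImplicit false

open Set Filter Topology Matrix
open scoped RealInnerProductSpace ContDiff

namespace Helper772Chen

/-- Euclidean space -/
abbrev Eu (n : ℕ) := EuclideanSpace ℝ (Fin n)

/-- coordinate vectors -/
noncomputable def ee {n : ℕ} (i : Fin n) : Eu n := EuclideanSpace.single i (1 : ℝ)

/-- the determinant as a continuous multilinear map of the rows -/
noncomputable def detCM (n : ℕ) :
    ContinuousMultilinearMap ℝ (fun _ : Fin n => Fin n → ℝ) ℝ where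
  toMultilinearMap := (Matrix.detRowAlternating (n := Fin n) (R := ℝ)).toMultilinearMap
  cont := by
    change Continuous (fun M : Matrix (Fin n) (Fin n) ℝ => M.det)
    exact Continuous.matrix_det continuous_id

section mat

variable {E : Type*} [NormedAddCommGroup E] [NormedSpace ℝ E] {n : ℕ}

/-- Jacobi's formula -/
theorem hasFDerivAt_det (R : E → Matrix (Fin n) (Fin n) ℝ) {x : E}
    (h : ∀ i j, DifferentiableAt ℝ (fun y => R y i j) x) (v : E) :
    fderiv ℝ (fun y => (R y).det) x v =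
      ∑ i, ∑ j, (R x).adjugate j i * fderiv ℝ (fun y => R y i j) x v := by
  let R' : E → Fin n → Fin n → ℝ := fun y i j => R y i j
  have h1 : HasFDerivAt R'
      (ContinuousLinearMap.pi fun i => ContinuousLinearMap.pi fun j =>
        fderiv ℝ (fun y => R y i j) x) x := by
    rw [hasFDerivAt_pi]
    intro i
    rw [hasFDerivAt_pi]
    intro j
    exact (h i j).hasFDerivAt
  have h2 := ((detCM n).hasFDerivAt (R' x)).comp x h1
  have h5 : (fun y => (R y).det) = (fun y => detCM n (R' y)) := rfl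
  have h3 : fderiv ℝ (fun y => detCM n (R' y)) x = _ := h2.fderiv
  rw [h5, h3, ContinuousLinearMap.comp_apply, ContinuousMultilinearMap.linearDeriv_apply]
  refine Finset.sum_congr rfl fun i _ => ?_
  have h4 : (detCM n) (Function.update (R' x) i
      ((ContinuousLinearMap.pi fun i => ContinuousLinearMap.pi fun j =>
        fderiv ℝ (fun y => R y i j) x) v i)) =
      ((R x).updateRow i (fun j => fderiv ℝ (fun y => R y i j) x v)).det := rfl
  rw [h4, ← Matrix.cramer_transpose_apply, Matrix.cramer_eq_adjugate_mulVec,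
    ← Matrix.adjugate_transpose]
  rfl

theorem sm_det {V : Set E} {R : E → Matrix (Fin n) (Fin n) ℝ}
    (h : ∀ i j, ContDiffOn ℝ ∞ (fun y => R y i j) V) :
    ContDiffOn ℝ ∞ (fun y => (R y).det) V := by
  let R' : E → Fin n → Fin n → ℝ := fun y i j => R y i j
  have h1 : ContDiffOn ℝ ∞ R' V := by
    rw [contDiffOn_pi]
    intro i
    rw [contDiffOn_pi]
    intro j
    exact h i j
  exact (detCM n).contDiff.comp_contDiffOn h1

theorem sm_adj {V : Set E} {R : E → Matrix (Fin n) (Fin n) ℝ}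
    (h : ∀ i j, ContDiffOn ℝ ∞ (fun y => R y i j) V) (i j : Fin n) :
    ContDiffOn ℝ ∞ (fun y => (R y).adjugate i j) V := by
  simp only [Matrix.adjugate_apply]
  refine sm_det fun k l => ?_
  by_cases hk : k = j
  · subst hk
    simp only [Matrix.updateRow_self]
    exact contDiffOn_const
  · simp only [Matrix.updateRow_ne hk]
    exact h k l

theorem inv_entry (M : Matrix (Fin n) (Fin n) ℝ) (i j : Fin n) :
    M⁻¹ i j = (M.det)⁻¹ * M.adjugate i j := by
  rw [Matrix.inv_def, Ring.inverse_eq_inv']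
  rfl

theorem sm_inv {V : Set E} {R : E → Matrix (Fin n) (Fin n) ℝ}
    (h : ∀ i j, ContDiffOn ℝ ∞ (fun y => R y i j) V) (hd : ∀ x ∈ V, (R x).det ≠ 0) (i j : Fin n) :
    ContDiffOn ℝ ∞ (fun y => (R y)⁻¹ i j) V := by
  simp only [inv_entry]
  exact ((sm_det h).inv hd).mul (sm_adj h i j)

end mat

/-- The basic data of a biharmonic immersion in coordinates. -/
structure Base (n m : ℕ) where
  U : Set (Eu n)
  hU : IsOpen U
  f : Eu n → Eu m
  τ : Eu n → Eu m
  φ : Fin n → Eu n → Eu m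
  A : Eu n → Fin n → ℝ
  sf : ContDiffOn ℝ ∞ f U
  sτ : ContDiffOn ℝ ∞ τ U
  sφ : ∀ i, ContDiffOn ℝ ∞ (φ i) U
  b1 : ∀ x ∈ U, ∀ i j, ⟪φ i x, fderiv ℝ f x (ee j)⟫ = if i = j then 1 else 0
  b2 : ∀ x ∈ U, ∀ w, (∀ j, ⟪w, fderiv ℝ f x (ee j)⟫ = 0) → ∀ i, ⟪φ i x, w⟫ = 0
  b3 : ∀ x ∈ U, τ x = ∑ i, ∑ j, ⟪φ i x, φ j x⟫ • fderiv ℝ (fderiv ℝ f) x (ee i) (ee j) +
    ∑ j, A x j • fderiv ℝ f x (ee j)
  b4 : ∀ x ∈ U, ∑ i, ∑ j, ⟪φ i x, φ j x⟫ • fderiv ℝ (fderiv ℝ τ) x (ee i) (ee j) +
    ∑ j, A x j • fderiv ℝ τ x (ee j) = 0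
  b5 : ∀ x ∈ U, ∀ k, ⟪τ x, fderiv ℝ f x (ee k)⟫ = 0

theorem exists_base (n m : ℕ) (U : Set (EuclideanSpace ℝ (Fin n)))
      (f : EuclideanSpace ℝ (Fin n) → EuclideanSpace ℝ (Fin m))
      (hU : IsOpen U)
      (sf : ContDiffOn ℝ ((⊤ : ℕ∞) : WithTop ℕ∞) f U)
      (hinj : ∀ x ∈ U, Function.Injective (fderiv ℝ f x))
      (g : EuclideanSpace ℝ (Fin n) → Matrix (Fin n) (Fin n) ℝ)
      (hg : ∀ x i j, g x i j =
          inner ℝ (fderiv ℝ f x (EuclideanSpace.single i (1 : ℝ)))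
            (fderiv ℝ f x (EuclideanSpace.single j (1 : ℝ))))
      (L : (EuclideanSpace ℝ (Fin n) → EuclideanSpace ℝ (Fin m)) →
              EuclideanSpace ℝ (Fin n) → EuclideanSpace ℝ (Fin m))
      (hL : ∀ u x, L u x =
          (Real.sqrt (g x).det)⁻¹ •
            ∑ i, fderiv ℝ (fun y => Real.sqrt (g y).det •
                    ∑ j, (g y)⁻¹ i j • fderiv ℝ u y (EuclideanSpace.single j (1 : ℝ)))
                  x (EuclideanSpace.single i (1 : ℝ)))
      (hLL : ∀ x ∈ U, L (L f) x = 0) :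
      ∃ B : Base n m, B.U = U ∧ B.f = f ∧ B.τ = L f := by
  classical
  have hg' : ∀ x i j, g x i j = ⟪fderiv ℝ f x (ee i), fderiv ℝ f x (ee j)⟫ := hg
  have sD : ∀ j, ContDiffOn ℝ ∞ (fun y => fderiv ℝ f y (ee j)) U := fun j =>
    sm_apply_const hU sf _
  have sg : ∀ i j, ContDiffOn ℝ ∞ (fun y => g y i j) U := by
    intro i j
    simp only [hg']
    exact sm_inner (sD i) (sD j)
  have hdet : ∀ x ∈ U, 0 < (g x).det := by
    intro x hx
    have h1 : g x = Matrix.gram ℝ (fun i => fderiv ℝ f x (ee i)) := by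
      ext i j
      rw [Matrix.gram_apply, hg']
    have h2 := (EuclideanSpace.basisFun (Fin n) ℝ).toBasis.linearIndependent
    have h3 : LinearIndependent ℝ (fun i => fderiv ℝ f x (ee i)) := by
      have h4 := h2.map' (fderiv ℝ f x).toLinearMap (LinearMap.ker_eq_bot.2 (hinj x hx))
      have e : (fun i => fderiv ℝ f x (ee i)) =
          (fderiv ℝ f x).toLinearMap ∘ (EuclideanSpace.basisFun (Fin n) ℝ).toBasis := by
        funext i
        simp [ee]
      rw [e]
      exact h4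
    rw [h1]
    exact Matrix.PosDef.det_pos (Matrix.posDef_gram_of_linearIndependent h3)
  have hdet0 : ∀ x ∈ U, (g x).det ≠ 0 := fun x hx => (hdet x hx).ne'
  have sdet := sm_det sg
  have sinv := sm_inv sg hdet0
  have ssq : ContDiffOn ℝ ∞ (fun y => Real.sqrt (g y).det) U := sdet.sqrt hdet0
  have hsq : ∀ x ∈ U, 0 < Real.sqrt (g x).det := fun x hx => Real.sqrt_pos.2 (hdet x hx)
  set φ : Fin n → Eu n → Eu m := fun i y => ∑ j, (g y)⁻¹ i j • fderiv ℝ f y (ee j) with hφ
  have sφ : ∀ i, ContDiffOn ℝ ∞ (φ i) U := by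
    intro i
    exact ContDiffOn.sum fun j _ => (sinv i j).smul (sD j)
  have b1 : ∀ x ∈ U, ∀ i j, ⟪φ i x, fderiv ℝ f x (ee j)⟫ = if i = j then 1 else 0 := by
    intro x hx i k
    have h1 : ((g x)⁻¹ * g x) i k = if i = k then 1 else 0 := by
      rw [Matrix.nonsing_inv_mul _ (isUnit_iff_ne_zero.2 (hdet0 x hx)), Matrix.one_apply]
    rw [← h1, Matrix.mul_apply, hφ, sum_inner]
    refine Finset.sum_congr rfl fun j _ => ?_
    rw [real_inner_smul_left, hg']
  have hφw : ∀ x w i, ⟪φ i x, w⟫ = ∑ j, (g x)⁻¹ i j * ⟪fderiv ℝ f x (ee j), w⟫ := by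
    intro x w i
    rw [hφ, sum_inner]
    refine Finset.sum_congr rfl fun j _ => ?_
    rw [real_inner_smul_left]
  have b2 : ∀ x ∈ U, ∀ w, (∀ j, ⟪w, fderiv ℝ f x (ee j)⟫ = 0) → ∀ i, ⟪φ i x, w⟫ = 0 := by
    intro x hx w hw i
    rw [hφw]
    refine Finset.sum_eq_zero fun j _ => ?_
    rw [real_inner_comm, hw j, mul_zero]
  have hginv : ∀ x ∈ U, ∀ i j, ⟪φ i x, φ j x⟫ = (g x)⁻¹ j i := by
    intro x hx i j
    have h1 : ⟪φ i x, φ j x⟫ = ∑ k, (g x)⁻¹ j k * ⟪φ i x, fderiv ℝ f x (ee k)⟫ := by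
      rw [real_inner_comm, hφw]
      refine Finset.sum_congr rfl fun k _ => ?_
      rw [real_inner_comm]
    rw [h1]
    simp only [b1 x hx, mul_ite, mul_one, mul_zero, Finset.sum_ite_eq, Finset.mem_univ, if_true]
  have hginv' : ∀ x ∈ U, ∀ i j, ⟪φ i x, φ j x⟫ = (g x)⁻¹ i j := by
    intro x hx i j
    rw [real_inner_comm, hginv x hx]
  -- the operator
  set P : Fin n → Fin n → Eu n → ℝ := fun i j y => Real.sqrt (g y).det * (g y)⁻¹ i j with hP
  have sP : ∀ i j, ContDiffOn ℝ ∞ (P i j) U := fun i j => ssq.mul (sinv i j)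
  set A : Eu n → Fin n → ℝ := fun x j =>
    (Real.sqrt (g x).det)⁻¹ * ∑ i, fderiv ℝ (P i j) x (ee i) with hA
  have hexp : ∀ u : Eu n → Eu m, ContDiffOn ℝ ∞ u U → ∀ x ∈ U,
      L u x = ∑ i, ∑ j, ⟪φ i x, φ j x⟫ • fderiv ℝ (fderiv ℝ u) x (ee i) (ee j) +
        ∑ j, A x j • fderiv ℝ u x (ee j) := by
    intro u su x hx
    rw [hL]
    have h1 : ∀ i, fderiv ℝ (fun y => Real.sqrt (g y).det •
        ∑ j, (g y)⁻¹ i j • fderiv ℝ u y (EuclideanSpace.single j (1 : ℝ))) x
          (EuclideanSpace.single i (1 : ℝ)) =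
        ∑ j, (P i j x • fderiv ℝ (fderiv ℝ u) x (ee i) (ee j) +
          fderiv ℝ (P i j) x (ee i) • fderiv ℝ u x (ee j)) := by
      intro i
      have h2 : (fun y => Real.sqrt (g y).det •
        ∑ j, (g y)⁻¹ i j • fderiv ℝ u y (EuclideanSpace.single j (1 : ℝ))) =
          fun y => ∑ j, P i j y • fderiv ℝ u y (ee j) := by
        funext y
        rw [Finset.smul_sum]
        refine Finset.sum_congr rfl fun j _ => ?_
        rw [smul_smul]
        rfl
      rw [h2, fderiv_fun_sum (A := fun j y => P i j y • fderiv ℝ u y (ee j))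
        (fun j _ => diffAt hU ((sP i j).smul (sm_apply_const hU su _)) hx)]
      rw [_root_.sum_apply]
      refine Finset.sum_congr rfl fun j _ => ?_
      have h3 := fd_smul hU (sP i j) (sm_apply_const hU su (ee j)) hx (ee i)
      rw [fd_apply_const hU su hx] at h3
      exact h3
    simp only [h1]
    have h4 : ∑ i, ∑ j, (P i j x • fderiv ℝ (fderiv ℝ u) x (ee i) (ee j) +
          fderiv ℝ (P i j) x (ee i) • fderiv ℝ u x (ee j)) =
        ∑ i, ∑ j, P i j x • fderiv ℝ (fderiv ℝ u) x (ee i) (ee j) +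
        ∑ j, (∑ i, fderiv ℝ (P i j) x (ee i)) • fderiv ℝ u x (ee j) := by
      simp only [Finset.sum_add_distrib]
      congr 1
      rw [Finset.sum_comm]
      refine Finset.sum_congr rfl fun j _ => ?_
      rw [Finset.sum_smul]
    rw [h4, smul_add]
    congr 1
    · rw [Finset.smul_sum]
      refine Finset.sum_congr rfl fun i _ => ?_
      rw [Finset.smul_sum]
      refine Finset.sum_congr rfl fun j _ => ?_
      rw [smul_smul, hginv' x hx]
      congr 1
      simp only [hP]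
      rw [← mul_assoc, inv_mul_cancel₀ (hsq x hx).ne', one_mul]
    · rw [Finset.smul_sum]
      refine Finset.sum_congr rfl fun j _ => ?_
      rw [smul_smul]
  have hLf : ∀ x, L f x = (Real.sqrt (g x).det)⁻¹ •
      ∑ i, fderiv ℝ (fun y => Real.sqrt (g y).det • φ i y) x (ee i) := fun x => hL f x
  have sτ : ContDiffOn ℝ ∞ (L f) U := by
    have h1 : L f = fun x => (Real.sqrt (g x).det)⁻¹ •
      ∑ i, fderiv ℝ (fun y => Real.sqrt (g y).det • φ i y) x (ee i) := funext hLf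
    rw [h1]
    refine ContDiffOn.smul (ssq.inv fun x hx => (hsq x hx).ne') (ContDiffOn.sum fun i _ => ?_)
    exact sm_apply_const hU (ssq.smul (sφ i)) _
  -- derivative of the square root of the determinant
  have hdsq : ∀ x ∈ U, ∀ k, fderiv ℝ (fun y => Real.sqrt (g y).det) x (ee k) =
      Real.sqrt (g x).det * ∑ i, ⟪φ i x, fderiv ℝ (fderiv ℝ f) x (ee i) (ee k)⟫ := by
    intro x hx k
    have h1 : fderiv ℝ (fun y => (g y).det) x (ee k) =
        (g x).det * (2 * ∑ i, ⟪φ i x, fderiv ℝ (fderiv ℝ f) x (ee i) (ee k)⟫) := by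
      rw [hasFDerivAt_det g (fun i j => diffAt hU (sg i j) hx)]
      have h2 : ∀ i j, fderiv ℝ (fun y => g y i j) x (ee k) =
          ⟪fderiv ℝ f x (ee i), fderiv ℝ (fderiv ℝ f) x (ee j) (ee k)⟫ +
          ⟪fderiv ℝ (fderiv ℝ f) x (ee i) (ee k), fderiv ℝ f x (ee j)⟫ := by
        intro i j
        simp only [hg']
        rw [fd_inner hU (sD i) (sD j) hx, fd_apply_const hU sf hx, fd_apply_const hU sf hx,
          symm2 hU sf hx (ee k) (ee j), symm2 hU sf hx (ee k) (ee i)]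
      have h3 : ∀ i j, (g x).adjugate j i = (g x).det * (g x)⁻¹ j i := by
        intro i j
        rw [inv_entry, ← mul_assoc, mul_inv_cancel₀ (hdet0 x hx), one_mul]
      have h4 : ∑ i, ∑ j, (g x)⁻¹ j i * ⟪fderiv ℝ f x (ee i),
          fderiv ℝ (fderiv ℝ f) x (ee j) (ee k)⟫ =
          ∑ i, ⟪φ i x, fderiv ℝ (fderiv ℝ f) x (ee i) (ee k)⟫ := by
        rw [Finset.sum_comm]
        refine Finset.sum_congr rfl fun j _ => ?_
        rw [hφw]
      have h5 : ∑ i, ∑ j, (g x)⁻¹ j i * ⟪fderiv ℝ (fderiv ℝ f) x (ee i) (ee k),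
          fderiv ℝ f x (ee j)⟫ =
          ∑ i, ⟪φ i x, fderiv ℝ (fderiv ℝ f) x (ee i) (ee k)⟫ := by
        refine Finset.sum_congr rfl fun i _ => ?_
        rw [hφw]
        refine Finset.sum_congr rfl fun j _ => ?_
        rw [← hginv x hx, hginv' x hx, real_inner_comm]
      calc ∑ i, ∑ j, (g x).adjugate j i * fderiv ℝ (fun y => g y i j) x (ee k)
          = ∑ i, ∑ j, ((g x).det * ((g x)⁻¹ j i * ⟪fderiv ℝ f x (ee i),
              fderiv ℝ (fderiv ℝ f) x (ee j) (ee k)⟫) +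
              (g x).det * ((g x)⁻¹ j i * ⟪fderiv ℝ (fderiv ℝ f) x (ee i) (ee k),
              fderiv ℝ f x (ee j)⟫)) := by
            refine Finset.sum_congr rfl fun i _ => Finset.sum_congr rfl fun j _ => ?_
            rw [h2, h3]
            ring
        _ = (g x).det * ∑ i, ∑ j, (g x)⁻¹ j i * ⟪fderiv ℝ f x (ee i),
              fderiv ℝ (fderiv ℝ f) x (ee j) (ee k)⟫ +
            (g x).det * ∑ i, ∑ j, (g x)⁻¹ j i * ⟪fderiv ℝ (fderiv ℝ f) x (ee i) (ee k),
              fderiv ℝ f x (ee j)⟫ := by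
            simp only [Finset.sum_add_distrib, Finset.mul_sum]
        _ = _ := by
            rw [h4, h5]
            ring
    have h2 := ((diffAt hU sdet hx).hasFDerivAt.sqrt (hdet0 x hx)).fderiv
    rw [h2, _root_.smul_apply, h1, smul_eq_mul]
    have h3 := hsq x hx
    have h4 : (g x).det = Real.sqrt (g x).det * Real.sqrt (g x).det :=
      (Real.mul_self_sqrt (hdet x hx).le).symm
    have h5 : ∀ S : ℝ, 1 / (2 * Real.sqrt (g x).det) *
        ((Real.sqrt (g x).det * Real.sqrt (g x).det) * (2 * S)) = Real.sqrt (g x).det * S := by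
      intro S
      field_simp
    rw [← h5, ← h4]
  have b5 : ∀ x ∈ U, ∀ k, ⟪L f x, fderiv ℝ f x (ee k)⟫ = 0 := by
    intro x hx k
    have h1 : ∀ i, ⟪fderiv ℝ (φ i) x (ee i), fderiv ℝ f x (ee k)⟫ =
        -⟪φ i x, fderiv ℝ (fderiv ℝ f) x (ee i) (ee k)⟫ := by
      intro i
      have h2 : fderiv ℝ (fun y => ⟪φ i y, fderiv ℝ f y (ee k)⟫) x (ee i) = 0 := by
        have h3 : fderiv ℝ (fun y => ⟪φ i y, fderiv ℝ f y (ee k)⟫) x =
            fderiv ℝ (fun _ => if i = k then (1 : ℝ) else 0) x :=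
          fd_congr hU (fun y hy => b1 y hy i k) hx
        rw [h3]
        simp
      rw [fd_inner hU (sφ i) (sD k) hx, fd_apply_const hU sf hx] at h2
      linarith
    rw [hLf, real_inner_smul_left, sum_inner]
    have h2 : ∀ i, ⟪fderiv ℝ (fun y => Real.sqrt (g y).det • φ i y) x (ee i),
        fderiv ℝ f x (ee k)⟫ = -(Real.sqrt (g x).det *
          ⟪φ i x, fderiv ℝ (fderiv ℝ f) x (ee i) (ee k)⟫) +
          fderiv ℝ (fun y => Real.sqrt (g y).det) x (ee i) * (if i = k then 1 else 0) := by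
      intro i
      rw [fd_smul hU ssq (sφ i) hx, inner_add_left, real_inner_smul_left, real_inner_smul_left,
        h1, b1 x hx]
      ring
    simp only [h2, Finset.sum_add_distrib, mul_ite, mul_one, mul_zero, Finset.sum_ite_eq',
      Finset.mem_univ, if_true, Finset.sum_neg_distrib]
    rw [hdsq x hx, Finset.mul_sum]
    simp
  exact ⟨⟨U, hU, f, L f, φ, A, sf, sτ, sφ, b1, b2, hexp f sf, fun x hx => by
    rw [← hexp (L f) sτ x hx]
    exact hLL x hx, b5⟩, rfl, rfl, rfl⟩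

end Helper772Chen
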