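import Mathlib
import Pool.Agent.Helper772_Chen.Geo1

set_option autoImplicit false

open Set Filter Topology
open scoped RealInnerProductSpace ContDiff

namespace Helper772Chen

theorem eu_sum {n : ℕ} (v : Eu n) : v = ∑ j, v j • ee j := by
  have h := (EuclideanSpace.basisFun (Fin n) ℝ).sum_repr v
  simp only [EuclideanSpace.basisFun_repr, EuclideanSpace.basisFun_apply] at h
  exact h.symm

namespace Base

variable {n : ℕ} (B : Base n (n + 1))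

/-- the open set where `τ ≠ 0` -/
def V0 : Set (Eu n) := B.U ∩ B.τ ⁻¹' {0}ᶜ

theorem V0_open : IsOpen B.V0 :=
  B.sτ.continuousOn.isOpen_inter_preimage B.hU isOpen_compl_singleton

/-- mean curvature function -/
noncomputable def h (x : Eu n) : ℝ := ‖B.τ x‖

/-- unit normal -/
noncomputable def ξ (x : Eu n) : Eu (n + 1) := (B.h x)⁻¹ • B.τ x

theorem V0_sub {x : Eu n} (hx : x ∈ B.V0) : x ∈ B.U := hx.1

theorem sf0 : ContDiffOn ℝ ∞ B.f B.V0 := B.sf.mono inter_subset_left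

theorem sφ0 (i : Fin n) : ContDiffOn ℝ ∞ (B.φ i) B.V0 := (B.sφ i).mono inter_subset_left

theorem hpos {x : Eu n} (hx : x ∈ B.V0) : 0 < B.h x := norm_pos_iff.2 hx.2

theorem sh : ContDiffOn ℝ ∞ B.h B.V0 :=
  (B.sτ.mono inter_subset_left).norm ℝ fun _ hx => hx.2

theorem sξ : ContDiffOn ℝ ∞ B.ξ B.V0 :=
  (B.sh.inv fun _ hx => (B.hpos hx).ne').smul (B.sτ.mono inter_subset_left)

theorem τeq {x : Eu n} (hx : x ∈ B.V0) : B.τ x = B.h x • B.ξ x := by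
  rw [ξ, smul_smul, mul_inv_cancel₀ (B.hpos hx).ne', one_smul]

theorem ξξ {x : Eu n} (hx : x ∈ B.V0) : ⟪B.ξ x, B.ξ x⟫ = 1 := by
  have h1 := B.hpos hx
  rw [ξ, real_inner_smul_left, real_inner_smul_right, real_inner_self_eq_norm_sq]
  change (B.h x)⁻¹ * ((B.h x)⁻¹ * B.h x ^ 2) = 1
  field_simp

theorem ξf {x : Eu n} (hx : x ∈ B.V0) (v : Eu n) : ⟪B.ξ x, fderiv ℝ B.f x v⟫ = 0 := by
  rw [eu_sum v, map_sum, inner_sum]
  refine Finset.sum_eq_zero fun j _ => ?_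
  rw [map_smul, real_inner_smul_right, ξ, real_inner_smul_left, B.b5 x hx.1 j]
  simp

theorem φξ {x : Eu n} (hx : x ∈ B.V0) (i : Fin n) : ⟪B.φ i x, B.ξ x⟫ = 0 :=
  B.b2 x hx.1 _ (fun j => B.ξf hx _) i

theorem expand {x : Eu n} (hx : x ∈ B.V0) (w : Eu (n + 1)) :
    w = ∑ i, ⟪B.φ i x, w⟫ • fderiv ℝ B.f x (ee i) + ⟪B.ξ x, w⟫ • B.ξ x := by
  classical
  let v : Option (Fin n) → Eu (n + 1) := fun o => o.elim (B.ξ x) (fun i => fderiv ℝ B.f x (ee i))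
  have key : ∀ c : Option (Fin n) → ℝ, (∀ i, ⟪B.φ i x, ∑ o, c o • v o⟫ = c (some i)) ∧
      ⟪B.ξ x, ∑ o, c o • v o⟫ = c none := by
    intro c
    rw [Fintype.sum_option]
    constructor
    · intro i
      simp only [v, Option.elim_none, Option.elim_some]
      rw [inner_add_right, real_inner_smul_right, B.φξ hx, inner_sum]
      simp only [real_inner_smul_right, B.b1 x hx.1]
      simp
    · simp only [v, Option.elim_none, Option.elim_some]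
      rw [inner_add_right, real_inner_smul_right, B.ξξ hx, inner_sum]
      simp only [real_inner_smul_right, B.ξf hx]
      simp
  have hli : LinearIndependent ℝ v := by
    rw [Fintype.linearIndependent_iff]
    intro c hc o
    obtain ⟨k1, k2⟩ := key c
    rw [hc] at k1 k2
    rcases o with _ | i
    · rw [← k2, inner_zero_right]
    · rw [← k1 i, inner_zero_right]
  have hsp : Submodule.span ℝ (Set.range v) = ⊤ :=
    hli.span_eq_top_of_card_eq_finrank (by simp)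
  have hw : w ∈ Submodule.span ℝ (Set.range v) := by rw [hsp]; trivial
  obtain ⟨c, hc⟩ := (Submodule.mem_span_range_iff_exists_fun ℝ).1 hw
  obtain ⟨k1, k2⟩ := key c
  rw [hc] at k1 k2
  simp only [k1, k2]
  rw [← hc, Fintype.sum_option]
  exact add_comm _ _

theorem ext' {x : Eu n} (hx : x ∈ B.V0) {w w' : Eu (n + 1)}
    (h1 : ∀ i, ⟪w, fderiv ℝ B.f x (ee i)⟫ = ⟪w', fderiv ℝ B.f x (ee i)⟫)
    (h2 : ⟪w, B.ξ x⟫ = ⟪w', B.ξ x⟫) : w = w' := by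
  have h3 : ⟪w - w', w - w'⟫ = 0 := by
    conv_lhs => arg 3; rw [B.expand hx (w - w')]
    rw [inner_add_right, inner_sum]
    simp only [real_inner_smul_right, inner_sub_left (𝕜 := ℝ) w w' (fderiv ℝ B.f x _),
      inner_sub_left (𝕜 := ℝ) w w' (B.ξ x), h1, h2, sub_self, mul_zero]
    simp
  exact sub_eq_zero.1 (inner_self_eq_zero.1 h3)

theorem dual {x : Eu n} (hx : x ∈ B.V0) (w : Eu (n + 1)) :
    w = ∑ i, ⟪w, fderiv ℝ B.f x (ee i)⟫ • B.φ i x + ⟪B.ξ x, w⟫ • B.ξ x := by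
  apply B.ext' hx
  · intro k
    rw [inner_add_left, sum_inner]
    simp only [real_inner_smul_left, B.b1 x hx.1, B.ξf hx]
    simp
  · rw [inner_add_left, sum_inner]
    simp only [real_inner_smul_left, B.φξ hx, B.ξξ hx]
    simp [real_inner_comm]

theorem φexp {x : Eu n} (hx : x ∈ B.V0) (i : Fin n) :
    ∑ j, ⟪B.φ i x, B.φ j x⟫ • fderiv ℝ B.f x (ee j) = B.φ i x := by
  conv_rhs => rw [B.expand hx (B.φ i x)]
  rw [real_inner_comm, B.φξ hx, zero_smul, add_zero]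
  refine Finset.sum_congr rfl fun j _ => ?_
  rw [real_inner_comm]

theorem Dξξ {x : Eu n} (hx : x ∈ B.V0) (v : Eu n) : ⟪fderiv ℝ B.ξ x v, B.ξ x⟫ = 0 := by
  have h1 : fderiv ℝ (fun y => ⟪B.ξ y, B.ξ y⟫) x = fderiv ℝ (fun _ => (1 : ℝ)) x :=
    fd_congr B.V0_open (fun y hy => B.ξξ hy) hx
  have h2 := fd_inner B.V0_open B.sξ B.sξ hx v
  rw [h1] at h2
  simp only [fderiv_fun_const, Pi.zero_apply, _root_.zero_apply] at h2
  rw [real_inner_comm] at h2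
  linarith

theorem symξ {x : Eu n} (hx : x ∈ B.V0) (u v : Eu n) :
    ⟪fderiv ℝ B.ξ x u, fderiv ℝ B.f x v⟫ = -⟪B.ξ x, fderiv ℝ (fderiv ℝ B.f) x u v⟫ := by
  have h1 : fderiv ℝ (fun y => ⟪B.ξ y, fderiv ℝ B.f y v⟫) x = fderiv ℝ (fun _ => (0 : ℝ)) x :=
    fd_congr B.V0_open (fun y hy => B.ξf hy v) hx
  have h2 := fd_inner B.V0_open B.sξ (sm_apply_const B.V0_open B.sf0 v) hx u
  rw [h1, fd_apply_const B.V0_open B.sf0 hx] at h2
  simp only [fderiv_fun_const, Pi.zero_apply, _root_.zero_apply] at h2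
  linarith

theorem symc {x : Eu n} (hx : x ∈ B.V0) (u v : Eu n) :
    ⟪fderiv ℝ B.ξ x u, fderiv ℝ B.f x v⟫ = ⟪fderiv ℝ B.ξ x v, fderiv ℝ B.f x u⟫ := by
  rw [B.symξ hx, B.symξ hx, symm2 B.V0_open B.sf0 hx]

/-- trace of the shape operator -/
theorem trS {x : Eu n} (hx : x ∈ B.V0) :
    B.h x = -∑ i, ⟪fderiv ℝ B.ξ x (ee i), B.φ i x⟫ := by
  have h1 : B.h x = ⟪B.τ x, B.ξ x⟫ := by
    rw [B.τeq hx, real_inner_smul_left, B.ξξ hx, mul_one]
  rw [h1, B.b3 x hx.1, inner_add_left, sum_inner, sum_inner]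
  have h2 : ∑ i, ⟪B.A x i • fderiv ℝ B.f x (ee i), B.ξ x⟫ = 0 := by
    refine Finset.sum_eq_zero fun i _ => ?_
    rw [real_inner_smul_left, real_inner_comm, B.ξf hx, mul_zero]
  rw [h2, add_zero, ← Finset.sum_neg_distrib]
  refine Finset.sum_congr rfl fun i _ => ?_
  rw [sum_inner]
  conv_rhs => rw [← B.φexp hx i]
  rw [inner_sum, ← Finset.sum_neg_distrib]
  refine Finset.sum_congr rfl fun j _ => ?_
  rw [real_inner_smul_left, real_inner_smul_right, B.symξ hx, real_inner_comm (B.ξ x)]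
  ring

theorem Dφ {x : Eu n} (hx : x ∈ B.V0) (i : Fin n) (u v : Eu n) :
    ⟪fderiv ℝ (B.φ i) x u, fderiv ℝ B.f x v⟫ = -⟪B.φ i x, fderiv ℝ (fderiv ℝ B.f) x u v⟫ := by
  have key : ∀ j, ⟪fderiv ℝ (B.φ i) x u, fderiv ℝ B.f x (ee j)⟫ =
      -⟪B.φ i x, fderiv ℝ (fderiv ℝ B.f) x u (ee j)⟫ := by
    intro j
    have h1 : fderiv ℝ (fun y => ⟪B.φ i y, fderiv ℝ B.f y (ee j)⟫) x =
        fderiv ℝ (fun _ => if i = j then (1 : ℝ) else 0) x :=
      fd_congr B.V0_open (fun y hy => B.b1 y hy.1 i j) hx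
    have h2 := fd_inner B.V0_open (B.sφ0 i) (sm_apply_const B.V0_open B.sf0 (ee j)) hx u
    rw [h1, fd_apply_const B.V0_open B.sf0 hx] at h2
    simp only [fderiv_fun_const, Pi.zero_apply, _root_.zero_apply] at h2
    linarith
  rw [eu_sum v, map_sum, map_sum, inner_sum, inner_sum, ← Finset.sum_neg_distrib]
  refine Finset.sum_congr rfl fun j _ => ?_
  rw [map_smul, map_smul, real_inner_smul_right, real_inner_smul_right, key j]
  ring

/-- the vectors `∑ j g^{ij} ξ_j` -/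
theorem ηexp {x : Eu n} (hx : x ∈ B.V0) (i : Fin n) :
    ∑ j, ⟪B.φ i x, B.φ j x⟫ • fderiv ℝ B.ξ x (ee j) =
      ∑ l, ⟪fderiv ℝ B.ξ x (ee l), B.φ i x⟫ • B.φ l x := by
  apply B.ext' hx
  · intro k
    rw [sum_inner, sum_inner]
    simp only [real_inner_smul_left, B.b1 x hx.1]
    simp only [mul_ite, mul_one, mul_zero, Finset.sum_ite_eq', Finset.mem_univ, if_true]
    conv_rhs => rw [← B.φexp hx i]
    rw [inner_sum]
    refine Finset.sum_congr rfl fun j _ => ?_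
    rw [real_inner_smul_right, B.symc hx]
  · rw [sum_inner, sum_inner]
    simp only [real_inner_smul_left, B.Dξξ hx, B.φξ hx]
    simp

/-- Codazzi trace identity. -/
theorem codazzi {x : Eu n} (hx : x ∈ B.V0) (v : Eu n) :
    ∑ i, ∑ j, ⟪B.φ i x, B.φ j x⟫ * ⟪fderiv ℝ (fderiv ℝ B.ξ) x (ee i) (ee j), fderiv ℝ B.f x v⟫ +
      ∑ j, B.A x j * ⟪fderiv ℝ B.ξ x (ee j), fderiv ℝ B.f x v⟫ = -fderiv ℝ B.h x v := by
  have hV := B.V0_open
  -- derivative of the symmetry relation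
  have h1 : ∀ i j, ⟪fderiv ℝ (fderiv ℝ B.ξ) x (ee i) (ee j), fderiv ℝ B.f x v⟫ =
      ⟪fderiv ℝ (fderiv ℝ B.ξ) x (ee i) v, fderiv ℝ B.f x (ee j)⟫ +
      ⟪fderiv ℝ B.ξ x v, fderiv ℝ (fderiv ℝ B.f) x (ee i) (ee j)⟫ -
      ⟪fderiv ℝ B.ξ x (ee j), fderiv ℝ (fderiv ℝ B.f) x (ee i) v⟫ := by
    intro i j
    have h2 : fderiv ℝ (fun y => ⟪fderiv ℝ B.ξ y (ee j), fderiv ℝ B.f y v⟫) x =
        fderiv ℝ (fun y => ⟪fderiv ℝ B.ξ y v, fderiv ℝ B.f y (ee j)⟫) x :=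
      fd_congr hV (fun y hy => B.symc hy _ _) hx
    have h3 := fd_inner hV (sm_apply_const hV B.sξ (ee j)) (sm_apply_const hV B.sf0 v) hx (ee i)
    have h4 := fd_inner hV (sm_apply_const hV B.sξ v) (sm_apply_const hV B.sf0 (ee j)) hx (ee i)
    rw [h2, h4] at h3
    rw [fd_apply_const hV B.sξ hx, fd_apply_const hV B.sξ hx, fd_apply_const hV B.sf0 hx,
      fd_apply_const hV B.sf0 hx] at h3
    linarith
  -- derivative of the trace
  have h5 : fderiv ℝ B.h x v = -∑ i, (⟪fderiv ℝ B.ξ x (ee i), fderiv ℝ (B.φ i) x v⟫ +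
      ⟪fderiv ℝ (fderiv ℝ B.ξ) x (ee i) v, B.φ i x⟫) := by
    have h6 : fderiv ℝ B.h x =
        fderiv ℝ (fun y => -∑ i, ⟪fderiv ℝ B.ξ y (ee i), B.φ i y⟫) x :=
      fd_congr hV (fun y hy => B.trS hy) hx
    rw [h6, fderiv_fun_neg, fderiv_fun_sum (A := fun i y => ⟪fderiv ℝ B.ξ y (ee i), B.φ i y⟫)
      (fun i _ => diffAt hV (sm_inner (sm_apply_const hV B.sξ (ee i)) (B.sφ0 i)) hx)]
    rw [_root_.neg_apply, _root_.sum_apply]
    congr 1
    refine Finset.sum_congr rfl fun i _ => ?_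
    rw [fd_inner hV (sm_apply_const hV B.sξ (ee i)) (B.sφ0 i) hx, fd_apply_const hV B.sξ hx,
      symm2 hV B.sξ hx]
  -- the three sums
  have h7 : ∑ i, ∑ j, ⟪B.φ i x, B.φ j x⟫ *
      ⟪fderiv ℝ (fderiv ℝ B.ξ) x (ee i) v, fderiv ℝ B.f x (ee j)⟫ =
      ∑ i, ⟪fderiv ℝ (fderiv ℝ B.ξ) x (ee i) v, B.φ i x⟫ := by
    refine Finset.sum_congr rfl fun i _ => ?_
    conv_rhs => rw [← B.φexp hx i]
    rw [inner_sum]
    refine Finset.sum_congr rfl fun j _ => ?_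
    rw [real_inner_smul_right]
  have h8 : ∑ i, ∑ j, ⟪B.φ i x, B.φ j x⟫ *
      ⟪fderiv ℝ B.ξ x v, fderiv ℝ (fderiv ℝ B.f) x (ee i) (ee j)⟫ +
      ∑ j, B.A x j * ⟪fderiv ℝ B.ξ x (ee j), fderiv ℝ B.f x v⟫ = 0 := by
    have h9 : ⟪fderiv ℝ B.ξ x v, B.τ x⟫ = 0 := by
      rw [B.τeq hx, real_inner_smul_right, B.Dξξ hx, mul_zero]
    rw [B.b3 x hx.1, inner_add_right, inner_sum, inner_sum] at h9
    rw [← h9]
    congr 1
    · refine Finset.sum_congr rfl fun i _ => ?_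
      rw [inner_sum]
      refine Finset.sum_congr rfl fun j _ => ?_
      rw [real_inner_smul_right]
    · refine Finset.sum_congr rfl fun j _ => ?_
      rw [real_inner_smul_right, B.symc hx]
  have h10 : ∑ i, ∑ j, ⟪B.φ i x, B.φ j x⟫ *
      ⟪fderiv ℝ B.ξ x (ee j), fderiv ℝ (fderiv ℝ B.f) x (ee i) v⟫ =
      -∑ i, ⟪fderiv ℝ B.ξ x (ee i), fderiv ℝ (B.φ i) x v⟫ := by
    have e1 : ∑ i, ∑ j, ⟪B.φ i x, B.φ j x⟫ *
        ⟪fderiv ℝ B.ξ x (ee j), fderiv ℝ (fderiv ℝ B.f) x (ee i) v⟫ =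
        ∑ i, ∑ l, ⟪fderiv ℝ B.ξ x (ee l), B.φ i x⟫ *
          ⟪B.φ l x, fderiv ℝ (fderiv ℝ B.f) x (ee i) v⟫ := by
      refine Finset.sum_congr rfl fun i _ => ?_
      have := congrArg (fun z => ⟪z, fderiv ℝ (fderiv ℝ B.f) x (ee i) v⟫) (B.ηexp hx i)
      simp only [sum_inner, real_inner_smul_left] at this
      exact this
    have e2 : ∀ i, ⟪fderiv ℝ B.ξ x (ee i), fderiv ℝ (B.φ i) x v⟫ =
        -∑ l, ⟪fderiv ℝ B.ξ x (ee i), B.φ l x⟫ *
          ⟪B.φ i x, fderiv ℝ (fderiv ℝ B.f) x (ee l) v⟫ := by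
      intro i
      conv_lhs => arg 2; rw [B.expand hx (fderiv ℝ B.ξ x (ee i))]
      rw [real_inner_comm (fderiv ℝ B.ξ x (ee i)) (B.ξ x), B.Dξξ hx, zero_smul, add_zero,
        sum_inner, ← Finset.sum_neg_distrib]
      refine Finset.sum_congr rfl fun l _ => ?_
      rw [real_inner_smul_left, real_inner_comm (fderiv ℝ (B.φ i) x v), B.Dφ hx,
        symm2 hV B.sf0 hx, real_inner_comm (B.φ l x)]
      ring
    rw [e1]
    simp only [e2, Finset.sum_neg_distrib, neg_neg]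
    rw [Finset.sum_comm]
  calc ∑ i, ∑ j, ⟪B.φ i x, B.φ j x⟫ *
          ⟪fderiv ℝ (fderiv ℝ B.ξ) x (ee i) (ee j), fderiv ℝ B.f x v⟫ +
        ∑ j, B.A x j * ⟪fderiv ℝ B.ξ x (ee j), fderiv ℝ B.f x v⟫
      = ∑ i, ∑ j, ⟪B.φ i x, B.φ j x⟫ *
          ⟪fderiv ℝ (fderiv ℝ B.ξ) x (ee i) v, fderiv ℝ B.f x (ee j)⟫ +
        (∑ i, ∑ j, ⟪B.φ i x, B.φ j x⟫ *
          ⟪fderiv ℝ B.ξ x v, fderiv ℝ (fderiv ℝ B.f) x (ee i) (ee j)⟫ +
          ∑ j, B.A x j * ⟪fderiv ℝ B.ξ x (ee j), fderiv ℝ B.f x v⟫) -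
        ∑ i, ∑ j, ⟪B.φ i x, B.φ j x⟫ *
          ⟪fderiv ℝ B.ξ x (ee j), fderiv ℝ (fderiv ℝ B.f) x (ee i) v⟫ := by
        simp only [h1, mul_add, mul_sub, Finset.sum_add_distrib, Finset.sum_sub_distrib]
        ring
    _ = -fderiv ℝ B.h x v := by
        rw [h7, h8, h10, h5, Finset.sum_add_distrib]
        ring

end Base

end Helper772Chen
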