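import Mathlib
import Pool.Agent.Helper772_Chen.Geo2

set_option autoImplicit false

open Set Filter Topology
open scoped RealInnerProductSpace ContDiff

namespace Helper772Chen

namespace Base

variable {n : ℕ} (B : Base n (n + 1))

theorem Dτ {x : Eu n} (hx : x ∈ B.V0) (v : Eu n) :
    fderiv ℝ B.τ x v = B.h x • fderiv ℝ B.ξ x v + fderiv ℝ B.h x v • B.ξ x := by
  have h1 : fderiv ℝ B.τ x = fderiv ℝ (fun y => B.h y • B.ξ y) x :=
    fd_congr B.V0_open (fun y hy => B.τeq hy) hx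
  rw [h1, fd_smul B.V0_open B.sh B.sξ hx]

theorem D2τ {x : Eu n} (hx : x ∈ B.V0) (u v : Eu n) :
    fderiv ℝ (fderiv ℝ B.τ) x u v =
      B.h x • fderiv ℝ (fderiv ℝ B.ξ) x u v + fderiv ℝ B.h x u • fderiv ℝ B.ξ x v +
      (fderiv ℝ B.h x v • fderiv ℝ B.ξ x u + fderiv ℝ (fderiv ℝ B.h) x u v • B.ξ x) := by
  have hV := B.V0_open
  have sτ0 : ContDiffOn ℝ ∞ B.τ B.V0 := B.sτ.mono inter_subset_left
  rw [← fd_apply_const hV sτ0 hx]
  have h1 : fderiv ℝ (fun y => fderiv ℝ B.τ y v) x =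
      fderiv ℝ (fun y => B.h y • fderiv ℝ B.ξ y v + fderiv ℝ B.h y v • B.ξ y) x :=
    fd_congr hV (fun y hy => B.Dτ hy v) hx
  have s1 : ContDiffOn ℝ ∞ (fun y => B.h y • fderiv ℝ B.ξ y v) B.V0 :=
    B.sh.smul (sm_apply_const hV B.sξ v)
  have s2 : ContDiffOn ℝ ∞ (fun y => fderiv ℝ B.h y v • B.ξ y) B.V0 :=
    (sm_apply_const hV B.sh v).smul B.sξ
  rw [h1, fderiv_fun_add (diffAt hV s1 hx) (diffAt hV s2 hx), _root_.add_apply]
  have h2 := fd_smul hV B.sh (sm_apply_const hV B.sξ v) hx u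
  have h3 := fd_smul hV (sm_apply_const hV B.sh v) B.sξ hx u
  rw [fd_apply_const hV B.sξ hx] at h2
  rw [fd_apply_const hV B.sh hx] at h3
  exact congrArg₂ (· + ·) h2 h3

/-- gradient field -/
noncomputable def G (x : Eu n) : Eu (n + 1) := ∑ j, fderiv ℝ B.h x (ee j) • B.φ j x

theorem sG : ContDiffOn ℝ ∞ B.G B.V0 :=
  ContDiffOn.sum fun j _ => (sm_apply_const B.V0_open B.sh (ee j)).smul (B.sφ0 j)

theorem Gξ {x : Eu n} (hx : x ∈ B.V0) : ⟪B.G x, B.ξ x⟫ = 0 := by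
  rw [G, sum_inner]
  refine Finset.sum_eq_zero fun j _ => ?_
  rw [real_inner_smul_left, B.φξ hx, mul_zero]

theorem dh {x : Eu n} (hx : x ∈ B.V0) (v : Eu n) :
    fderiv ℝ B.h x v = ⟪B.G x, fderiv ℝ B.f x v⟫ := by
  have key : ∀ k, fderiv ℝ B.h x (ee k) = ⟪B.G x, fderiv ℝ B.f x (ee k)⟫ := by
    intro k
    rw [G, sum_inner]
    simp only [real_inner_smul_left, B.b1 x hx.1]
    simp
  conv_lhs => rw [eu_sum v]
  conv_rhs => rw [eu_sum v]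
  rw [map_sum, map_sum, inner_sum]
  refine Finset.sum_congr rfl fun j _ => ?_
  rw [map_smul, map_smul, real_inner_smul_right, key j, smul_eq_mul]

theorem D2ξξ {x : Eu n} (hx : x ∈ B.V0) (u v : Eu n) :
    ⟪fderiv ℝ (fderiv ℝ B.ξ) x u v, B.ξ x⟫ = -⟪fderiv ℝ B.ξ x u, fderiv ℝ B.ξ x v⟫ := by
  have hV := B.V0_open
  have h1 : fderiv ℝ (fun y => ⟪fderiv ℝ B.ξ y v, B.ξ y⟫) x = fderiv ℝ (fun _ => (0 : ℝ)) x :=
    fd_congr hV (fun y hy => B.Dξξ hy v) hx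
  have h2 := fd_inner hV (sm_apply_const hV B.sξ v) B.sξ hx u
  rw [h1, fd_apply_const hV B.sξ hx] at h2
  simp only [fderiv_fun_const, Pi.zero_apply, _root_.zero_apply] at h2
  rw [real_inner_comm (fderiv ℝ B.ξ x v)]
  linarith

/-- tangential part of `Δτ = 0` -/
theorem F3 {x : Eu n} (hx : x ∈ B.V0) (v : Eu n) :
    2 * ⟪fderiv ℝ B.ξ x v, B.G x⟫ = B.h x * fderiv ℝ B.h x v := by
  have h1 : ⟪∑ i, ∑ j, ⟪B.φ i x, B.φ j x⟫ • fderiv ℝ (fderiv ℝ B.τ) x (ee i) (ee j) +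
    ∑ j, B.A x j • fderiv ℝ B.τ x (ee j), fderiv ℝ B.f x v⟫ = 0 := by
    rw [B.b4 x hx.1, inner_zero_left]
  have e1 : ∑ i, ∑ j, ⟪B.φ i x, B.φ j x⟫ *
      (fderiv ℝ B.h x (ee i) * ⟪fderiv ℝ B.ξ x (ee j), fderiv ℝ B.f x v⟫) =
      ⟪fderiv ℝ B.ξ x v, B.G x⟫ := by
    rw [G, inner_sum]
    refine Finset.sum_congr rfl fun i _ => ?_
    conv_rhs => rw [← B.φexp hx i]
    rw [real_inner_smul_right, inner_sum, Finset.mul_sum]
    refine Finset.sum_congr rfl fun j _ => ?_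
    rw [real_inner_smul_right, B.symc hx]
    ring
  have e2 : ∑ i, ∑ j, ⟪B.φ i x, B.φ j x⟫ *
      (fderiv ℝ B.h x (ee j) * ⟪fderiv ℝ B.ξ x (ee i), fderiv ℝ B.f x v⟫) =
      ⟪fderiv ℝ B.ξ x v, B.G x⟫ := by
    rw [← e1, Finset.sum_comm]
    refine Finset.sum_congr rfl fun i _ => Finset.sum_congr rfl fun j _ => ?_
    rw [real_inner_comm]
  have e3 := B.codazzi hx v
  rw [inner_add_left, sum_inner, sum_inner] at h1
  have e4 : ∀ i, ⟪∑ j, ⟪B.φ i x, B.φ j x⟫ • fderiv ℝ (fderiv ℝ B.τ) x (ee i) (ee j),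
      fderiv ℝ B.f x v⟫ =
      B.h x * ∑ j, ⟪B.φ i x, B.φ j x⟫ *
        ⟪fderiv ℝ (fderiv ℝ B.ξ) x (ee i) (ee j), fderiv ℝ B.f x v⟫ +
      ∑ j, ⟪B.φ i x, B.φ j x⟫ *
        (fderiv ℝ B.h x (ee i) * ⟪fderiv ℝ B.ξ x (ee j), fderiv ℝ B.f x v⟫) +
      ∑ j, ⟪B.φ i x, B.φ j x⟫ *
        (fderiv ℝ B.h x (ee j) * ⟪fderiv ℝ B.ξ x (ee i), fderiv ℝ B.f x v⟫) := by
    intro i
    rw [sum_inner, Finset.mul_sum, ← Finset.sum_add_distrib, ← Finset.sum_add_distrib]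
    refine Finset.sum_congr rfl fun j _ => ?_
    rw [B.D2τ hx, real_inner_smul_left, inner_add_left, inner_add_left, inner_add_left,
      real_inner_smul_left, real_inner_smul_left, real_inner_smul_left, real_inner_smul_left,
      B.ξf hx]
    ring
  have e5 : ∀ j, ⟪B.A x j • fderiv ℝ B.τ x (ee j), fderiv ℝ B.f x v⟫ =
      B.h x * (B.A x j * ⟪fderiv ℝ B.ξ x (ee j), fderiv ℝ B.f x v⟫) := by
    intro j
    rw [B.Dτ hx, real_inner_smul_left, inner_add_left, real_inner_smul_left,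
      real_inner_smul_left, B.ξf hx]
    ring
  simp only [e4, e5, Finset.sum_add_distrib, ← Finset.mul_sum] at h1
  rw [e1, e2] at h1
  have e6 : B.h x * ∑ i, ∑ j, ⟪B.φ i x, B.φ j x⟫ *
        ⟪fderiv ℝ (fderiv ℝ B.ξ) x (ee i) (ee j), fderiv ℝ B.f x v⟫ +
      B.h x * ∑ j, B.A x j * ⟪fderiv ℝ B.ξ x (ee j), fderiv ℝ B.f x v⟫ =
      -(B.h x * fderiv ℝ B.h x v) := by
    rw [← mul_add, e3]
    ring
  linarith

/-- normal part of `Δτ = 0` -/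
theorem F2 {x : Eu n} (hx : x ∈ B.V0) :
    ∑ i, ∑ j, ⟪B.φ i x, B.φ j x⟫ * fderiv ℝ (fderiv ℝ B.h) x (ee i) (ee j) +
      ∑ j, B.A x j * fderiv ℝ B.h x (ee j) =
    B.h x * ∑ i, ∑ j, ⟪B.φ i x, B.φ j x⟫ * ⟪fderiv ℝ B.ξ x (ee i), fderiv ℝ B.ξ x (ee j)⟫ := by
  have h1 : ⟪∑ i, ∑ j, ⟪B.φ i x, B.φ j x⟫ • fderiv ℝ (fderiv ℝ B.τ) x (ee i) (ee j) +
    ∑ j, B.A x j • fderiv ℝ B.τ x (ee j), B.ξ x⟫ = 0 := by
    rw [B.b4 x hx.1, inner_zero_left]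
  rw [inner_add_left, sum_inner, sum_inner] at h1
  have e4 : ∀ i, ⟪∑ j, ⟪B.φ i x, B.φ j x⟫ • fderiv ℝ (fderiv ℝ B.τ) x (ee i) (ee j), B.ξ x⟫ =
      ∑ j, ⟪B.φ i x, B.φ j x⟫ * fderiv ℝ (fderiv ℝ B.h) x (ee i) (ee j) -
      B.h x * ∑ j, ⟪B.φ i x, B.φ j x⟫ * ⟪fderiv ℝ B.ξ x (ee i), fderiv ℝ B.ξ x (ee j)⟫ := by
    intro i
    rw [sum_inner, Finset.mul_sum, ← Finset.sum_sub_distrib]
    refine Finset.sum_congr rfl fun j _ => ?_
    rw [B.D2τ hx, real_inner_smul_left, inner_add_left, inner_add_left, inner_add_left,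
      real_inner_smul_left, real_inner_smul_left, real_inner_smul_left, real_inner_smul_left,
      B.D2ξξ hx, B.Dξξ hx, B.Dξξ hx, B.ξξ hx]
    ring
  have e5 : ∀ j, ⟪B.A x j • fderiv ℝ B.τ x (ee j), B.ξ x⟫ =
      B.A x j * fderiv ℝ B.h x (ee j) := by
    intro j
    rw [B.Dτ hx, real_inner_smul_left, inner_add_left, real_inner_smul_left,
      real_inner_smul_left, B.ξξ hx, B.Dξξ hx]
    ring
  simp only [e4, e5, Finset.sum_sub_distrib, ← Finset.mul_sum] at h1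
  linarith

theorem A_eq {x : Eu n} (hx : x ∈ B.V0) (j : Fin n) :
    B.A x j = ∑ i, ⟪fderiv ℝ (B.φ j) x (ee i), B.φ i x⟫ := by
  have h1 : ⟪B.τ x, B.φ j x⟫ = 0 := by
    rw [B.τeq hx, real_inner_smul_left, real_inner_comm, B.φξ hx, mul_zero]
  rw [B.b3 x hx.1, inner_add_left, sum_inner, sum_inner] at h1
  have e1 : ∑ i, ⟪B.A x i • fderiv ℝ B.f x (ee i), B.φ j x⟫ = B.A x j := by
    have e0 : ∀ i, ⟪B.A x i • fderiv ℝ B.f x (ee i), B.φ j x⟫ = if j = i then B.A x i else 0 := by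
      intro i
      rw [real_inner_smul_left, real_inner_comm, B.b1 x hx.1]
      split_ifs <;> simp
    simp [e0]
  have e2 : ∀ i, ⟪∑ k, ⟪B.φ i x, B.φ k x⟫ • fderiv ℝ (fderiv ℝ B.f) x (ee i) (ee k), B.φ j x⟫ =
      -⟪fderiv ℝ (B.φ j) x (ee i), B.φ i x⟫ := by
    intro i
    conv_rhs => rw [← B.φexp hx i]
    rw [sum_inner, inner_sum, ← Finset.sum_neg_distrib]
    refine Finset.sum_congr rfl fun k _ => ?_
    rw [real_inner_smul_left, real_inner_smul_right, B.Dφ hx, real_inner_comm (B.φ j x)]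
    ring
  rw [e1] at h1
  simp only [e2, Finset.sum_neg_distrib] at h1
  linarith

theorem normsq {x : Eu n} (hx : x ∈ B.V0) :
    ∑ i, ∑ j, ⟪B.φ i x, B.φ j x⟫ * ⟪fderiv ℝ B.ξ x (ee i), fderiv ℝ B.ξ x (ee j)⟫ =
    ∑ j, ∑ l, ⟪fderiv ℝ B.ξ x (ee l), B.φ j x⟫ * ⟪B.φ l x, fderiv ℝ B.ξ x (ee j)⟫ := by
  refine Finset.sum_congr rfl fun i _ => ?_
  have := congrArg (fun z => ⟪z, fderiv ℝ B.ξ x (ee i)⟫) (B.ηexp hx i)
  simp only [sum_inner, real_inner_smul_left] at this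
  rw [← this]
  refine Finset.sum_congr rfl fun j _ => ?_
  rw [real_inner_comm (fderiv ℝ B.ξ x (ee i))]

/-- the trace form of the normal part -/
theorem F2' {x : Eu n} (hx : x ∈ B.V0) :
    ∑ i, ⟪fderiv ℝ B.G x (ee i), B.φ i x⟫ =
    B.h x * ∑ j, ∑ l, ⟪fderiv ℝ B.ξ x (ee l), B.φ j x⟫ * ⟪B.φ l x, fderiv ℝ B.ξ x (ee j)⟫ := by
  rw [← B.normsq hx, ← B.F2 hx]
  have hV := B.V0_open
  have h1 : ∀ i, ⟪fderiv ℝ B.G x (ee i), B.φ i x⟫ =
      ∑ j, ⟪B.φ i x, B.φ j x⟫ * fderiv ℝ (fderiv ℝ B.h) x (ee i) (ee j) +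
      ∑ j, fderiv ℝ B.h x (ee j) * ⟪fderiv ℝ (B.φ j) x (ee i), B.φ i x⟫ := by
    intro i
    have h2 : fderiv ℝ B.G x (ee i) = ∑ j, (fderiv ℝ B.h x (ee j) • fderiv ℝ (B.φ j) x (ee i) +
        fderiv ℝ (fderiv ℝ B.h) x (ee i) (ee j) • B.φ j x) := by
      have h3 : fderiv ℝ B.G x = fderiv ℝ (fun y => ∑ j, fderiv ℝ B.h y (ee j) • B.φ j y) x := rfl
      rw [h3, fderiv_fun_sum (A := fun j y => fderiv ℝ B.h y (ee j) • B.φ j y)
        (fun j _ => diffAt hV ((sm_apply_const hV B.sh (ee j)).smul (B.sφ0 j)) hx),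
        _root_.sum_apply]
      refine Finset.sum_congr rfl fun j _ => ?_
      have h4 := fd_smul hV (sm_apply_const hV B.sh (ee j)) (B.sφ0 j) hx (ee i)
      rw [fd_apply_const hV B.sh hx] at h4
      exact h4
    rw [h2, sum_inner, ← Finset.sum_add_distrib]
    refine Finset.sum_congr rfl fun j _ => ?_
    rw [inner_add_left, real_inner_smul_left, real_inner_smul_left,
      real_inner_comm (B.φ i x) (B.φ j x)]
    ring
  simp only [h1, Finset.sum_add_distrib]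
  congr 1
  rw [Finset.sum_comm]
  refine Finset.sum_congr rfl fun j _ => ?_
  rw [B.A_eq hx, ← Finset.mul_sum]
  ring

/-- if the gradient vanishes on the open set `V0` then `V0` is empty -/
theorem exists_grad {x0 : Eu n} (hx0 : x0 ∈ B.V0) : ∃ x ∈ B.V0, B.G x ≠ 0 := by
  by_contra hcon
  push Not at hcon
  have hV := B.V0_open
  have h1 : fderiv ℝ B.G x0 = 0 := by
    rw [fd_congr hV (u := B.G) (v := fun _ => 0) hcon hx0]
    simp
  have h2 := B.F2' hx0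
  rw [h1, ← B.normsq hx0] at h2
  simp only [_root_.zero_apply, inner_zero_left, Finset.sum_const_zero] at h2
  have h3 : ∑ i, ∑ j, ⟪B.φ i x0, B.φ j x0⟫ *
      ⟪fderiv ℝ B.ξ x0 (ee i), fderiv ℝ B.ξ x0 (ee j)⟫ = 0 := by
    rcases mul_eq_zero.1 h2.symm with h | h
    · exact absurd h (B.hpos hx0).ne'
    · exact h
  -- write as a sum of squares
  have h4 : ∑ i, ∑ j, ⟪B.φ i x0, B.φ j x0⟫ *
      ⟪fderiv ℝ B.ξ x0 (ee i), fderiv ℝ B.ξ x0 (ee j)⟫ =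
      ∑ a, ∑ b, (∑ i, B.φ i x0 a * fderiv ℝ B.ξ x0 (ee i) b) ^ 2 := by
    have e1 : ∀ u v : Eu (n + 1), ⟪u, v⟫ = ∑ a, u a * v a := by
      intro u v
      rw [PiLp.inner_apply]
      refine Finset.sum_congr rfl fun a _ => ?_
      simp [mul_comm]
    simp only [e1, sq, Finset.sum_mul_sum]
    have e2 : ∀ i j, ∑ a, ∑ b, B.φ i x0 a * B.φ j x0 a *
        (fderiv ℝ B.ξ x0 (ee i) b * fderiv ℝ B.ξ x0 (ee j) b) =
        ∑ a, ∑ b, B.φ i x0 a * fderiv ℝ B.ξ x0 (ee i) b *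
          (B.φ j x0 a * fderiv ℝ B.ξ x0 (ee j) b) := fun i j =>
      Finset.sum_congr rfl fun a _ => Finset.sum_congr rfl fun b _ => by ring
    simp only [e2]
    calc ∑ i, ∑ j, ∑ a, ∑ b, B.φ i x0 a * fderiv ℝ B.ξ x0 (ee i) b *
          (B.φ j x0 a * fderiv ℝ B.ξ x0 (ee j) b)
        = ∑ i, ∑ a, ∑ j, ∑ b, B.φ i x0 a * fderiv ℝ B.ξ x0 (ee i) b *
          (B.φ j x0 a * fderiv ℝ B.ξ x0 (ee j) b) := by
          refine Finset.sum_congr rfl fun i _ => ?_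
          rw [Finset.sum_comm]
      _ = ∑ a, ∑ i, ∑ j, ∑ b, B.φ i x0 a * fderiv ℝ B.ξ x0 (ee i) b *
          (B.φ j x0 a * fderiv ℝ B.ξ x0 (ee j) b) := by
          rw [Finset.sum_comm]
      _ = ∑ a, ∑ b, ∑ i, ∑ j, B.φ i x0 a * fderiv ℝ B.ξ x0 (ee i) b *
          (B.φ j x0 a * fderiv ℝ B.ξ x0 (ee j) b) := by
          refine Finset.sum_congr rfl fun a _ => ?_
          calc ∑ i, ∑ j, ∑ b, B.φ i x0 a * fderiv ℝ B.ξ x0 (ee i) b *
                (B.φ j x0 a * fderiv ℝ B.ξ x0 (ee j) b)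
              = ∑ i, ∑ b, ∑ j, B.φ i x0 a * fderiv ℝ B.ξ x0 (ee i) b *
                (B.φ j x0 a * fderiv ℝ B.ξ x0 (ee j) b) := by
                refine Finset.sum_congr rfl fun i _ => ?_
                rw [Finset.sum_comm]
            _ = _ := by rw [Finset.sum_comm]
  rw [h4] at h3
  have h5 : ∀ a b, ∑ i, B.φ i x0 a * fderiv ℝ B.ξ x0 (ee i) b = 0 := by
    intro a b
    have h6 := (Finset.sum_eq_zero_iff_of_nonneg (fun a _ => Finset.sum_nonneg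
      fun b _ => sq_nonneg (∑ i, B.φ i x0 a * fderiv ℝ B.ξ x0 (ee i) b))).1 h3 a
      (Finset.mem_univ a)
    have h7 := (Finset.sum_eq_zero_iff_of_nonneg
      (fun b _ => sq_nonneg (∑ i, B.φ i x0 a * fderiv ℝ B.ξ x0 (ee i) b))).1 h6 b
      (Finset.mem_univ b)
    exact pow_eq_zero_iff (two_ne_zero) |>.1 h7
  have h8 : B.h x0 = 0 := by
    rw [B.trS hx0]
    have e1 : ∀ u v : Eu (n + 1), ⟪u, v⟫ = ∑ a, v a * u a := by
      intro u v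
      rw [PiLp.inner_apply]
      refine Finset.sum_congr rfl fun a _ => ?_
      simp
    simp only [e1]
    rw [Finset.sum_comm]
    simp only [h5]
    simp
  exact (B.hpos hx0).ne' h8

end Base

end Helper772Chen
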