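import Mathlib
import Pool.Agent.Helper772_Chen.Geo3

set_option autoImplicit false

open Set Filter Topology
open scoped RealInnerProductSpace ContDiff

namespace Helper772Chen

/-- the coordinate left inverse of the differential -/
noncomputable def JJ {n m : ℕ} (φ : Fin n → Eu n → Eu m) (x : Eu n) : Eu m →L[ℝ] Eu n :=
  ∑ i, (innerSL ℝ (φ i x)).smulRight (ee i)

theorem JJ_apply {n m : ℕ} (φ : Fin n → Eu n → Eu m) (x : Eu n) (w : Eu m) :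
    JJ φ x w = ∑ i, ⟪φ i x, w⟫ • ee i := by
  rw [JJ, _root_.sum_apply]
  rfl

theorem map_JJ {n m : ℕ} {G : Type*} [NormedAddCommGroup G] [NormedSpace ℝ G]
    (φ : Fin n → Eu n → Eu m) (x : Eu n) (T : Eu n →L[ℝ] G) (w : Eu m) :
    T (JJ φ x w) = ∑ i, ⟪φ i x, w⟫ • T (ee i) := by
  rw [JJ_apply, map_sum]
  simp only [map_smul]

theorem sm_JJ {n m : ℕ} {φ : Fin n → Eu n → Eu m} {V : Set (Eu n)}
    (hφ : ∀ i, ContDiffOn ℝ ∞ (φ i) V) : ContDiffOn ℝ ∞ (fun x => JJ φ x) V := by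
  refine ContDiffOn.sum fun i _ => ?_
  exact ((innerSL ℝ).contDiff.comp_contDiffOn (hφ i)).smulRight contDiffOn_const

/-- The data used along the integral curves of the gradient. -/
structure Core (n : ℕ) where
  V : Set (Eu n)
  hV : IsOpen V
  f : Eu n → Eu (n + 1)
  ξ : Eu n → Eu (n + 1)
  E1 : Eu n → Eu (n + 1)
  φ : Fin n → Eu n → Eu (n + 1)
  h : Eu n → ℝ
  ρ : Eu n → ℝ
  sf : ContDiffOn ℝ ∞ f V
  sξ : ContDiffOn ℝ ∞ ξ V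
  sE : ContDiffOn ℝ ∞ E1 V
  sφ : ∀ i, ContDiffOn ℝ ∞ (φ i) V
  sh : ContDiffOn ℝ ∞ h V
  sρ : ContDiffOn ℝ ∞ ρ V
  s1 : ∀ x ∈ V, ⟪ξ x, ξ x⟫ = 1
  s2 : ∀ x ∈ V, ∀ v, ⟪ξ x, fderiv ℝ f x v⟫ = 0
  s3 : ∀ x ∈ V, ∀ i j, ⟪φ i x, fderiv ℝ f x (ee j)⟫ = if i = j then 1 else 0
  s4 : ∀ x ∈ V, ∀ i, ⟪φ i x, ξ x⟫ = 0
  s5 : ∀ x ∈ V, ∀ w, w = ∑ i, ⟪φ i x, w⟫ • fderiv ℝ f x (ee i) + ⟪ξ x, w⟫ • ξ x
  s6 : ∀ x ∈ V, ⟪E1 x, E1 x⟫ = 1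
  s6' : ∀ x ∈ V, ⟪E1 x, ξ x⟫ = 0
  symc : ∀ x ∈ V, ∀ u v, ⟪fderiv ℝ ξ x u, fderiv ℝ f x v⟫ = ⟪fderiv ℝ ξ x v, fderiv ℝ f x u⟫
  Dξξ : ∀ x ∈ V, ∀ v, ⟪fderiv ℝ ξ x v, ξ x⟫ = 0
  s7 : ∀ x ∈ V, fderiv ℝ ξ x (JJ φ x (E1 x)) = (h x / 2) • E1 x
  s8 : ∀ x ∈ V, ∀ v, fderiv ℝ h x v = ρ x * ⟪E1 x, fderiv ℝ f x v⟫
  s8' : ∀ x ∈ V, ρ x ≠ 0
  s9 : ∀ x ∈ V, h x = -∑ i, ⟪fderiv ℝ ξ x (ee i), φ i x⟫
  s10 : ∀ x ∈ V, ∑ i, ⟪fderiv ℝ (fun y => ρ y • E1 y) x (ee i), φ i x⟫ =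
    h x * ∑ j, ∑ l, ⟪fderiv ℝ ξ x (ee l), φ j x⟫ * ⟪φ l x, fderiv ℝ ξ x (ee j)⟫
  s11 : ∀ x ∈ V, h x ≠ 0

theorem exists_core {n : ℕ} (B : Base n (n + 1)) {x0 : Eu n} (hx0 : x0 ∈ B.V0) :
    ∃ C : Core n, C.V.Nonempty := by
  obtain ⟨x1, hx1, hG1⟩ := B.exists_grad hx0
  set V : Set (Eu n) := B.V0 ∩ B.G ⁻¹' {0}ᶜ with hVdef
  have hV : IsOpen V := B.sG.continuousOn.isOpen_inter_preimage B.V0_open isOpen_compl_singleton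
  have hsub : V ⊆ B.V0 := inter_subset_left
  set ρ : Eu n → ℝ := fun x => ‖B.G x‖ with hρ
  set E1 : Eu n → Eu (n + 1) := fun x => (ρ x)⁻¹ • B.G x with hE1
  have hρ0 : ∀ x ∈ V, ρ x ≠ 0 := fun x hx => (norm_pos_iff.2 hx.2).ne'
  have sρ : ContDiffOn ℝ ∞ ρ V := (B.sG.mono hsub).norm ℝ fun _ hx => hx.2
  have sE : ContDiffOn ℝ ∞ E1 V := (sρ.inv hρ0).smul (B.sG.mono hsub)
  have hGE : ∀ x ∈ V, ρ x • E1 x = B.G x := by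
    intro x hx
    simp only [hE1]
    rw [smul_smul, mul_inv_cancel₀ (hρ0 x hx), one_smul]
  refine ⟨⟨V, hV, B.f, B.ξ, E1, B.φ, B.h, ρ, B.sf0.mono hsub, B.sξ.mono hsub, sE,
    fun i => (B.sφ0 i).mono hsub, B.sh.mono hsub, sρ, fun x hx => B.ξξ (hsub hx),
    fun x hx => B.ξf (hsub hx), fun x hx => B.b1 x (hsub hx).1, fun x hx => B.φξ (hsub hx),
    fun x hx => B.expand (hsub hx), ?_, ?_, fun x hx => B.symc (hsub hx),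
    fun x hx => B.Dξξ (hsub hx), ?_, ?_, hρ0, fun x hx => B.trS (hsub hx), ?_,
    fun x hx => (B.hpos (hsub hx)).ne'⟩, ⟨x1, hx1, hG1⟩⟩
  · intro x hx
    have h1 := hρ0 x hx
    simp only [hE1]
    rw [real_inner_smul_left, real_inner_smul_right, real_inner_self_eq_norm_sq]
    change (ρ x)⁻¹ * ((ρ x)⁻¹ * ρ x ^ 2) = 1
    field_simp
  · intro x hx
    simp only [hE1]
    rw [real_inner_smul_left, B.Gξ (hsub hx), mul_zero]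
  · intro x hx
    have h0 := hsub hx
    have h1 : fderiv ℝ B.f x (JJ B.φ x (B.G x)) = B.G x := by
      rw [map_JJ]
      conv_rhs => rw [B.expand h0 (B.G x)]
      rw [real_inner_comm (B.G x) (B.ξ x), B.Gξ h0, zero_smul, add_zero]
    have h2 : fderiv ℝ B.ξ x (JJ B.φ x (B.G x)) = (B.h x / 2) • B.G x := by
      apply B.ext' h0
      · intro i
        rw [B.symc h0, h1, real_inner_smul_left, ← B.dh h0]
        have := B.F3 h0 (ee i)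
        linarith
      · rw [B.Dξξ h0, real_inner_smul_left, B.Gξ h0, mul_zero]
    simp only [hE1]
    rw [map_smul, map_smul, h2, smul_comm]
  · intro x hx v
    rw [B.dh (hsub hx), ← hGE x hx, real_inner_smul_left]
  · intro x hx
    rw [fd_congr hV hGE hx]
    exact B.F2' (hsub hx)

end Helper772Chen
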