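import Mathlib
import Pool.Agent.Helper772_Chen.Core

set_option autoImplicit false

open Set Filter Topology
open scoped RealInnerProductSpace ContDiff

namespace Helper772Chen

namespace Core

variable {n : ℕ} (C : Core n)

/-- the gradient direction in coordinates -/
noncomputable def e1 (x : Eu n) : Eu n := JJ C.φ x (C.E1 x)

/-- the left inverse -/
noncomputable abbrev J (x : Eu n) : Eu (n + 1) →L[ℝ] Eu n := JJ C.φ x

theorem sJ : ContDiffOn ℝ ∞ (fun x => JJ C.φ x) C.V := sm_JJ C.sφ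

theorem se1 : ContDiffOn ℝ ∞ C.e1 C.V := C.sJ.clm_apply C.sE

theorem df_J {x : Eu n} (hx : x ∈ C.V) (w : Eu (n + 1)) :
    fderiv ℝ C.f x (JJ C.φ x w) = w - ⟪C.ξ x, w⟫ • C.ξ x := by
  rw [map_JJ]
  conv_rhs => arg 1; rw [C.s5 x hx w]
  rw [add_sub_cancel_right]

theorem J_df {x : Eu n} (hx : x ∈ C.V) (v : Eu n) : JJ C.φ x (fderiv ℝ C.f x v) = v := by
  have key : ∀ j, JJ C.φ x (fderiv ℝ C.f x (ee j)) = ee j := by
    intro j
    rw [JJ_apply]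
    simp only [C.s3 x hx]
    simp
  conv_rhs => rw [eu_sum v]
  conv_lhs => rw [eu_sum v]
  rw [map_sum, map_sum]
  refine Finset.sum_congr rfl fun j _ => ?_
  rw [map_smul, map_smul, key]

theorem J_ξ {x : Eu n} (hx : x ∈ C.V) : JJ C.φ x (C.ξ x) = 0 := by
  rw [JJ_apply]
  simp [C.s4 x hx]

theorem ext' {x : Eu n} (hx : x ∈ C.V) {w w' : Eu (n + 1)}
    (h1 : ∀ v, ⟪w, fderiv ℝ C.f x v⟫ = ⟪w', fderiv ℝ C.f x v⟫)
    (h2 : ⟪w, C.ξ x⟫ = ⟪w', C.ξ x⟫) : w = w' := by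
  have h3 : ⟪w - w', w - w'⟫ = 0 := by
    conv_lhs => arg 3; rw [C.s5 x hx (w - w')]
    rw [inner_add_right, inner_sum]
    simp only [real_inner_smul_right, inner_sub_left (𝕜 := ℝ) w w' (fderiv ℝ C.f x _),
      inner_sub_left (𝕜 := ℝ) w w' (C.ξ x), h1, h2, sub_self, mul_zero]
    simp
  exact sub_eq_zero.1 (inner_self_eq_zero.1 h3)

theorem hb {x : Eu n} (hx : x ∈ C.V) : fderiv ℝ C.f x (C.e1 x) = C.E1 x := by
  rw [e1, C.df_J hx, real_inner_comm, C.s6' x hx, zero_smul, sub_zero]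

theorem ha {x : Eu n} (hx : x ∈ C.V) : fderiv ℝ C.ξ x (C.e1 x) = (C.h x / 2) • C.E1 x :=
  C.s7 x hx

theorem DEE {x : Eu n} (hx : x ∈ C.V) (v : Eu n) : ⟪fderiv ℝ C.E1 x v, C.E1 x⟫ = 0 := by
  have h1 : fderiv ℝ (fun y => ⟪C.E1 y, C.E1 y⟫) x = fderiv ℝ (fun _ => (1 : ℝ)) x :=
    fd_congr C.hV C.s6 hx
  have h2 := fd_inner C.hV C.sE C.sE hx v
  rw [h1] at h2
  simp only [fderiv_fun_const, Pi.zero_apply, _root_.zero_apply] at h2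
  rw [real_inner_comm] at h2
  linarith

theorem DEξ {x : Eu n} (hx : x ∈ C.V) (v : Eu n) :
    ⟪fderiv ℝ C.E1 x v, C.ξ x⟫ = -⟪fderiv ℝ C.ξ x v, C.E1 x⟫ := by
  have h1 : fderiv ℝ (fun y => ⟪C.E1 y, C.ξ y⟫) x = fderiv ℝ (fun _ => (0 : ℝ)) x :=
    fd_congr C.hV C.s6' hx
  have h2 := fd_inner C.hV C.sE C.sξ hx v
  rw [h1] at h2
  simp only [fderiv_fun_const, Pi.zero_apply, _root_.zero_apply] at h2
  rw [real_inner_comm (fderiv ℝ C.ξ x v) (C.E1 x)] at h2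
  linarith

/-- differentiated form of `df(e₁) = E₁` -/
theorem Db {x : Eu n} (hx : x ∈ C.V) (v : Eu n) :
    fderiv ℝ (fderiv ℝ C.f) x v (C.e1 x) + fderiv ℝ C.f x (fderiv ℝ C.e1 x v) =
      fderiv ℝ C.E1 x v := by
  rw [← fd_apply C.hV C.sf hx (diffAt C.hV C.se1 hx), fd_congr C.hV (fun y hy => C.hb hy) hx]

/-- differentiated form of `dξ(e₁) = (h/2) E₁` -/
theorem Da {x : Eu n} (hx : x ∈ C.V) (v : Eu n) :
    fderiv ℝ (fderiv ℝ C.ξ) x v (C.e1 x) + fderiv ℝ C.ξ x (fderiv ℝ C.e1 x v) =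
      (C.h x / 2) • fderiv ℝ C.E1 x v + (fderiv ℝ C.h x v / 2) • C.E1 x := by
  rw [← fd_apply C.hV C.sξ hx (diffAt C.hV C.se1 hx), fd_congr C.hV (fun y hy => C.ha hy) hx]
  have s2 : ContDiffOn ℝ ∞ (fun y => C.h y / 2) C.V := C.sh.div_const 2
  rw [fd_smul C.hV s2 C.sE hx]
  have h3 : fderiv ℝ (fun y => C.h y / 2) x v = fderiv ℝ C.h x v / 2 := by
    have h4 := ((diffAt C.hV C.sh hx).hasFDerivAt.mul_const (2 : ℝ)⁻¹).fderiv
    simp only [div_eq_mul_inv]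
    rw [h4, _root_.smul_apply, smul_eq_mul, mul_comm]
  rw [h3]

theorem dhe {x : Eu n} (hx : x ∈ C.V) : fderiv ℝ C.h x (C.e1 x) = C.ρ x := by
  rw [C.s8 x hx, C.hb hx, C.s6 x hx, mul_one]

theorem ξE {x : Eu n} (hx : x ∈ C.V) (v : Eu n) :
    ⟪fderiv ℝ C.ξ x v, C.E1 x⟫ = C.h x / 2 * ⟪C.E1 x, fderiv ℝ C.f x v⟫ := by
  rw [← C.hb hx, C.symc x hx, C.ha hx, real_inner_smul_left, C.hb hx]

theorem ii {x : Eu n} (hx : x ∈ C.V) (v : Eu n) :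
    ⟪fderiv ℝ C.ξ x v, fderiv ℝ C.E1 x (C.e1 x)⟫ =
      C.h x / 2 * ⟪fderiv ℝ C.E1 x (C.e1 x), fderiv ℝ C.f x v⟫ := by
  have s2 : ContDiffOn ℝ ∞ (fun y => C.h y / 2) C.V := C.sh.div_const 2
  have h1 := fd_inner C.hV (sm_apply_const C.hV C.sξ v) C.sE hx (C.e1 x)
  have h2 : fderiv ℝ (fun y => ⟪fderiv ℝ C.ξ y v, C.E1 y⟫) x =
      fderiv ℝ (fun y => (C.h y / 2) • ⟪C.E1 y, fderiv ℝ C.f y v⟫) x :=
    fd_congr C.hV (fun y hy => C.ξE hy v) hx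
  rw [h2, fd_smul C.hV s2 (sm_inner C.sE (sm_apply_const C.hV C.sf v)) hx,
    fd_inner C.hV C.sE (sm_apply_const C.hV C.sf v) hx, fd_apply_const C.hV C.sf hx,
    fd_apply_const C.hV C.sξ hx] at h1
  have h3 : fderiv ℝ (fun y => C.h y / 2) x (C.e1 x) = C.ρ x / 2 := by
    have h4 := ((diffAt C.hV C.sh hx).hasFDerivAt.mul_const (2 : ℝ)⁻¹).fderiv
    simp only [div_eq_mul_inv]
    rw [h4, _root_.smul_apply, smul_eq_mul, mul_comm, C.dhe hx]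
  rw [h3] at h1
  simp only [smul_eq_mul] at h1
  -- pair `Da` with `E₁`
  have h5 := congrArg (fun z => ⟪z, C.E1 x⟫) (C.Da hx v)
  simp only [inner_add_left, real_inner_smul_left, C.DEE hx, C.s6 x hx] at h5
  rw [C.ξE hx (fderiv ℝ C.e1 x v)] at h5
  have h6 := congrArg (fun z => ⟪C.E1 x, z⟫) (C.Db hx v)
  simp only [inner_add_right] at h6
  rw [real_inner_comm (fderiv ℝ C.E1 x v), C.DEE hx] at h6
  rw [symm2 C.hV C.sξ hx v (C.e1 x)] at h5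
  rw [symm2 C.hV C.sf hx v (C.e1 x)] at h6
  rw [C.s8 x hx] at h5
  have h7 : ⟪C.E1 x, fderiv ℝ C.f x (fderiv ℝ C.e1 x v)⟫ =
    -⟪C.E1 x, fderiv ℝ (fderiv ℝ C.f) x (C.e1 x) v⟫ := by linarith
  rw [h7] at h5
  linarith

/-- tangential part of `dE₁(e₁)` -/
noncomputable def w0 (x : Eu n) : Eu n := JJ C.φ x (fderiv ℝ C.E1 x (C.e1 x))

theorem sw0 : ContDiffOn ℝ ∞ C.w0 C.V := C.sJ.clm_apply (sm_apply C.hV C.sE C.se1)

theorem dfw0 {x : Eu n} (hx : x ∈ C.V) : fderiv ℝ C.f x (C.w0 x) =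
    fderiv ℝ C.E1 x (C.e1 x) - ⟪C.ξ x, fderiv ℝ C.E1 x (C.e1 x)⟫ • C.ξ x := C.df_J hx _

theorem iii {x : Eu n} (hx : x ∈ C.V) :
    fderiv ℝ C.ξ x (C.w0 x) = (C.h x / 2) • fderiv ℝ C.f x (C.w0 x) := by
  apply C.ext' hx
  · intro v
    rw [C.symc x hx, C.dfw0 hx, inner_sub_right, real_inner_smul_right, C.Dξξ x hx, mul_zero,
      sub_zero, C.ii hx, real_inner_smul_left, inner_sub_left, real_inner_smul_left, C.s2 x hx,
      mul_zero, sub_zero]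
  · rw [C.Dξξ x hx, real_inner_smul_left, real_inner_comm, C.s2 x hx, mul_zero]

theorem w0E {x : Eu n} (hx : x ∈ C.V) : ⟪C.E1 x, fderiv ℝ C.f x (C.w0 x)⟫ = 0 := by
  rw [C.dfw0 hx, inner_sub_right, real_inner_smul_right, C.s6' x hx, real_inner_comm,
    C.DEE hx]
  ring

theorem w0_zero {x : Eu n} (hx : x ∈ C.V) : fderiv ℝ C.f x (C.w0 x) = 0 := by
  have s2 : ContDiffOn ℝ ∞ (fun y => C.h y / 2) C.V := C.sh.div_const 2
  have h3 : fderiv ℝ (fun y => C.h y / 2) x (C.e1 x) = C.ρ x / 2 := by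
    have h4 := ((diffAt C.hV C.sh hx).hasFDerivAt.mul_const (2 : ℝ)⁻¹).fderiv
    simp only [div_eq_mul_inv]
    rw [h4, _root_.smul_apply, smul_eq_mul, mul_comm, C.dhe hx]
  have dw := diffAt C.hV C.sw0 hx
  -- differentiate `iii` along `e₁`
  have h1 := fd_apply C.hV C.sξ hx dw (C.e1 x)
  rw [fd_congr C.hV (fun y hy => C.iii hy) hx, fd_smul C.hV s2 (sm_apply C.hV C.sf C.sw0) hx,
    fd_apply C.hV C.sf hx dw, h3] at h1
  have h5 := C.Da hx (C.w0 x)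
  have h6 := C.Db hx (C.w0 x)
  have h7 : fderiv ℝ C.h x (C.w0 x) = 0 := by rw [C.s8 x hx, C.w0E hx, mul_zero]
  rw [h7, zero_div, zero_smul, add_zero, ← h6] at h5
  rw [symm2 C.hV C.sξ hx (C.w0 x), symm2 C.hV C.sf hx (C.w0 x)] at h5
  set z := fderiv ℝ C.w0 x (C.e1 x) - fderiv ℝ C.e1 x (C.w0 x) with hz
  have h8 : fderiv ℝ C.ξ x z = (C.ρ x / 2) • fderiv ℝ C.f x (C.w0 x) +
      (C.h x / 2) • fderiv ℝ C.f x z := by
    rw [hz, map_sub, map_sub]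
    have e1 : fderiv ℝ C.ξ x (fderiv ℝ C.w0 x (C.e1 x)) =
        (C.h x / 2) • (fderiv ℝ (fderiv ℝ C.f) x (C.e1 x) (C.w0 x) +
          fderiv ℝ C.f x (fderiv ℝ C.w0 x (C.e1 x))) +
        (C.ρ x / 2) • fderiv ℝ C.f x (C.w0 x) - fderiv ℝ (fderiv ℝ C.ξ) x (C.e1 x) (C.w0 x) := by
      rw [h1]; abel
    have e2 : fderiv ℝ C.ξ x (fderiv ℝ C.e1 x (C.w0 x)) =
        (C.h x / 2) • (fderiv ℝ (fderiv ℝ C.f) x (C.e1 x) (C.w0 x) +
          fderiv ℝ C.f x (fderiv ℝ C.e1 x (C.w0 x))) -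
        fderiv ℝ (fderiv ℝ C.ξ) x (C.e1 x) (C.w0 x) := by
      rw [← h5]; abel
    rw [e1, e2]
    module
  have h9 := congrArg (fun u => ⟪u, fderiv ℝ C.f x (C.w0 x)⟫) h8
  simp only [inner_add_left, real_inner_smul_left] at h9
  rw [C.symc x hx, C.iii hx, real_inner_smul_left, real_inner_comm (fderiv ℝ C.f x z)] at h9
  have h10 : C.ρ x * ⟪fderiv ℝ C.f x (C.w0 x), fderiv ℝ C.f x (C.w0 x)⟫ = 0 := by linarith
  exact inner_self_eq_zero.1 ((mul_eq_zero.1 h10).resolve_left (C.s8' x hx))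

/-- (F4): the integral curves of the gradient are planar geodesics. -/
theorem F4 {x : Eu n} (hx : x ∈ C.V) :
    fderiv ℝ C.E1 x (C.e1 x) = (-(C.h x / 2)) • C.ξ x := by
  have h1 := C.dfw0 hx
  rw [C.w0_zero hx] at h1
  have h2 : fderiv ℝ C.E1 x (C.e1 x) = ⟪C.ξ x, fderiv ℝ C.E1 x (C.e1 x)⟫ • C.ξ x :=
    (sub_eq_zero.1 h1.symm)
  have h3 : ⟪C.ξ x, fderiv ℝ C.E1 x (C.e1 x)⟫ = -(C.h x / 2) := by
    rw [real_inner_comm, C.DEξ hx, C.ξE hx, C.hb hx, C.s6 x hx, mul_one]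
  rw [h2, h3]

end Core

end Helper772Chen
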