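import Mathlib

set_option autoImplicit false

open Module Module.End

namespace Helper772Chen

variable {W : Type*} [NormedAddCommGroup W] [InnerProductSpace ℝ W]

/-- the joint eigenspaces -/
def jointV (A B : W →ₗ[ℝ] W)
    (i : {α : ℝ // HasEigenvalue A α} × {α : ℝ // HasEigenvalue B α}) : Submodule ℝ W :=
  eigenspace A i.1.1 ⊓ eigenspace B i.2.1

theorem jointV_orth (A B : W →ₗ[ℝ] W) (hA : A.IsSymmetric) (hB : B.IsSymmetric) :
    OrthogonalFamily ℝ (fun i => jointV A B i) (fun i => (jointV A B i).subtypeₗᵢ) := by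
  have hg : Function.Injective
      (fun i : {α : ℝ // HasEigenvalue A α} × {α : ℝ // HasEigenvalue B α} =>
        (i.2.1, i.1.1)) := by
    rintro ⟨a, b⟩ ⟨c, d⟩ h
    have h1 : (b : ℝ) = (d : ℝ) := congrArg Prod.fst h
    have h2 : (a : ℝ) = (c : ℝ) := congrArg Prod.snd h
    exact Prod.ext (Subtype.ext h2) (Subtype.ext h1)
  have h := (LinearMap.IsSymmetric.orthogonalFamily_eigenspace_inf_eigenspace hA hB).comp hg
  exact h

variable [FiniteDimensional ℝ W]

theorem jointV_top (A B : W →ₗ[ℝ] W) (hA : A.IsSymmetric) (hB : B.IsSymmetric)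
    (hAB : Commute A B) : iSup (jointV A B) = ⊤ := by
  rw [eq_top_iff, ← LinearMap.IsSymmetric.iSup_iSup_eigenspace_inf_eigenspace_eq_top_of_commute
    hA hB hAB]
  refine iSup_le fun α => iSup_le fun γ => ?_
  by_cases h1 : HasEigenvalue A α
  · by_cases h2 : HasEigenvalue B γ
    · exact le_iSup (jointV A B) (⟨α, h1⟩, ⟨γ, h2⟩)
    · have h3 : eigenspace B γ = ⊥ := by
        by_contra hne
        exact h2 hne
      rw [h3, inf_bot_eq]
      exact bot_le
  · have h3 : eigenspace A α = ⊥ := by
      by_contra hne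
      exact h1 hne
    rw [h3, bot_inf_eq]
    exact bot_le

open scoped Classical in
theorem jointV_int (A B : W →ₗ[ℝ] W) (hA : A.IsSymmetric) (hB : B.IsSymmetric)
    (hAB : Commute A B) : DirectSum.IsInternal (jointV A B) := by
  rw [(jointV_orth A B hA hB).isInternal_iff, jointV_top A B hA hB hAB,
    Submodule.top_orthogonal_eq_bot]

/-- Simultaneous orthonormal diagonalization of two commuting symmetric operators. -/
theorem exists_joint_basis (A B : W →ₗ[ℝ] W) (hA : A.IsSymmetric) (hB : B.IsSymmetric)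
    (hAB : Commute A B) {n : ℕ} (hn : finrank ℝ W = n) :
    ∃ (b : OrthonormalBasis (Fin n) ℝ W) (q p : Fin n → ℝ),
      ∀ i, A (b i) = q i • b i ∧ B (b i) = p i • b i := by
  classical
  have : Fintype {α : ℝ // HasEigenvalue A α} :=
    Set.Finite.fintype (finite_hasEigenvalue A)
  have : Fintype {α : ℝ // HasEigenvalue B α} :=
    Set.Finite.fintype (finite_hasEigenvalue B)
  have hInt := jointV_int A B hA hB hAB
  have hOF := jointV_orth A B hA hB
  have key : ∀ a : Fin n, ∃ i, hInt.subordinateOrthonormalBasis hn hOF a ∈ jointV A B i :=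
    fun a => ⟨_, hInt.subordinateOrthonormalBasis_subordinate hn a hOF⟩
  choose i hi using key
  refine ⟨hInt.subordinateOrthonormalBasis hn hOF, fun a => (i a).1.1,
    fun a => (i a).2.1, fun a => ?_⟩
  exact ⟨mem_eigenspace_iff.1 (hi a).1, mem_eigenspace_iff.1 (hi a).2⟩

end Helper772Chen
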