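import Mathlib

set_option autoImplicit false

open Set Metric
open scoped NNReal

namespace Helper772Chen

/-- Two-sided Gronwall: a curve with `‖v'‖ ≤ C ‖v‖` vanishing at `0` vanishes. -/
theorem gronwall_zero {E : Type*} [NormedAddCommGroup E] [NormedSpace ℝ E] {v v' : ℝ → E}
    {C a b : ℝ} (ha : a ≤ 0) (hb : 0 ≤ b)
    (hv : ∀ t ∈ Icc a b, HasDerivAt v (v' t) t) (h0 : v 0 = 0)
    (hC : ∀ t ∈ Icc a b, ‖v' t‖ ≤ C * ‖v t‖) : ∀ t ∈ Icc a b, v t = 0 := by
  intro t ht
  rcases le_total 0 t with h | h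
  · refine eq_zero_of_abs_deriv_le_mul_abs_self_of_eq_zero_right (f := v) (f' := v') (K := C)
      (a := 0) (b := b) ?_ ?_ h0 ?_ t ⟨h, ht.2⟩
    · exact fun s hs => (hv s ⟨ha.trans hs.1, hs.2⟩).continuousAt.continuousWithinAt
    · exact fun s hs => (hv s ⟨ha.trans hs.1, hs.2.le⟩).hasDerivWithinAt
    · exact fun s hs => hC s ⟨ha.trans hs.1, hs.2.le⟩
  · have key : ∀ s ∈ Icc 0 (-a), (fun s => v (-s)) s = 0 := by
      refine eq_zero_of_abs_deriv_le_mul_abs_self_of_eq_zero_right (f := fun s => v (-s))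
        (f' := fun s => -(v' (-s))) (K := C) (a := 0) (b := -a) ?_ ?_ (by simpa using h0) ?_
      · intro s hs
        have h1 : HasDerivAt v (v' (-s)) (-s) := hv (-s) ⟨by linarith [hs.2], by linarith [hs.1]⟩
        have h2 := h1.continuousAt
        have h3 : ContinuousAt (fun s => v (-s)) s := ContinuousAt.comp (f := fun s : ℝ => -s) h2
          continuous_neg.continuousAt
        exact h3.continuousWithinAt
      · intro s hs
        have h1 : HasDerivAt v (v' (-s)) (-s) :=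
          hv (-s) ⟨by linarith [hs.2.le], by linarith [hs.1]⟩
        have h2 := h1.scomp s (hasDerivAt_neg s)
        simp only [neg_smul, one_smul] at h2
        exact h2.hasDerivWithinAt
      · intro s hs
        rw [norm_neg]
        exact hC (-s) ⟨by linarith [hs.2.le], by linarith [hs.1]⟩
    have := key (-t) ⟨by linarith, by linarith [ht.1]⟩
    simpa using this

variable {E : Type*} [NormedAddCommGroup E] [NormedSpace ℝ E] [CompleteSpace E]

/-- Global solutions of a bounded, locally Lipschitz (on balls) vector field. -/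
theorem exists_global (v : E → E) (B : ℝ≥0)
    (hK : ∀ (z : E) (R : ℝ), ∃ K : ℝ≥0, LipschitzOnWith K v (closedBall z R))
    (hB : ∀ z, ‖v z‖ ≤ B) (z : E) :
    ∃ φ : ℝ → E, φ 0 = z ∧ ∀ t, HasDerivAt φ (v (φ t)) t := by
  have hloc : ∀ (n : ℕ), ∃ α : ℝ → E, α 0 = z ∧
      ∀ t ∈ Ioo (-(n : ℝ)) n, HasDerivAt α (v (α t)) t ∧ α t ∈ closedBall z (B * n) := by
    intro n
    have h0 : (0 : ℝ) ∈ Icc (-(n : ℝ)) n := ⟨by simp, by simp⟩
    obtain ⟨K, hK'⟩ := hK z (B * n : ℝ≥0)
    have hP : IsPicardLindelof (fun _ : ℝ => v) (tmin := -(n : ℝ)) (tmax := n) ⟨0, h0⟩ z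
        (B * n) 0 B K := by
      refine IsPicardLindelof.of_time_independent (fun y _ => hB y) hK' ?_
      simp
    obtain ⟨α, h1, h2⟩ := hP.exists_eq_forall_mem_Icc_hasDerivWithinAt₀
    refine ⟨α, h1, fun t ht => ⟨?_, ?_⟩⟩
    · exact (h2 t (Ioo_subset_Icc_self ht)).hasDerivAt (Icc_mem_nhds ht.1 ht.2)
    · have h3 : ‖α t - α 0‖ ≤ B * ‖t - 0‖ := by
        refine Convex.norm_image_sub_le_of_norm_hasDerivWithin_le (f := α)
          (f' := fun t => v (α t)) (s := Icc (-(n : ℝ)) n) (C := B) ?_ ?_ (convex_Icc _ _) h0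
          (Ioo_subset_Icc_self ht)
        · exact h2
        · exact fun s _ => hB _
      rw [mem_closedBall, dist_eq_norm, ← h1]
      refine h3.trans ?_
      have h4 : ‖t - 0‖ ≤ n := by
        rw [sub_zero, Real.norm_eq_abs]
        exact (abs_lt.2 ht).le
      exact mul_le_mul_of_nonneg_left h4 B.2
  choose α h0 hα using hloc
  have huniq : ∀ (m n : ℕ) (t : ℝ), |t| < m → |t| < n → α m t = α n t := by
    have key : ∀ (m n : ℕ) (t : ℝ), m ≤ n → |t| < m → α m t = α n t := by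
      intro m n t hmn ht
      have hm : (0 : ℝ) < m := lt_of_le_of_lt (abs_nonneg t) ht
      have hmn' : (m : ℝ) ≤ n := by exact_mod_cast hmn
      obtain ⟨K, hK'⟩ := hK z (B * n)
      refine ODE_solution_unique_of_mem_Ioo (v := fun _ => v) (s := fun _ => closedBall z (B * n))
        (K := K) (a := -(m : ℝ)) (b := m) (t₀ := 0) (fun _ _ => hK')
        ⟨by linarith, hm⟩ (fun s hs => ⟨(hα m s hs).1, ?_⟩)
        (fun s hs => hα n s ⟨by linarith [hs.1], by linarith [hs.2]⟩)
        (by rw [h0, h0]) (abs_lt.1 ht)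
      refine closedBall_subset_closedBall ?_ (hα m s hs).2
      exact mul_le_mul_of_nonneg_left hmn' B.2
    intro m n t hm hn
    rcases le_total m n with h | h
    · exact key m n t h hm
    · exact (key n m t h hn).symm
  refine ⟨fun t => α (⌊|t|⌋₊ + 1) t, by simp [h0], fun t => ?_⟩
  have ht : |t| < ((⌊|t|⌋₊ + 1 : ℕ) : ℝ) := by
    push_cast
    exact Nat.lt_floor_add_one _
  have h1 := (hα (⌊|t|⌋₊ + 1) t (abs_lt.1 ht)).1
  refine h1.congr_of_eventuallyEq ?_
  have hopen : {s : ℝ | |s| < ((⌊|t|⌋₊ + 1 : ℕ) : ℝ)} ∈ nhds t :=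
    (isOpen_lt continuous_abs continuous_const).mem_nhds ht
  filter_upwards [hopen] with s hs
  refine huniq _ _ s ?_ hs
  push_cast
  exact Nat.lt_floor_add_one _

end Helper772Chen
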