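import Mathlib
import Pool.Agent.Helper772_Chen.Global

set_option autoImplicit false

open Set Metric MvPolynomial
open scoped NNReal

namespace Helper772Chen

variable {σ : Type*}

/-- Chain rule for polynomials along a curve. -/
theorem hasDerivAt_eval (F : σ → MvPolynomial σ ℝ) (y : ℝ → σ → ℝ) (w t : ℝ)
    (hy : ∀ v, HasDerivAt (fun s => y s v) (w * eval (y t) (F v)) t) (p : MvPolynomial σ ℝ) :
    HasDerivAt (fun s => eval (y s) p) (w * eval (y t) (mkDerivation ℝ F p)) t := by
  induction p using MvPolynomial.induction_on with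
  | C a => simpa using hasDerivAt_const t a
  | add p q hp hq =>
    have := hp.add hq
    simp only [map_add, mul_add]
    exact this
  | mul_X p i hp =>
    have h1 := hp.mul (hy i)
    have h2 : (fun s => eval (y s) (p * X i)) = (fun s => eval (y s) p) * (fun s => y s i) := by
      funext s
      simp
    rw [h2]
    refine h1.congr_deriv ?_
    simp only [Derivation.leibniz, mkDerivation_X, smul_eq_mul, map_add, map_mul, eval_X]
    ring

/-- Iterated derivatives of a polynomial relation holding along a local solution. -/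
theorem iterate_eval_zero (F : σ → MvPolynomial σ ℝ) (y : ℝ → σ → ℝ) (a b : ℝ)
    (hy : ∀ t ∈ Ioo a b, ∀ v, HasDerivAt (fun s => y s v) (eval (y t) (F v)) t)
    (p : MvPolynomial σ ℝ) (hp : ∀ t ∈ Ioo a b, eval (y t) p = 0) (j : ℕ) :
    ∀ t ∈ Ioo a b, eval (y t) ((mkDerivation ℝ F)^[j] p) = 0 := by
  induction j with
  | zero => simpa using hp
  | succ j ih =>
    intro t ht
    have h1 := hasDerivAt_eval F y 1 t (fun v => by simpa using hy t ht v)
      ((mkDerivation ℝ F)^[j] p)
    have h2 : HasDerivAt (fun s => eval (y s) ((mkDerivation ℝ F)^[j] p)) 0 t := by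
      refine (hasDerivAt_const t (0 : ℝ)).congr_of_eventuallyEq ?_
      filter_upwards [Ioo_mem_nhds ht.1 ht.2] with s hs using ih s hs
    have h3 := h1.unique h2
    rw [Function.iterate_succ_apply']
    linarith

/-- Persistence of a polynomial relation along a solution defined for all time. -/
theorem persist [Finite σ] (F : σ → MvPolynomial σ ℝ) (y : ℝ → σ → ℝ) (w : ℝ → ℝ)
    (hw : Continuous w)
    (hy : ∀ t v, HasDerivAt (fun s => y s v) (w t * eval (y t) (F v)) t)
    (p : MvPolynomial σ ℝ) (h0 : ∀ j : ℕ, eval (y 0) ((mkDerivation ℝ F)^[j] p) = 0) (t : ℝ) :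
    eval (y t) p = 0 := by
  classical
  set D := mkDerivation ℝ F with hD
  let I : ℕ →o Ideal (MvPolynomial σ ℝ) :=
    ⟨fun n => Ideal.span (Set.range (fun j : Fin (n + 1) => D^[(j : ℕ)] p)), by
      intro m n hmn
      refine Ideal.span_mono ?_
      rintro x ⟨j, rfl⟩
      exact ⟨⟨j, by have := j.2; omega⟩, rfl⟩⟩
  obtain ⟨n, hn⟩ := (monotone_stabilizes_iff_noetherian (R := MvPolynomial σ ℝ)
    (M := MvPolynomial σ ℝ)).2 inferInstance I
  have h1 : D^[n + 1] p ∈ I n := by
    rw [hn (n + 1) (Nat.le_succ n)]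
    exact Ideal.subset_span ⟨⟨n + 1, by omega⟩, rfl⟩
  obtain ⟨c, hc⟩ := (Ideal.mem_span_range_iff_exists_fun).1 h1
  -- continuity
  have hycont : ∀ v, Continuous (fun s => y s v) := fun v =>
    continuous_iff_continuousAt.2 fun s => (hy s v).continuousAt
  have hyc : Continuous y := continuous_pi hycont
  have hec : ∀ q : MvPolynomial σ ℝ, Continuous (fun s => eval (y s) q) := fun q =>
    (MvPolynomial.continuous_eval q).comp hyc
  let κ : ℝ → ℝ := fun s => |w s| * (1 + ∑ i, |eval (y s) (c i)|)
  have hκ : Continuous κ := by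
    refine (continuous_abs.comp hw).mul (continuous_const.add ?_)
    exact continuous_finsetSum _ fun i _ => continuous_abs.comp (hec (c i))
  let V : ℝ → (Fin (n + 1) → ℝ) := fun s j => eval (y s) (D^[(j : ℕ)] p)
  let V' : ℝ → (Fin (n + 1) → ℝ) := fun s j => w s * eval (y s) (D^[(j : ℕ) + 1] p)
  have hV : ∀ s, HasDerivAt V (V' s) s := by
    intro s
    rw [hasDerivAt_pi]
    intro j
    have := hasDerivAt_eval F y (w s) s (hy s) (D^[(j : ℕ)] p)
    simp only [V, V', Function.iterate_succ_apply']
    exact this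
  have hbound : ∀ s, ‖V' s‖ ≤ κ s * ‖V s‖ := by
    intro s
    have hk1 : ∀ i : Fin (n + 1), |V s i| ≤ ‖V s‖ := fun i => norm_le_pi_norm (V s) i
    have hS : 0 ≤ ∑ i, |eval (y s) (c i)| := Finset.sum_nonneg fun i _ => abs_nonneg _
    rw [pi_norm_le_iff_of_nonneg (by positivity)]
    intro j
    have hj := j.2
    rw [Real.norm_eq_abs]
    change |w s * eval (y s) (D^[(j : ℕ) + 1] p)| ≤ |w s| * (1 + ∑ i, |eval (y s) (c i)|) * ‖V s‖
    rw [abs_mul, mul_assoc]
    refine mul_le_mul_of_nonneg_left ?_ (abs_nonneg _)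
    rcases Nat.lt_or_ge (j : ℕ) n with hlt | hge
    · have h2 := hk1 ⟨(j : ℕ) + 1, by omega⟩
      simp only [V] at h2
      refine h2.trans ?_
      have := mul_nonneg hS (norm_nonneg (V s))
      nlinarith
    · have hjn : (j : ℕ) = n := by omega
      rw [hjn, ← hc, map_sum]
      refine (Finset.abs_sum_le_sum_abs _ _).trans ?_
      rw [add_mul, one_mul, Finset.sum_mul]
      refine le_trans ?_ (le_add_of_nonneg_left (norm_nonneg _))
      refine Finset.sum_le_sum fun i _ => ?_
      rw [map_mul, abs_mul]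
      exact mul_le_mul_of_nonneg_left (hk1 i) (abs_nonneg _)
  obtain ⟨C, hC⟩ := (isCompact_Icc (a := -|t|) (b := |t|)).bddAbove_image hκ.continuousOn
  have hzero := gronwall_zero (v := V) (v' := V') (C := C) (a := -|t|) (b := |t|)
    (by simp) (abs_nonneg t) (fun s _ => hV s) (by
      funext j
      exact h0 j) (fun s hs => (hbound s).trans
        (mul_le_mul_of_nonneg_right (hC ⟨s, hs, rfl⟩) (norm_nonneg _)))
    t ⟨neg_abs_le t, le_abs_self t⟩
  have := congrFun hzero ⟨0, by omega⟩
  simpa [V] using this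

end Helper772Chen
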