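import Mathlib
import Pool.Agent.Helper772_Chen.Persist
import Pool.Agent.Helper772_Chen.CaseOneEnd

set_option autoImplicit false

open Set Filter Topology MvPolynomial
open scoped NNReal

namespace Helper772Chen

variable {ι : Type} [Fintype ι]

/-- primitive of a continuous function -/
theorem exists_prim {f : ℝ → ℝ} (hf : Continuous f) :
    ∃ F : ℝ → ℝ, F 0 = 0 ∧ ∀ t, HasDerivAt F (f t) t :=
  ⟨fun t => ∫ x in (0 : ℝ)..t, f x, by simp, fun t =>
    (hf.integral_hasStrictDerivAt 0 t).hasDerivAt⟩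

/-- constant from zero derivative -/
theorem const_of_deriv {f : ℝ → ℝ} (hf : ∀ t, HasDerivAt f 0 t) (t : ℝ) : f t = f 0 :=
  is_const_of_deriv_eq_zero (fun t => (hf t).differentiableAt) (fun t => (hf t).deriv) t 0

/-- Building trajectory data from a global solution. -/
theorem no_global (a b : ι → ℝ → ℝ) (K M w : ℝ → ℝ)
    (hw : ∀ t, w t = 1 / (1 + ∑ i, (a i t ^ 2 + b i t ^ 2)))
    (hK3 : ∀ t, 3 * K t = - ∑ i, a i t)
    (hKd : ∀ t, HasDerivAt K (w t * M t) t)
    (hMd : ∀ t, HasDerivAt M (w t * (K t * (K t ^ 2 + ∑ i, a i t ^ 2) - M t * ∑ i, b i t)) t)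
    (ha : ∀ i t, HasDerivAt (a i) (w t * ((K t - a i t) * b i t)) t)
    (hb : ∀ i t, HasDerivAt (b i) (w t * (-(b i t) ^ 2 - K t * a i t)) t)
    (hK0 : 0 < K 0) (hM0 : 0 ≤ M 0) : False := by
  have ca : ∀ i, Continuous (a i) := fun i => continuous_iff_continuousAt.2 fun t =>
    (ha i t).continuousAt
  have cb : ∀ i, Continuous (b i) := fun i => continuous_iff_continuousAt.2 fun t =>
    (hb i t).continuousAt
  have cK : Continuous K := continuous_iff_continuousAt.2 fun t => (hKd t).continuousAt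
  have hden : ∀ t, 0 < 1 + ∑ i, (a i t ^ 2 + b i t ^ 2) := by
    intro t
    have : 0 ≤ ∑ i, (a i t ^ 2 + b i t ^ 2) := Finset.sum_nonneg fun i _ => by positivity
    linarith
  have cw : Continuous w := by
    have h : w = fun t => 1 / (1 + ∑ i, (a i t ^ 2 + b i t ^ 2)) := funext hw
    rw [h]
    refine continuous_const.div ?_ fun t => (hden t).ne'
    exact continuous_const.add (continuous_finsetSum _ fun i _ => ((ca i).pow 2).add ((cb i).pow 2))
  obtain ⟨θ, hθ0, hθd⟩ := exists_prim (cw.mul cK)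
  have cθ : Continuous θ := continuous_iff_continuousAt.2 fun t => (hθd t).continuousAt
  obtain ⟨s, hs0, hsd⟩ := exists_prim cw
  obtain ⟨X, hX0, hXd⟩ := exists_prim (cw.mul (Real.continuous_cos.comp cθ))
  obtain ⟨Y, hY0, hYd⟩ := exists_prim (cw.mul (Real.continuous_sin.comp cθ))
  choose g hg0 hgd using fun i => exists_prim (cw.mul (cb i))
  simp only [Pi.mul_apply, Function.comp_apply] at hθd hXd hYd hgd
  have hld : ∀ i t, HasDerivAt (fun t => Real.exp (g i t)) (w t * b i t * Real.exp (g i t)) t := by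
    intro i t
    refine (hgd i t).exp.congr_deriv ?_
    ring
  have hA : ∀ i t, HasDerivAt (fun t => a i t * Real.exp (g i t))
      (w t * K t * (b i t * Real.exp (g i t))) t := by
    intro i t
    refine ((ha i t).mul (hld i t)).congr_deriv ?_
    ring
  have hB : ∀ i t, HasDerivAt (fun t => b i t * Real.exp (g i t))
      (-(w t * K t * (a i t * Real.exp (g i t)))) t := by
    intro i t
    refine ((hb i t).mul (hld i t)).congr_deriv ?_
    ring
  have hU : ∀ i t, a i t * Real.exp (g i t) * Real.cos (θ t)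
      - b i t * Real.exp (g i t) * Real.sin (θ t) = a i 0 := by
    intro i t
    have := const_of_deriv (f := fun t => a i t * Real.exp (g i t) * Real.cos (θ t)
      - b i t * Real.exp (g i t) * Real.sin (θ t)) (fun t => by
        refine (((hA i t).mul (hθd t).cos).sub ((hB i t).mul (hθd t).sin)).congr_deriv ?_
        ring) t
    simpa [hθ0, hg0] using this
  have hV : ∀ i t, a i t * Real.exp (g i t) * Real.sin (θ t)
      + b i t * Real.exp (g i t) * Real.cos (θ t) = b i 0 := by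
    intro i t
    have := const_of_deriv (f := fun t => a i t * Real.exp (g i t) * Real.sin (θ t)
      + b i t * Real.exp (g i t) * Real.cos (θ t)) (fun t => by
        refine (((hA i t).mul (hθd t).sin).add ((hB i t).mul (hθd t).cos)).congr_deriv ?_
        ring) t
    simpa [hθ0, hg0] using this
  have hal : ∀ i t, a i t * Real.exp (g i t) = a i 0 * Real.cos (θ t) + b i 0 * Real.sin (θ t) := by
    intro i t
    rw [← hU i t, ← hV i t]
    have := Real.sin_sq_add_cos_sq (θ t)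
    calc a i t * Real.exp (g i t)
        = a i t * Real.exp (g i t) * (Real.sin (θ t) ^ 2 + Real.cos (θ t) ^ 2) := by
          rw [this, mul_one]
      _ = _ := by ring
  have hbl : ∀ i t, b i t * Real.exp (g i t) = b i 0 * Real.cos (θ t) - a i 0 * Real.sin (θ t) := by
    intro i t
    rw [← hU i t, ← hV i t]
    have := Real.sin_sq_add_cos_sq (θ t)
    calc b i t * Real.exp (g i t)
        = b i t * Real.exp (g i t) * (Real.sin (θ t) ^ 2 + Real.cos (θ t) ^ 2) := by
          rw [this, mul_one]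
      _ = _ := by ring
  have hl : ∀ i t, Real.exp (g i t) = 1 + b i 0 * X t - a i 0 * Y t := by
    intro i t
    have := const_of_deriv (f := fun t => Real.exp (g i t) - (b i 0 * X t - a i 0 * Y t))
      (fun t => by
        refine ((hld i t).sub (((hXd t).const_mul _).sub ((hYd t).const_mul _))).congr_deriv ?_
        have h := hbl i t
        calc w t * b i t * Real.exp (g i t) - (b i 0 * (w t * Real.cos (θ t))
              - a i 0 * (w t * Real.sin (θ t)))
            = w t * (b i t * Real.exp (g i t) - (b i 0 * Real.cos (θ t)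
              - a i 0 * Real.sin (θ t))) := by ring
          _ = 0 := by rw [h]; ring) t
    simp only [hX0, hY0, hg0, Real.exp_zero] at this
    linarith
  exact TD.false (ι := ι)
    { a := a, b := b, l := fun i t => Real.exp (g i t), p := fun i => b i 0, q := fun i => a i 0,
      K := K, M := M, w := w, θ := θ, s := s, X := X, Y := Y, hw := hw, hK3 := hK3, hKd := hKd,
      hMd := hMd, hθ0 := hθ0, hs0 := hs0, hX0 := hX0, hY0 := hY0, hθd := hθd, hsd := hsd,
      hXd := hXd, hYd := hYd, hlpos := fun i t => Real.exp_pos _, hld := hld, hal := hal,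
      hbl := hbl, hl := hl, hK0 := hK0, hM0 := hM0 }

variable (ι) in
/-- The polynomial `K`. -/
noncomputable def Kp : MvPolynomial (ι ⊕ ι) ℝ := C (-(1 / 3)) * ∑ i, X (Sum.inl i)

/-- The polynomial vector field. -/
noncomputable def Fp : ι ⊕ ι → MvPolynomial (ι ⊕ ι) ℝ :=
  Sum.elim (fun i => (Kp ι - X (Sum.inl i)) * X (Sum.inr i))
    (fun i => -(X (Sum.inr i)) ^ 2 - Kp ι * X (Sum.inl i))

variable (ι) in
/-- The derivative of `K`. -/
noncomputable def Mp : MvPolynomial (ι ⊕ ι) ℝ := mkDerivation ℝ Fp (Kp ι)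

variable (ι) in
/-- The relation (E2). -/
noncomputable def Rp : MvPolynomial (ι ⊕ ι) ℝ :=
  mkDerivation ℝ Fp (Mp ι) - (Kp ι * (Kp ι ^ 2 + ∑ i, X (Sum.inl i) ^ 2) -
    Mp ι * ∑ i, X (Sum.inr i))

theorem eval_Kp (y : ι ⊕ ι → ℝ) : eval y (Kp ι) = -(1 / 3) * ∑ i, y (Sum.inl i) := by
  simp [Kp, map_sum]

theorem eval_Fl (y : ι ⊕ ι → ℝ) (i : ι) :
    eval y (Fp (Sum.inl i)) = (eval y (Kp ι) - y (Sum.inl i)) * y (Sum.inr i) := by
  simp [Fp]

theorem eval_Fr (y : ι ⊕ ι → ℝ) (i : ι) :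
    eval y (Fp (Sum.inr i)) = -(y (Sum.inr i)) ^ 2 - eval y (Kp ι) * y (Sum.inl i) := by
  simp [Fp]

theorem eval_Rp (y : ι ⊕ ι → ℝ) :
    eval y (Rp ι) = eval y (mkDerivation ℝ Fp (Mp ι)) -
      (eval y (Kp ι) * (eval y (Kp ι) ^ 2 + ∑ i, y (Sum.inl i) ^ 2) -
        eval y (Mp ι) * ∑ i, y (Sum.inr i)) := by
  simp [Rp, map_sum]

/-- The time change factor. -/
noncomputable def wf (y : ι ⊕ ι → ℝ) : ℝ := 1 / (1 + ∑ i, (y (Sum.inl i) ^ 2 + y (Sum.inr i) ^ 2))

/-- The rescaled vector field. -/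
noncomputable def Gf (y : ι ⊕ ι → ℝ) : ι ⊕ ι → ℝ := fun v => wf y * eval y (Fp v)

theorem den_pos (y : ι ⊕ ι → ℝ) : 0 < 1 + ∑ i, (y (Sum.inl i) ^ 2 + y (Sum.inr i) ^ 2) := by
  have : 0 ≤ ∑ i, (y (Sum.inl i) ^ 2 + y (Sum.inr i) ^ 2) :=
    Finset.sum_nonneg fun i _ => by positivity
  linarith

theorem contDiff_wf : ContDiff ℝ 1 (wf : (ι ⊕ ι → ℝ) → ℝ) := by
  unfold wf
  refine ContDiff.div contDiff_const ?_ fun y => (den_pos y).ne'
  fun_prop

theorem contDiff_Kp : ContDiff ℝ 1 (fun y : ι ⊕ ι → ℝ => eval y (Kp ι)) := by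
  simp only [eval_Kp]
  fun_prop

theorem contDiff_Gf : ContDiff ℝ 1 (Gf : (ι ⊕ ι → ℝ) → (ι ⊕ ι → ℝ)) := by
  rw [contDiff_pi]
  intro v
  refine contDiff_wf.mul ?_
  have := contDiff_Kp (ι := ι)
  rcases v with i | i
  · simp only [eval_Fl]
    fun_prop
  · simp only [eval_Fr]
    fun_prop

theorem bound_Gf : ∃ B : ℝ≥0, ∀ y : ι ⊕ ι → ℝ, ‖Gf y‖ ≤ B := by
  classical
  refine ⟨⟨Fintype.card ι + 2, by positivity⟩, fun y => ?_⟩
  set Q := ∑ i, (y (Sum.inl i) ^ 2 + y (Sum.inr i) ^ 2) with hQ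
  have hQ0 : 0 ≤ Q := Finset.sum_nonneg fun i _ => by positivity
  have h1 : ∀ i, y (Sum.inl i) ^ 2 + y (Sum.inr i) ^ 2 ≤ Q := fun i =>
    Finset.single_le_sum (f := fun i => y (Sum.inl i) ^ 2 + y (Sum.inr i) ^ 2)
      (fun j _ => by positivity) (Finset.mem_univ i)
  set R := Real.sqrt Q with hR
  have hR0 : 0 ≤ R := Real.sqrt_nonneg _
  have hR2 : R ^ 2 = Q := Real.sq_sqrt hQ0
  have h2 : ∀ i, |y (Sum.inl i)| ≤ R := fun i =>
    Real.abs_le_sqrt (by nlinarith [h1 i, sq_nonneg (y (Sum.inr i))])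
  have h3 : ∀ i, |y (Sum.inr i)| ≤ R := fun i =>
    Real.abs_le_sqrt (by nlinarith [h1 i, sq_nonneg (y (Sum.inl i))])
  have hK : |eval y (Kp ι)| ≤ Fintype.card ι * R := by
    rw [eval_Kp, abs_mul]
    have h4 : |∑ i, y (Sum.inl i)| ≤ Fintype.card ι * R := by
      refine (Finset.abs_sum_le_sum_abs _ _).trans ?_
      refine (Finset.sum_le_sum fun i _ => h2 i).trans ?_
      simp
    have h5 : |(-(1 / 3) : ℝ)| ≤ 1 := by norm_num [abs_of_pos]
    calc |(-(1 / 3) : ℝ)| * |∑ i, y (Sum.inl i)| ≤ 1 * (Fintype.card ι * R) :=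
          mul_le_mul h5 h4 (abs_nonneg _) zero_le_one
      _ = _ := one_mul _
  have hw : wf y = 1 / (1 + Q) := rfl
  have hwpos : 0 < 1 + Q := by linarith
  change ‖Gf y‖ ≤ (Fintype.card ι : ℝ) + 2
  rw [pi_norm_le_iff_of_nonneg (by positivity)]
  have hN : (0 : ℝ) ≤ Fintype.card ι := by positivity
  have key : ∀ v, |eval y (Fp v)| ≤ (Fintype.card ι + 2) * (1 + Q) := by
    intro v
    rcases v with i | i
    · rw [eval_Fl, abs_mul]
      have h4 : |eval y (Kp ι) - y (Sum.inl i)| ≤ Fintype.card ι * R + R :=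
        (abs_sub _ _).trans (add_le_add hK (h2 i))
      calc |eval y (Kp ι) - y (Sum.inl i)| * |y (Sum.inr i)|
          ≤ (Fintype.card ι * R + R) * R := mul_le_mul h4 (h3 i) (abs_nonneg _) (by positivity)
        _ = (Fintype.card ι + 1) * Q := by rw [← hR2]; ring
        _ ≤ _ := by nlinarith
    · rw [eval_Fr]
      have h4 : |-(y (Sum.inr i)) ^ 2 - eval y (Kp ι) * y (Sum.inl i)| ≤
          |y (Sum.inr i)| ^ 2 + |eval y (Kp ι)| * |y (Sum.inl i)| := by
        refine (abs_sub _ _).trans ?_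
        rw [abs_neg, abs_pow, abs_mul]
      refine h4.trans ?_
      calc |y (Sum.inr i)| ^ 2 + |eval y (Kp ι)| * |y (Sum.inl i)|
          ≤ R ^ 2 + (Fintype.card ι * R) * R := by
            refine add_le_add (pow_le_pow_left₀ (abs_nonneg _) (h3 i) 2) ?_
            exact mul_le_mul hK (h2 i) (abs_nonneg _) (by positivity)
        _ = (Fintype.card ι + 1) * Q := by rw [← hR2]; ring
        _ ≤ _ := by nlinarith
  intro v
  rw [Real.norm_eq_abs]
  change |wf y * eval y (Fp v)| ≤ _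
  rw [abs_mul, hw, abs_of_pos (by positivity), one_div, inv_mul_le_iff₀ hwpos]
  have := key v
  linarith

theorem lip_Gf (z : ι ⊕ ι → ℝ) (R : ℝ) :
    ∃ K : ℝ≥0, LipschitzOnWith K (Gf : (ι ⊕ ι → ℝ) → _) (Metric.closedBall z R) :=
  LocallyLipschitzOn.exists_lipschitzOnWith_of_compact (isCompact_closedBall z R)
    ((contDiff_Gf.locallyLipschitz).locallyLipschitzOn)

/-- Positive case of the local ODE lemma. -/
theorem ode_pos {r : ℝ} (hr : 0 < r) (a b : ι → ℝ → ℝ) (k m : ℝ → ℝ)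
    (ha : ∀ i, ∀ t ∈ Ioo (-r) r, HasDerivAt (a i) ((k t - a i t) * b i t) t)
    (hb : ∀ i, ∀ t ∈ Ioo (-r) r, HasDerivAt (b i) (-(b i t) ^ 2 - k t * a i t) t)
    (hs : ∀ t ∈ Ioo (-r) r, ∑ i, a i t = -3 * k t)
    (hk : ∀ t ∈ Ioo (-r) r, HasDerivAt k (m t) t)
    (hm : ∀ t ∈ Ioo (-r) r,
      HasDerivAt m (k t * (k t ^ 2 + ∑ i, a i t ^ 2) - m t * ∑ i, b i t) t)
    (hk0 : 0 < k 0) (hm0 : 0 ≤ m 0) : False := by
  let y : ℝ → (ι ⊕ ι → ℝ) := fun t => Sum.elim (fun i => a i t) (fun i => b i t)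
  have hyK : ∀ t ∈ Ioo (-r) r, eval (y t) (Kp ι) = k t := by
    intro t ht
    rw [eval_Kp]
    simp only [y, Sum.elim_inl]
    rw [hs t ht]
    ring
  have hy : ∀ t ∈ Ioo (-r) r, ∀ v, HasDerivAt (fun s => y s v) (eval (y t) (Fp v)) t := by
    intro t ht v
    rcases v with i | i
    · rw [eval_Fl, hyK t ht]
      exact ha i t ht
    · rw [eval_Fr, hyK t ht]
      exact hb i t ht
  have hnhds : ∀ t ∈ Ioo (-r) r, Ioo (-r) r ∈ 𝓝 t := fun t ht => Ioo_mem_nhds ht.1 ht.2
  have hyM : ∀ t ∈ Ioo (-r) r, eval (y t) (Mp ι) = m t := by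
    intro t ht
    have h1 := hasDerivAt_eval Fp y 1 t (fun v => by simpa using hy t ht v) (Kp ι)
    have h2 : HasDerivAt (fun s => eval (y s) (Kp ι)) (m t) t := by
      refine (hk t ht).congr_of_eventuallyEq ?_
      filter_upwards [hnhds t ht] with s hs' using hyK s hs'
    have := h1.unique h2
    rw [one_mul] at this
    exact this
  have hyR : ∀ t ∈ Ioo (-r) r, eval (y t) (Rp ι) = 0 := by
    intro t ht
    have h1 := hasDerivAt_eval Fp y 1 t (fun v => by simpa using hy t ht v) (Mp ι)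
    have h2 : HasDerivAt (fun s => eval (y s) (Mp ι))
        (k t * (k t ^ 2 + ∑ i, a i t ^ 2) - m t * ∑ i, b i t) t := by
      refine (hm t ht).congr_of_eventuallyEq ?_
      filter_upwards [hnhds t ht] with s hs' using hyM s hs'
    have h3 := h1.unique h2
    rw [one_mul] at h3
    rw [eval_Rp, h3, hyK t ht, hyM t ht]
    simp only [y, Sum.elim_inl, Sum.elim_inr]
    ring
  have h0 : (0 : ℝ) ∈ Ioo (-r) r := ⟨by linarith, hr⟩
  have hj : ∀ j : ℕ, eval (y 0) ((mkDerivation ℝ Fp)^[j] (Rp ι)) = 0 := fun j =>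
    iterate_eval_zero Fp y (-r) r hy (Rp ι) hyR j 0 h0
  obtain ⟨B, hB⟩ := bound_Gf (ι := ι)
  obtain ⟨Y, hY0, hY⟩ := exists_global (Gf : (ι ⊕ ι → ℝ) → _) B lip_Gf hB (y 0)
  have hYv : ∀ t v, HasDerivAt (fun s => Y s v) (wf (Y t) * eval (Y t) (Fp v)) t := by
    intro t v
    exact (hasDerivAt_pi.1 (hY t)) v
  have cY : Continuous Y := continuous_iff_continuousAt.2 fun t => (hY t).continuousAt
  have hR : ∀ t, eval (Y t) (Rp ι) = 0 := by
    refine persist Fp Y (fun t => wf (Y t)) (contDiff_wf.continuous.comp cY) hYv (Rp ι) ?_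
    intro j
    rw [hY0]
    exact hj j
  refine no_global (ι := ι) (fun i t => Y t (Sum.inl i)) (fun i t => Y t (Sum.inr i))
    (fun t => eval (Y t) (Kp ι)) (fun t => eval (Y t) (Mp ι)) (fun t => wf (Y t))
    (fun t => rfl) (fun t => ?_) (fun t => ?_) (fun t => ?_) (fun i t => ?_) (fun i t => ?_) ?_ ?_
  · rw [eval_Kp]
    ring
  · exact hasDerivAt_eval Fp Y _ t (hYv t) (Kp ι)
  · have h1 := hasDerivAt_eval Fp Y _ t (hYv t) (Mp ι)
    have h2 := hR t
    rw [eval_Rp] at h2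
    have h3 : eval (Y t) (mkDerivation ℝ Fp (Mp ι)) =
      eval (Y t) (Kp ι) * (eval (Y t) (Kp ι) ^ 2 + ∑ i, Y t (Sum.inl i) ^ 2) -
        eval (Y t) (Mp ι) * ∑ i, Y t (Sum.inr i) := by linarith
    rw [h3] at h1
    exact h1
  · have h1 := hYv t (Sum.inl i)
    rw [eval_Fl] at h1
    exact h1
  · have h1 := hYv t (Sum.inr i)
    rw [eval_Fr] at h1
    exact h1
  · simp only [hY0, hyK 0 h0]
    exact hk0
  · simp only [hY0, hyM 0 h0]
    exact hm0

/-- The local ODE lemma: `k` vanishes at `0`. -/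
theorem ode_main {r : ℝ} (hr : 0 < r) (a b : ι → ℝ → ℝ) (k m : ℝ → ℝ)
    (ha : ∀ i, ∀ t ∈ Ioo (-r) r, HasDerivAt (a i) ((k t - a i t) * b i t) t)
    (hb : ∀ i, ∀ t ∈ Ioo (-r) r, HasDerivAt (b i) (-(b i t) ^ 2 - k t * a i t) t)
    (hs : ∀ t ∈ Ioo (-r) r, ∑ i, a i t = -3 * k t)
    (hk : ∀ t ∈ Ioo (-r) r, HasDerivAt k (m t) t)
    (hm : ∀ t ∈ Ioo (-r) r,
      HasDerivAt m (k t * (k t ^ 2 + ∑ i, a i t ^ 2) - m t * ∑ i, b i t) t) :
    k 0 = 0 := by
  have hneg : ∀ t, t ∈ Ioo (-r) r → -t ∈ Ioo (-r) r := fun t ht =>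
    ⟨by linarith [ht.2], by linarith [ht.1]⟩
  have hrev : ∀ (f : ℝ → ℝ) (f' t : ℝ), HasDerivAt f f' (-t) →
      HasDerivAt (fun s => f (-s)) (-f') t := by
    intro f f' t h
    exact (h.comp t (hasDerivAt_neg t)).congr_deriv (by ring)
  -- reduction to `m 0 ≥ 0` for positive `k 0`
  have pos : ∀ (a b : ι → ℝ → ℝ) (k m : ℝ → ℝ)
    (_ : ∀ i, ∀ t ∈ Ioo (-r) r, HasDerivAt (a i) ((k t - a i t) * b i t) t)
    (_ : ∀ i, ∀ t ∈ Ioo (-r) r, HasDerivAt (b i) (-(b i t) ^ 2 - k t * a i t) t)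
    (_ : ∀ t ∈ Ioo (-r) r, ∑ i, a i t = -3 * k t)
    (_ : ∀ t ∈ Ioo (-r) r, HasDerivAt k (m t) t)
    (_ : ∀ t ∈ Ioo (-r) r,
      HasDerivAt m (k t * (k t ^ 2 + ∑ i, a i t ^ 2) - m t * ∑ i, b i t) t), ¬ 0 < k 0 := by
    intro a b k m ha hb hs hk hm hk0
    rcases le_total 0 (m 0) with h | h
    · exact ode_pos hr a b k m ha hb hs hk hm hk0 h
    · refine ode_pos hr (fun i t => a i (-t)) (fun i t => -b i (-t)) (fun t => k (-t))
        (fun t => -m (-t)) (fun i t ht => ?_) (fun i t ht => ?_) (fun t ht => ?_)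
        (fun t ht => ?_) (fun t ht => ?_) (by simpa using hk0) (by simpa using h)
      · refine (hrev _ _ t (ha i (-t) (hneg t ht))).congr_deriv ?_
        ring
      · refine ((hrev _ _ t (hb i (-t) (hneg t ht))).neg).congr_deriv ?_
        ring
      · exact hs (-t) (hneg t ht)
      · exact hrev _ _ t (hk (-t) (hneg t ht))
      · refine ((hrev _ _ t (hm (-t) (hneg t ht))).neg).congr_deriv ?_
        rw [Finset.sum_neg_distrib]
        ring
  rcases lt_trichotomy (k 0) 0 with h | h | h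
  · exfalso
    refine pos (fun i t => -a i t) b (fun t => -k t) (fun t => -m t) (fun i t ht => ?_)
      (fun i t ht => ?_) (fun t ht => ?_) (fun t ht => ?_) (fun t ht => ?_) (by simpa using h)
    · refine ((ha i t ht).neg).congr_deriv ?_
      ring
    · refine (hb i t ht).congr_deriv ?_
      ring
    · rw [Finset.sum_neg_distrib, hs t ht]
      ring
    · exact (hk t ht).neg
    · refine ((hm t ht).neg).congr_deriv ?_
      simp only [neg_sq]
      ring
  · exact h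
  · exact absurd h (pos a b k m ha hb hs hk hm)

end Helper772Chen
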