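import Mathlib
import Pool.Agent.Helper772_Chen.Frame
import Pool.Agent.Helper772_Chen.Joint
import Pool.Agent.Helper772_Chen.OdeMain

set_option autoImplicit false

open Set Filter Topology
open scoped RealInnerProductSpace ContDiff

namespace Helper772Chen

namespace Core

variable {n : ℕ} (C : Core n)

/-- shape operator on the ambient space -/
noncomputable def A (x : Eu n) : Eu (n + 1) →L[ℝ] Eu (n + 1) :=
  -(fderiv ℝ C.ξ x).comp (JJ C.φ x)

/-- second operator on the ambient space -/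
noncomputable def B (x : Eu n) : Eu (n + 1) →L[ℝ] Eu (n + 1) :=
  (fderiv ℝ C.E1 x).comp (JJ C.φ x)

theorem A_apply (x : Eu n) (w : Eu (n + 1)) : C.A x w = -fderiv ℝ C.ξ x (JJ C.φ x w) := rfl

theorem B_apply (x : Eu n) (w : Eu (n + 1)) : C.B x w = fderiv ℝ C.E1 x (JJ C.φ x w) := rfl

/-- orthogonal to both `E₁` and `ξ` -/
def W (x : Eu n) (w : Eu (n + 1)) : Prop := ⟪C.E1 x, w⟫ = 0 ∧ ⟪C.ξ x, w⟫ = 0

theorem sA : ContDiffOn ℝ ∞ C.A C.V :=
  ((sm_fderiv C.hV C.sξ).clm_comp C.sJ).neg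

theorem sB : ContDiffOn ℝ ∞ C.B C.V :=
  (sm_fderiv C.hV C.sE).clm_comp C.sJ

theorem df_JW {x : Eu n} (hx : x ∈ C.V) {w : Eu (n + 1)} (hw : C.W x w) :
    fderiv ℝ C.f x (JJ C.φ x w) = w := by
  rw [C.df_J hx, hw.2, zero_smul, sub_zero]

theorem A_symm {x : Eu n} (hx : x ∈ C.V) (w w' : Eu (n + 1)) : ⟪C.A x w, w'⟫ = ⟪w, C.A x w'⟫ := by
  have key : ∀ w w' : Eu (n + 1), ⟪C.A x w, w'⟫ =
      -⟪fderiv ℝ C.ξ x (JJ C.φ x w), fderiv ℝ C.f x (JJ C.φ x w')⟫ := by
    intro w w'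
    rw [A_apply, inner_neg_left, C.df_J hx, inner_sub_right, real_inner_smul_right,
      C.Dξξ x hx, mul_zero, sub_zero]
  rw [real_inner_comm (C.A x w') w, key, key, C.symc x hx]

theorem A_W {x : Eu n} (hx : x ∈ C.V) {w : Eu (n + 1)} (hw : C.W x w) : C.W x (C.A x w) := by
  constructor
  · rw [A_apply, inner_neg_right, real_inner_comm, C.ξE hx, C.df_JW hx hw, hw.1]
    ring
  · rw [A_apply, inner_neg_right, real_inner_comm, C.Dξξ x hx, neg_zero]

theorem B_W {x : Eu n} (hx : x ∈ C.V) {w : Eu (n + 1)} (hw : C.W x w) : C.W x (C.B x w) := by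
  constructor
  · rw [B_apply, real_inner_comm, C.DEE hx]
  · rw [B_apply, real_inner_comm, C.DEξ hx, C.ξE hx, C.df_JW hx hw, hw.1]
    ring

theorem B_symm {x : Eu n} (hx : x ∈ C.V) {w w' : Eu (n + 1)} (hw : C.W x w) (hw' : C.W x w') :
    ⟪C.B x w, w'⟫ = ⟪w, C.B x w'⟫ := by
  have key : ∀ u v : Eu n, fderiv ℝ (fderiv ℝ C.h) x u v =
      C.ρ x * (⟪C.E1 x, fderiv ℝ (fderiv ℝ C.f) x u v⟫ +
        ⟪fderiv ℝ C.E1 x u, fderiv ℝ C.f x v⟫) +
      fderiv ℝ C.ρ x u * ⟪C.E1 x, fderiv ℝ C.f x v⟫ := by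
    intro u v
    rw [← fd_apply_const C.hV C.sh hx]
    have h1 : fderiv ℝ (fun y => fderiv ℝ C.h y v) x =
        fderiv ℝ (fun y => C.ρ y • ⟪C.E1 y, fderiv ℝ C.f y v⟫) x :=
      fd_congr C.hV (fun y hy => C.s8 y hy v) hx
    rw [h1, fd_smul C.hV C.sρ (sm_inner C.sE (sm_apply_const C.hV C.sf v)) hx,
      fd_inner C.hV C.sE (sm_apply_const C.hV C.sf v) hx, fd_apply_const C.hV C.sf hx]
    rfl
  have h1 := key (JJ C.φ x w) (JJ C.φ x w')
  have h2 := key (JJ C.φ x w') (JJ C.φ x w)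
  rw [symm2 C.hV C.sh hx, symm2 C.hV C.sf hx] at h1
  rw [C.df_JW hx hw, hw.1] at h2
  rw [C.df_JW hx hw', hw'.1] at h1
  have h3 : C.ρ x * ⟪C.B x w, w'⟫ = C.ρ x * ⟪C.B x w', w⟫ := by
    simp only [B_apply]
    linarith
  rw [real_inner_comm (C.B x w') w]
  exact mul_left_cancel₀ (C.s8' x hx) h3

/-- derivative of the left inverse along `e₁` -/
theorem DJ {x : Eu n} (hx : x ∈ C.V) {w : Eu (n + 1)} (hw : C.W x w) :
    fderiv ℝ (fun y => JJ C.φ y w) x (C.e1 x) =
      fderiv ℝ C.e1 x (JJ C.φ x w) - JJ C.φ x (C.B x w) := by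
  have sJw : ContDiffOn ℝ ∞ (fun y => JJ C.φ y w) C.V := C.sJ.clm_apply contDiffOn_const
  have h1 := fd_apply C.hV C.sf hx (diffAt C.hV sJw hx) (C.e1 x)
  rw [fd_congr C.hV (fun y hy => C.df_J hy w) hx] at h1
  have scw : ContDiffOn ℝ ∞ (fun y => ⟪C.ξ y, w⟫) C.V := sm_inner C.sξ contDiffOn_const
  have h2 : fderiv ℝ (fun y => w - ⟪C.ξ y, w⟫ • C.ξ y) x (C.e1 x) = 0 := by
    have h3 : fderiv ℝ (fun y => w - ⟪C.ξ y, w⟫ • C.ξ y) x =
        -fderiv ℝ (fun y => ⟪C.ξ y, w⟫ • C.ξ y) x := by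
      rw [fderiv_const_sub]
    rw [h3, _root_.neg_apply, fd_smul C.hV scw C.sξ hx,
      fd_inner C.hV C.sξ contDiffOn_const hx, hw.2, C.ha hx, real_inner_smul_left, hw.1]
    simp
  rw [h2] at h1
  have h4 := C.Db hx (JJ C.φ x w)
  rw [symm2 C.hV C.sf hx] at h4
  have h5 : fderiv ℝ C.f x (fderiv ℝ (fun y => JJ C.φ y w) x (C.e1 x)) =
      fderiv ℝ C.f x (fderiv ℝ C.e1 x (JJ C.φ x w)) - C.B x w := by
    rw [B_apply, ← h4]
    have h6 : fderiv ℝ C.f x (fderiv ℝ (fun y => JJ C.φ y w) x (C.e1 x)) =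
      -fderiv ℝ (fderiv ℝ C.f) x (C.e1 x) (JJ C.φ x w) :=
      eq_neg_of_add_eq_zero_right h1.symm
    rw [h6]
    abel
  have h7 := congrArg (JJ C.φ x) h5
  rw [map_sub, C.J_df hx, C.J_df hx] at h7
  exact h7

theorem half_deriv {x : Eu n} (hx : x ∈ C.V) (v : Eu n) :
    fderiv ℝ (fun y => C.h y / 2) x v = fderiv ℝ C.h x v / 2 := by
  have h4 := ((diffAt C.hV C.sh hx).hasFDerivAt.mul_const (2 : ℝ)⁻¹).fderiv
  simp only [div_eq_mul_inv]
  rw [h4, _root_.smul_apply, smul_eq_mul, mul_comm]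

theorem DA {x : Eu n} (hx : x ∈ C.V) {w : Eu (n + 1)} (hw : C.W x w) :
    fderiv ℝ (fun y => C.A y w) x (C.e1 x) =
      (-(C.h x / 2)) • C.B x w - C.A x (C.B x w) := by
  have sJw : ContDiffOn ℝ ∞ (fun y => JJ C.φ y w) C.V := C.sJ.clm_apply contDiffOn_const
  have h0 : (fun y => C.A y w) = fun y => -(fderiv ℝ C.ξ y (JJ C.φ y w)) := rfl
  rw [h0, fderiv_fun_neg, _root_.neg_apply, fd_apply C.hV C.sξ hx (diffAt C.hV sJw hx),
    C.DJ hx hw, map_sub, symm2 C.hV C.sξ hx]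
  have h1 := C.Da hx (JJ C.φ x w)
  have h2 : fderiv ℝ C.h x (JJ C.φ x w) = 0 := by
    rw [C.s8 x hx, C.df_JW hx hw, hw.1, mul_zero]
  rw [h2, zero_div, zero_smul, add_zero, ← B_apply] at h1
  rw [A_apply C x (C.B x w), ← add_sub_assoc, h1]
  module

theorem DB {x : Eu n} (hx : x ∈ C.V) {w : Eu (n + 1)} (hw : C.W x w) :
    fderiv ℝ (fun y => C.B y w) x (C.e1 x) =
      (C.h x / 2) • C.A x w - C.B x (C.B x w) := by
  have sJw : ContDiffOn ℝ ∞ (fun y => JJ C.φ y w) C.V := C.sJ.clm_apply contDiffOn_const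
  have h0 : (fun y => C.B y w) = fun y => fderiv ℝ C.E1 y (JJ C.φ y w) := rfl
  rw [h0, fd_apply C.hV C.sE hx (diffAt C.hV sJw hx),
    C.DJ hx hw, map_sub, symm2 C.hV C.sE hx]
  have h1 := fd_apply C.hV C.sE hx (diffAt C.hV C.se1 hx) (JJ C.φ x w)
  rw [fd_congr C.hV (fun y hy => C.F4 hy) hx] at h1
  have s2 : ContDiffOn ℝ ∞ (fun y => -(C.h y / 2)) C.V := (C.sh.div_const 2).neg
  have h2 : fderiv ℝ C.h x (JJ C.φ x w) = 0 := by
    rw [C.s8 x hx, C.df_JW hx hw, hw.1, mul_zero]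
  rw [fd_smul C.hV s2 C.sξ hx, fderiv_fun_neg, _root_.neg_apply, C.half_deriv hx, h2] at h1
  simp only [zero_div, neg_zero, zero_smul, add_zero] at h1
  rw [← add_sub_assoc, ← h1, A_apply, B_apply C x (C.B x w)]
  module

/-- an integral curve of `e₁` staying in `V` -/
theorem exists_curve {x0 : Eu n} (hx0 : x0 ∈ C.V) :
    ∃ c : ℝ → Eu n, c 0 = x0 ∧ ∃ r > (0 : ℝ), ∀ t ∈ Ioo (-r) r,
      c t ∈ C.V ∧ HasDerivAt c (C.e1 (c t)) t := by
  have h1 : ContDiffAt ℝ 1 C.e1 x0 :=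
    (C.se1.contDiffAt (C.hV.mem_nhds hx0)).of_le (by exact ENat.LEInfty.out)
  obtain ⟨c, hc0, ε, hε, hc⟩ :=
    h1.exists_forall_mem_closedBall_exists_eq_forall_mem_Ioo_hasDerivAt₀ 0
  simp only [zero_sub, zero_add] at hc
  have hcont : ContinuousAt c 0 := (hc 0 ⟨by linarith, hε⟩).continuousAt
  have h2 : ∀ᶠ t in 𝓝 (0 : ℝ), c t ∈ C.V := by
    apply hcont
    rw [hc0]
    exact C.hV.mem_nhds hx0
  obtain ⟨δ, hδ, hball⟩ := Metric.eventually_nhds_iff.1 h2
  refine ⟨c, hc0, min ε δ, lt_min hε hδ, fun t ht => ⟨?_, ?_⟩⟩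
  · apply hball
    rw [Real.dist_eq, sub_zero]
    exact lt_of_lt_of_le (abs_lt.2 ht) (min_le_right _ _)
  · apply hc
    have h3 := lt_of_lt_of_le (abs_lt.2 ht) (min_le_left _ _)
    exact abs_lt.1 h3

section curve

variable {C}
variable {c : ℝ → Eu n} {r : ℝ}
  (hc : ∀ t ∈ Ioo (-r) r, c t ∈ C.V ∧ HasDerivAt c (C.e1 (c t)) t)

include hc in
theorem along {G : Type*} [NormedAddCommGroup G] [NormedSpace ℝ G] {P : Eu n → G}
    (hP : ContDiffOn ℝ ∞ P C.V) {t : ℝ} (ht : t ∈ Ioo (-r) r) :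
    HasDerivAt (fun s => P (c s)) (fderiv ℝ P (c t) (C.e1 (c t))) t :=
  (diffAt C.hV hP (hc t ht).1).hasFDerivAt.comp_hasDerivAt t (hc t ht).2

include hc in
theorem W_along {w : Eu (n + 1)} (hw : C.W (c 0) w) {t : ℝ} (ht : t ∈ Ioo (-r) r) :
    C.W (c t) w := by
  have hr : 0 < r := by have := ht.1; have := ht.2; linarith
  have hsub : ∀ s ∈ Icc (-|t|) |t|, s ∈ Ioo (-r) r := by
    intro s hs
    have := abs_lt.2 ht
    exact ⟨by linarith [hs.1], by linarith [hs.2]⟩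
  have key := gronwall_zero (v := fun s => ⟪C.E1 (c s), w⟫ ^ 2 + ⟪C.ξ (c s), w⟫ ^ 2)
    (v' := fun _ => 0) (C := 0) (a := -|t|) (b := |t|) (by simp) (abs_nonneg t)
    (fun s hs => by
      have hs' := hsub s hs
      have hx := (hc s hs').1
      have h1 := along hc (P := fun y => ⟪C.E1 y, w⟫) (sm_inner C.sE contDiffOn_const) hs'
      have h2 := along hc (P := fun y => ⟪C.ξ y, w⟫) (sm_inner C.sξ contDiffOn_const) hs'
      rw [fd_inner C.hV C.sE contDiffOn_const hx, C.F4 hx] at h1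
      rw [fd_inner C.hV C.sξ contDiffOn_const hx, C.ha hx] at h2
      refine ((h1.pow 2).add (h2.pow 2)).congr_deriv ?_
      simp only [fderiv_fun_const, Pi.zero_apply, _root_.zero_apply, inner_zero_right,
        real_inner_smul_left]
      ring)
    (by simp [hw.1, hw.2]) (fun s _ => by simp) t ⟨neg_abs_le t, le_abs_self t⟩
  have h1 : ⟪C.E1 (c t), w⟫ ^ 2 = 0 := by
    nlinarith [sq_nonneg ⟪C.E1 (c t), w⟫, sq_nonneg ⟪C.ξ (c t), w⟫]
  have h2 : ⟪C.ξ (c t), w⟫ ^ 2 = 0 := by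
    nlinarith [sq_nonneg ⟪C.E1 (c t), w⟫, sq_nonneg ⟪C.ξ (c t), w⟫]
  exact ⟨pow_eq_zero_iff two_ne_zero |>.1 h1, pow_eq_zero_iff two_ne_zero |>.1 h2⟩

include hc in
/-- joint eigenvectors stay joint eigenvectors -/
theorem eigen {w : Eu (n + 1)} (hw : C.W (c 0) w) (hn : ⟪w, w⟫ = 1) {q p : ℝ}
    (hq : C.A (c 0) w = q • w) (hp : C.B (c 0) w = p • w) {t : ℝ} (ht : t ∈ Ioo (-r) r) :
    C.A (c t) w = ⟪C.A (c t) w, w⟫ • w ∧ C.B (c t) w = ⟪C.B (c t) w, w⟫ • w := by
  have hr : 0 < r := by have := ht.1; have := ht.2; linarith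
  have hsub : ∀ s ∈ Icc (-|t|) |t|, s ∈ Ioo (-r) r := by
    intro s hs
    have := abs_lt.2 ht
    exact ⟨by linarith [hs.1], by linarith [hs.2]⟩
  set a : ℝ → ℝ := fun s => ⟪C.A (c s) w, w⟫ with ha
  set b : ℝ → ℝ := fun s => ⟪C.B (c s) w, w⟫ with hb
  set u : ℝ → Eu (n + 1) := fun s => C.A (c s) w - a s • w with hu
  set v : ℝ → Eu (n + 1) := fun s => C.B (c s) w - b s • w with hv
  set lam : ℝ → ℝ := fun s => -(C.h (c s) / 2) with hlam
  have sAw : ContDiffOn ℝ ∞ (fun y => C.A y w) C.V := C.sA.clm_apply contDiffOn_const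
  have sBw : ContDiffOn ℝ ∞ (fun y => C.B y w) C.V := C.sB.clm_apply contDiffOn_const
  have dA : ∀ s ∈ Ioo (-r) r, HasDerivAt (fun s => C.A (c s) w)
      (lam s • C.B (c s) w - C.A (c s) (C.B (c s) w)) s := by
    intro s hs
    have := along hc sAw hs
    rw [C.DA (hc s hs).1 (W_along hc hw hs)] at this
    exact this
  have dB : ∀ s ∈ Ioo (-r) r, HasDerivAt (fun s => C.B (c s) w)
      (-(lam s) • C.A (c s) w - C.B (c s) (C.B (c s) w)) s := by
    intro s hs
    have := along hc sBw hs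
    rw [C.DB (hc s hs).1 (W_along hc hw hs)] at this
    simp only [hlam, neg_neg]
    exact this
  have da : ∀ s ∈ Ioo (-r) r, HasDerivAt a
      ⟪lam s • C.B (c s) w - C.A (c s) (C.B (c s) w), w⟫ s := by
    intro s hs
    have := (dA s hs).inner ℝ (hasDerivAt_const s w)
    simpa using this
  have db : ∀ s ∈ Ioo (-r) r, HasDerivAt b
      ⟪-(lam s) • C.A (c s) w - C.B (c s) (C.B (c s) w), w⟫ s := by
    intro s hs
    have := (dB s hs).inner ℝ (hasDerivAt_const s w)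
    simpa using this
  have huw : ∀ s, ⟪u s, w⟫ = 0 := by
    intro s
    simp only [hu, ha]
    rw [inner_sub_left, real_inner_smul_left, hn]
    ring
  have hvw : ∀ s, ⟪v s, w⟫ = 0 := by
    intro s
    simp only [hv, hb]
    rw [inner_sub_left, real_inner_smul_left, hn]
    ring
  have eA : ∀ s, C.A (c s) w = u s + a s • w := fun s => by simp [hu]
  have eB : ∀ s, C.B (c s) w = v s + b s • w := fun s => by simp [hv]
  have a' : ∀ s ∈ Ioo (-r) r, ⟪lam s • C.B (c s) w - C.A (c s) (C.B (c s) w), w⟫ =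
      lam s * b s - ⟪v s, u s⟫ - a s * b s := by
    intro s hs
    rw [inner_sub_left, real_inner_smul_left, C.A_symm (hc s hs).1, eA s, eB s]
    simp only [inner_add_left, inner_add_right, real_inner_smul_left, real_inner_smul_right,
      hvw s, hn, real_inner_comm (u s) w, huw s]
    ring
  have b' : ∀ s ∈ Ioo (-r) r, ⟪-(lam s) • C.A (c s) w - C.B (c s) (C.B (c s) w), w⟫ =
      -(lam s * a s) - ⟪v s, v s⟫ - b s ^ 2 := by
    intro s hs
    have hWs := W_along hc hw hs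
    rw [inner_sub_left, real_inner_smul_left,
      C.B_symm (hc s hs).1 (C.B_W (hc s hs).1 hWs) hWs, eA s, eB s]
    simp only [inner_add_left, inner_add_right, real_inner_smul_left, real_inner_smul_right,
      hvw s, hn, real_inner_comm (v s) w, huw s]
    ring
  have du : ∀ s ∈ Ioo (-r) r, HasDerivAt u
      (lam s • v s - C.A (c s) (v s) - b s • u s + ⟪v s, u s⟫ • w) s := by
    intro s hs
    have h1 := (dA s hs).sub ((da s hs).smul_const w)
    rw [a' s hs] at h1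
    refine h1.congr_deriv ?_
    have h2 : C.A (c s) (C.B (c s) w) = C.A (c s) (v s) + b s • (u s + a s • w) := by
      rw [eB s, map_add, map_smul, eA s]
    rw [h2, eB s]
    module
  have dv : ∀ s ∈ Ioo (-r) r, HasDerivAt v
      (-(lam s) • u s - C.B (c s) (v s) - b s • v s + ⟪v s, v s⟫ • w) s := by
    intro s hs
    have h1 := (dB s hs).sub ((db s hs).smul_const w)
    rw [b' s hs] at h1
    refine h1.congr_deriv ?_
    have h2 : C.B (c s) (C.B (c s) w) = C.B (c s) (v s) + b s • (v s + b s • w) := by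
      rw [eB s, map_add, map_smul, eB s]
    rw [h2, eA s]
    module
  -- norm bound
  have hwn : ‖w‖ = 1 := by
    have : ‖w‖ ^ 2 = 1 := by rw [← real_inner_self_eq_norm_sq, hn]
    nlinarith [norm_nonneg w]
  set κ : ℝ → ℝ := fun s => |lam s| + ‖C.A (c s)‖ + ‖C.B (c s)‖ + |b s| + ‖u s‖ + ‖v s‖ with hκ
  have cont : ∀ s ∈ Ioo (-r) r, ContinuousAt κ s := by
    intro s hs
    have c1 : ContinuousAt lam s := ((along hc C.sh hs).continuousAt.div_const 2).neg
    have c2 : ContinuousAt (fun s => C.A (c s)) s := (along hc C.sA hs).continuousAt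
    have c3 : ContinuousAt (fun s => C.B (c s)) s := (along hc C.sB hs).continuousAt
    exact ((((c1.abs.add c2.norm).add c3.norm).add (db s hs).continuousAt.abs).add
      (du s hs).continuousAt.norm).add (dv s hs).continuousAt.norm
  have hκc : ContinuousOn κ (Icc (-|t|) |t|) := fun s hs =>
    (cont s (hsub s hs)).continuousWithinAt
  obtain ⟨K, hK⟩ := isCompact_Icc.bddAbove_image hκc
  have key := gronwall_zero (v := fun s => (u s, v s))
    (v' := fun s => (lam s • v s - C.A (c s) (v s) - b s • u s + ⟪v s, u s⟫ • w,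
      -(lam s) • u s - C.B (c s) (v s) - b s • v s + ⟪v s, v s⟫ • w))
    (C := K) (a := -|t|) (b := |t|) (by simp) (abs_nonneg t)
    (fun s hs => (du s (hsub s hs)).prodMk (dv s (hsub s hs)))
    (by
      have e1 : u 0 = 0 := by
        simp only [hu, ha]
        rw [hq, real_inner_smul_left, hn, mul_one, sub_self]
      have e2 : v 0 = 0 := by
        simp only [hv, hb]
        rw [hp, real_inner_smul_left, hn, mul_one, sub_self]
      rw [e1, e2]
      rfl)
    (fun s hs => by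
      have hKs : κ s ≤ K := hK ⟨s, hs, rfl⟩
      have hu' : ‖u s‖ ≤ ‖(u s, v s)‖ := norm_fst_le (u s, v s)
      have hv' : ‖v s‖ ≤ ‖(u s, v s)‖ := norm_snd_le (u s, v s)
      set N := ‖(u s, v s)‖ with hN
      have hN0 : 0 ≤ N := norm_nonneg _
      refine le_trans ?_ (mul_le_mul_of_nonneg_right hKs hN0)
      have i1 : ‖lam s • v s‖ ≤ |lam s| * N := by
        rw [norm_smul, Real.norm_eq_abs]
        exact mul_le_mul_of_nonneg_left hv' (abs_nonneg _)
      have i2 : ‖C.A (c s) (v s)‖ ≤ ‖C.A (c s)‖ * N :=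
        (ContinuousLinearMap.le_opNorm _ _).trans
          (mul_le_mul_of_nonneg_left hv' (norm_nonneg _))
      have i3 : ‖b s • u s‖ ≤ |b s| * N := by
        rw [norm_smul, Real.norm_eq_abs]
        exact mul_le_mul_of_nonneg_left hu' (abs_nonneg _)
      have i4 : ‖⟪v s, u s⟫ • w‖ ≤ ‖u s‖ * N := by
        rw [norm_smul, hwn, mul_one]
        refine (norm_inner_le_norm _ _).trans ?_
        rw [mul_comm]
        exact mul_le_mul_of_nonneg_left hv' (norm_nonneg _)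
      have j1 : ‖-(lam s) • u s‖ ≤ |lam s| * N := by
        rw [norm_smul, Real.norm_eq_abs, abs_neg]
        exact mul_le_mul_of_nonneg_left hu' (abs_nonneg _)
      have j2 : ‖C.B (c s) (v s)‖ ≤ ‖C.B (c s)‖ * N :=
        (ContinuousLinearMap.le_opNorm _ _).trans
          (mul_le_mul_of_nonneg_left hv' (norm_nonneg _))
      have j3 : ‖b s • v s‖ ≤ |b s| * N := by
        rw [norm_smul, Real.norm_eq_abs]
        exact mul_le_mul_of_nonneg_left hv' (abs_nonneg _)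
      have j4 : ‖⟪v s, v s⟫ • w‖ ≤ ‖v s‖ * N := by
        rw [norm_smul, hwn, mul_one]
        refine (norm_inner_le_norm _ _).trans ?_
        exact mul_le_mul_of_nonneg_left hv' (norm_nonneg _)
      have n1 := norm_nonneg (C.A (c s))
      have n2 := norm_nonneg (C.B (c s))
      have n3 := norm_nonneg (u s)
      have n4 := norm_nonneg (v s)
      have m1 := mul_nonneg n1 hN0
      have m2 := mul_nonneg n2 hN0
      have m3 := mul_nonneg n3 hN0
      have m4 := mul_nonneg n4 hN0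
      have e : κ s * N = |lam s| * N + ‖C.A (c s)‖ * N + ‖C.B (c s)‖ * N + |b s| * N +
          ‖u s‖ * N + ‖v s‖ * N := by simp only [hκ]; ring
      rw [e]
      refine max_le ?_ ?_
      · change ‖lam s • v s - C.A (c s) (v s) - b s • u s + ⟪v s, u s⟫ • w‖ ≤ _
        have t1 := norm_add_le (lam s • v s - C.A (c s) (v s) - b s • u s) (⟪v s, u s⟫ • w)
        have t2 := norm_sub_le (lam s • v s - C.A (c s) (v s)) (b s • u s)
        have t3 := norm_sub_le (lam s • v s) (C.A (c s) (v s))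
        linarith
      · change ‖-(lam s) • u s - C.B (c s) (v s) - b s • v s + ⟪v s, v s⟫ • w‖ ≤ _
        have t1 := norm_add_le (-(lam s) • u s - C.B (c s) (v s) - b s • v s) (⟪v s, v s⟫ • w)
        have t2 := norm_sub_le (-(lam s) • u s - C.B (c s) (v s)) (b s • v s)
        have t3 := norm_sub_le (-(lam s) • u s) (C.B (c s) (v s))
        linarith)
    t ⟨neg_abs_le t, le_abs_self t⟩
  have k1 : u t = 0 := congrArg Prod.fst key
  have k2 : v t = 0 := congrArg Prod.snd key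
  exact ⟨sub_eq_zero.1 k1, sub_eq_zero.1 k2⟩

end curve

end Core

end Helper772Chen
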